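import Mathlib

/-!
# MP_7aea73_co, paths with few colours: common definitions

`V` is the vertex set of the complete graph, `C` the set of colours,
`χ : V → V → C` a symmetric colour function (the values `χ v v` play no role),
`L` the set of *dense* colours (always used), `ω : C → Fin M` a random labelling of the
colours; the random set of colours is `SS L a ω = L ∪ {c | ω c < a}`.
-/

namespace PF61

open Finset
open scoped Classical

noncomputable section

variable {V C : Type} [Fintype V] [Fintype C]

/-- number of neighbours of `u` in colour `c` -/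
def cdeg (χ : V → V → C) (c : C) (u : V) : ℕ :=
  (univ.filter (fun v => v ≠ u ∧ χ u v = c)).card

/-- number of ordered pairs of distinct vertices of colour `c` -/
def tot (χ : V → V → C) (c : C) : ℕ := ∑ u : V, cdeg χ c u

/-- the (random) set of colours that is used -/
def SS (L : Finset C) {M : ℕ} (a : ℕ) (ω : C → Fin M) : Finset C :=
  univ.filter (fun c => c ∈ L ∨ (ω c : ℕ) < a)

/-- the colour of `uw` is dense, or rare at `u` -/
def Light (χ : V → V → C) (L : Finset C) (δ : ℝ) (u w : V) : Prop :=
  w ≠ u ∧ (χ u w ∈ L ∨ (cdeg χ (χ u w) u : ℝ) ≤ δ * (Fintype.card V : ℝ))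

/-- a system of vertex-disjoint nonempty paths inside `A` with all edges coloured from `S` -/
structure PS (χ : V → V → C) (S : Finset C) (A : Finset V) (P : List (List V)) : Prop where
  ne : ∀ l ∈ P, l ≠ []
  chain : ∀ l ∈ P, l.IsChain (fun u v => χ u v ∈ S)
  nodup : P.flatten.Nodup
  sub : ∀ v ∈ P.flatten, v ∈ A

/-- good sequences: a colour outside `L` from a vertex to a later vertex does not occur between
two later vertices -/
def Good (χ : V → V → C) (L : Finset C) : List V → Prop
  | [] => True
  | v :: b => v ∉ b ∧ (∀ x ∈ b, ∀ y ∈ b, ∀ z ∈ b, y ≠ z → χ v x ∉ L → χ v x ≠ χ y z) ∧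
      Good χ L b

/-- `u` and `u'` have at least `β n` common neighbours inside `R` in the colours of `S` -/
def Linked (χ : V → V → C) (S : Finset C) (R : Finset V) (β : ℝ) (u u' : V) : Prop :=
  β * (Fintype.card V : ℝ) ≤
    ((R.filter (fun w => w ≠ u ∧ w ≠ u' ∧ χ u w ∈ S ∧ χ u' w ∈ S)).card : ℝ)

/-- slopes of the potential function, `q = 2 N + 2` -/
def dd (N : ℕ) (i : ℕ) : ℝ := max 0 (1 - ((2 * N + 1 : ℝ) - i) / N)

/-- the potential function of a state with `j` paths, `q = 2 N + 2` -/
def gg (N : ℕ) (j : ℕ) : ℝ := ∑ i ∈ Finset.Ico j (2 * N + 2), dd N i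

/-- a path `l` is hit by the vertex `v` -/
def Hit (χ : V → V → C) (S : Finset C) (v : V) (l : List V) : Prop :=
  ∃ x ∈ l.head?, χ v x ∈ S

/-- number of paths hit by `v` -/
def hits (χ : V → V → C) (S : Finset C) (v : V) (P : List (List V)) : ℕ :=
  (P.filter (fun l => decide (Hit χ S v l))).length

/-- mixing two labellings: `ω` on `K`, `ρ` off `K` -/
def comb {M : ℕ} (K : Finset C) (ω ρ : C → Fin M) : C → Fin M :=
  fun c => if c ∈ K then ω c else ρ c

end

end PF61
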