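import Pool.Agent.LibPF61.Problem

namespace PF61

/-- a vertex cover of a walk has at least half as many vertices as the walk has edges -/
theorem t30_cover {n : ℕ} (W : Finset (Fin n)) {u v : Fin n}
    (p : (⊤ : SimpleGraph (Fin n)).Walk u v)
    (h : ∀ e ∈ p.edges, ∃ w ∈ W, w ∈ e) :
    p.length ≤ 2 * (p.support.filter (fun w => decide (w ∈ W))).length ∧
      (u ∈ W → p.length + 1 ≤ 2 * (p.support.filter (fun w => decide (w ∈ W))).length) := by
  induction p with
  | nil =>
    refine ⟨by simp, fun hu => ?_⟩
    simp [hu]
  | @cons u v w hadj p ih =>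
    have ih' := ih (fun e he => h e (by rw [SimpleGraph.Walk.edges_cons]; exact List.mem_cons_of_mem _ he))
    rw [SimpleGraph.Walk.support_cons, SimpleGraph.Walk.length_cons]
    by_cases hu : u ∈ W
    · rw [List.filter_cons_of_pos (by simp [hu]), List.length_cons]
      constructor
      · have := ih'.1; omega
      · intro _
        have := ih'.1; omega
    · rw [List.filter_cons_of_neg (by simp [hu])]
      obtain ⟨w', hw', hwe⟩ := h s(u, v) (by rw [SimpleGraph.Walk.edges_cons]; exact List.mem_cons_self)
      rw [Sym2.mem_iff] at hwe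
      rcases hwe with rfl | rfl
      · exact absurd hw' hu
      · have := ih'.2 hw'
        exact ⟨by omega, fun hcon => absurd hcon hu⟩

/-- lower bound: colour `{i, j}` with `i < j` by `i / x`, `x = ⌈n / t⌉ = (n + t - 1) / t`.  The set
of the `≤ s x` vertices whose own colour is used by the path meets every edge of the path; the
`⌊ℓ/2⌋` disjoint edges number `0, 2, 4, ...` of the path give `⌊ℓ/2⌋ ≤ s x ≤ s (n / t + 1)`. -/
theorem forces_lower (t s ℓ n : ℕ) (ht : 1 ≤ t) (hs : 1 ≤ s) (h : Forces t s ℓ n) :
    (t : ℝ) * ((ℓ : ℝ) - 1 - 2 * s) ≤ 2 * s * n ∧ ℓ ≤ n := by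
  set x : ℕ := (n + t - 1) / t with hx
  have hdm := Nat.div_add_mod (n + t - 1) t
  have hmod := Nat.mod_lt (n + t - 1) (show t > 0 by omega)
  rw [← hx] at hdm
  have hx1 : n ≤ x * t := by
    rw [Nat.mul_comm]; omega
  have hx2 : x * t ≤ n + t := by
    rw [Nat.mul_comm]; omega
  have hlt : ∀ i j : Fin n, (min i j : Fin n).val / x < t := by
    intro i j
    apply Nat.div_lt_of_lt_mul
    have := (min i j).isLt
    omega
  obtain ⟨u, v, p, hp, hl, hc⟩ := h (Sym2.lift ⟨fun i j => ⟨(min i j : Fin n).val / x, hlt i j⟩,
    fun i j => by simp [min_comm]⟩)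
  set χ : Sym2 (Fin n) → Fin t := Sym2.lift ⟨fun i j => ⟨(min i j : Fin n).val / x, hlt i j⟩,
    fun i j => by simp [min_comm]⟩ with hχ
  have hn : 0 < n := Fin.pos u
  have hx0 : 0 < x := by
    rcases Nat.eq_zero_or_pos x with h0 | h0
    · rw [h0] at hx1; omega
    · exact h0
  set D : Finset (Fin t) := (p.edges.map χ).toFinset with hD
  set W : Finset (Fin n) := Finset.univ.filter (fun i : Fin n => ∃ c ∈ D, i.val / x = c.val) with hW
  have hcov : ∀ e ∈ p.edges, ∃ w ∈ W, w ∈ e := by
    intro e he
    induction e with
    | h i j =>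
      refine ⟨min i j, ?_, ?_⟩
      · rw [hW, Finset.mem_filter]
        refine ⟨Finset.mem_univ _, χ s(i, j), ?_, ?_⟩
        · rw [hD, List.mem_toFinset]
          exact List.mem_map_of_mem he
        · rw [hχ]
          rfl
      · rw [Sym2.mem_iff]
        rcases min_choice i j with h1 | h1
        · exact Or.inl h1
        · exact Or.inr h1
  have hcard : W.card ≤ x * s := by
    have h1 : W.card ≤ x * (W.image (fun i : Fin n => i.val / x)).card := by
      apply Finset.card_le_mul_card_image
      intro c _
      have h2 : (W.filter (fun i : Fin n => i.val / x = c)).card ≤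
          (Finset.Ico (c * x) (c * x + x)).card := by
        apply Finset.card_le_card_of_injOn (fun i : Fin n => i.val)
        · intro i hi
          have hi' := (Finset.mem_filter.1 (Finset.mem_coe.1 hi)).2
          simp only [Finset.coe_Ico, Set.mem_Ico]
          have h3 := Nat.div_add_mod i.val x
          have h4 := Nat.mod_lt i.val hx0
          rw [hi'] at h3
          rw [Nat.mul_comm c x]
          omega
        · intro i _ j _ hij
          exact Fin.ext hij
      rw [Nat.card_Ico] at h2
      omega
    have h5 : (W.image (fun i : Fin n => i.val / x)).card ≤ D.card := by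
      calc _ ≤ (D.image (fun c : Fin t => c.val)).card := by
            apply Finset.card_le_card
            intro c hcm
            obtain ⟨i, hi, rfl⟩ := Finset.mem_image.1 hcm
            obtain ⟨c', hc', hcc⟩ := (Finset.mem_filter.1 hi).2
            rw [Finset.mem_image]
            exact ⟨c', hc', hcc.symm⟩
        _ ≤ D.card := Finset.card_image_le
    calc W.card ≤ x * (W.image (fun i : Fin n => i.val / x)).card := h1
      _ ≤ x * s := Nat.mul_le_mul_left x (le_trans h5 hc)
  have hlen := (t30_cover W p hcov).1
  have hfil : (p.support.filter (fun w => decide (w ∈ W))).length ≤ W.card := by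
    have h1 : (p.support.filter (fun w => decide (w ∈ W))).Nodup := hp.support_nodup.filter _
    rw [← List.toFinset_card_of_nodup h1]
    apply Finset.card_le_card
    intro w hw
    rw [List.mem_toFinset, List.mem_filter] at hw
    simpa using hw.2
  have hfin : p.length ≤ 2 * (x * s) := by omega
  constructor
  · have h1 : t * p.length ≤ 2 * s * (n + t) := by
      calc t * p.length ≤ t * (2 * (x * s)) := Nat.mul_le_mul_left t hfin
        _ = 2 * s * (x * t) := by ring
        _ ≤ 2 * s * (n + t) := Nat.mul_le_mul_left _ hx2
    have h2 : (t : ℝ) * (p.length : ℝ) ≤ 2 * s * (n + t) := by exact_mod_cast h1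
    have h3 : (ℓ : ℝ) = p.length + 1 := by rw [← hl]; push_cast; ring
    rw [h3]
    nlinarith
  · have := hp.length_lt
    rw [Fintype.card_fin] at this
    omega

end PF61
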