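import Mathlib

namespace PF61

theorem t31_aux {n t : ℕ} (χ : Sym2 (Fin n) → Fin t) (S : Finset (Fin t)) (m : ℕ) :
    ∀ (x : Fin n) (l : List (Fin n)), (x :: l).Nodup →
      (x :: l).IsChain (fun u v => χ s(u, v) ∈ S) → m ≤ l.length →
      ∃ (v : Fin n) (p : (⊤ : SimpleGraph (Fin n)).Walk x v),
        p.IsPath ∧ p.length = m ∧ (∀ e ∈ p.edges, χ e ∈ S) ∧ ∀ z ∈ p.support, z ∈ x :: l := by
  induction m with
  | zero =>
    intro x l _ _ _
    exact ⟨x, SimpleGraph.Walk.nil, by simp, by simp, by simp, by simp⟩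
  | succ m ih =>
    intro x l hnd hch hm
    cases l with
    | nil => simp at hm
    | cons y l =>
      rw [List.nodup_cons] at hnd
      rw [List.isChain_cons_cons] at hch
      obtain ⟨v, p, hp, hlen, hedge, hsup⟩ := ih y l hnd.2 hch.2 (by simpa using hm)
      have hxy : x ≠ y := by
        intro h; subst h; exact hnd.1 (by simp)
      refine ⟨v, SimpleGraph.Walk.cons (by simpa using hxy) p, ?_, ?_, ?_, ?_⟩
      · rw [SimpleGraph.Walk.cons_isPath_iff]
        exact ⟨hp, fun h => hnd.1 (hsup x h)⟩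
      · simp [hlen]
      · intro e he
        rw [SimpleGraph.Walk.edges_cons, List.mem_cons] at he
        rcases he with rfl | he
        · exact hch.1
        · exact hedge e he
      · intro z hz
        rw [SimpleGraph.Walk.support_cons, List.mem_cons] at hz
        rcases hz with rfl | hz
        · simp
        · exact List.mem_cons_of_mem _ (hsup z hz)

/-- from a list of vertices to a walk in the complete graph (take the first `ℓ` elements;
induction on the list) -/
theorem walk_of_list {n t : ℕ} (χ : Sym2 (Fin n) → Fin t) (S : Finset (Fin t)) (l : List (Fin n))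
    (hnd : l.Nodup) (hch : l.IsChain (fun u v => χ s(u, v) ∈ S)) (ℓ : ℕ) (hℓ : 1 ≤ ℓ)
    (hl : ℓ ≤ l.length) :
    ∃ (u v : Fin n) (p : (⊤ : SimpleGraph (Fin n)).Walk u v),
      p.IsPath ∧ p.length + 1 = ℓ ∧ ∀ e ∈ p.edges, χ e ∈ S := by
  cases l with
  | nil => simp at hl; omega
  | cons x l =>
    obtain ⟨v, p, hp, hlen, hedge, _⟩ := t31_aux χ S (ℓ - 1) x l hnd hch (by
      rw [List.length_cons] at hl; omega)
    exact ⟨x, v, p, hp, by omega, hedge⟩

end PF61
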