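import Pool.Agent.LibPF61.Main
import Pool.Agent.LibPF61.T30
import Pool.Agent.LibPF61.T31

namespace PF61
open Finset

/-- for all large `n` the property holds, for one `ε ≤ 1` and `1 ≤ K` -/
theorem forces_upper (ε K : ℝ) (hε : 0 < ε) (hε1 : ε ≤ 1) (hK : 1 ≤ K) :
    ∃ N : ℕ, ∀ s t : ℕ, N ≤ s → s < t → (t : ℝ) ≤ K * s → ∀ ℓ : ℕ, N ≤ ℓ →
      ∀ n : ℕ, (1 + ε) * max 1 ((t : ℝ) / (2 * s)) * ℓ ≤ n → Forces t s ℓ n := by
  -- parameters
  set ε' : ℝ := ε / (16 * K) with hε'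
  have hε'0 : 0 < ε' := by positivity
  have hε'1 : ε' ≤ 1 / 16 := by
    rw [hε', div_le_iff₀ (by positivity)]
    nlinarith
  obtain ⟨M, hM⟩ := exists_nat_ge (2 / ε')
  have hMR : (0 : ℝ) < M := lt_of_lt_of_le (by positivity) hM
  have hMpos : 0 < M := by exact_mod_cast hMR
  have hM' : 2 ≤ ε' * M := by
    rw [div_le_iff₀ hε'0] at hM
    linarith
  -- thresholds for all a
  have hth : ∀ a : ℕ, ∃ N : ℕ, 0 < a → 2 * a ≤ M → ∀ (V C : Type) [Fintype V] [Fintype C]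
      (χ : V → V → C), (∀ u v, χ u v = χ v u) →
      N ≤ Fintype.card V → N ≤ Fintype.card C →
      ∃ S : Finset C, (S.card : ℝ) ≤ ((a : ℝ) / M + ε') * (Fintype.card C : ℝ) ∧
        ∃ l : List V, l.Nodup ∧ l.IsChain (fun u v => χ u v ∈ S) ∧
          (2 * ((a : ℝ) / M) - ε') * (Fintype.card V : ℝ) ≤ (l.length : ℝ) := by
    intro a
    by_cases h : 0 < a ∧ 2 * a ≤ M
    · obtain ⟨N, hN⟩ := upper_main ε' hε'0 (by linarith) a M h.1 h.2
      exact ⟨N, fun _ _ => hN⟩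
    · exact ⟨0, fun h1 h2 => absurd ⟨h1, h2⟩ h⟩
  choose F hF using hth
  refine ⟨(Finset.range (M + 1)).sup F + 1, ?_⟩
  intro s t hs hst htK ℓ hℓ n hn
  have hsR : (0 : ℝ) < s := by
    have : 0 < s := by omega
    exact_mod_cast this
  have htR : (0 : ℝ) < t := by
    have : 0 < t := by omega
    exact_mod_cast this
  have hℓR : (0 : ℝ) < ℓ := by
    have : 0 < ℓ := by omega
    exact_mod_cast this
  set σ : ℝ := (s : ℝ) / t with hσ
  have hσ0 : 0 < σ := by positivity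
  have hσK : 1 / K ≤ σ := by
    rw [hσ, div_le_div_iff₀ (by positivity) htR]
    linarith
  set μ : ℝ := min 1 (2 * σ) with hμ
  have hμ0 : 0 < μ := lt_min one_pos (by positivity)
  have hμ1 : μ ≤ 1 := min_le_left _ _
  have hμK : 1 / K ≤ μ := by
    refine le_min ?_ ?_
    · rw [div_le_one (by positivity)]; exact hK
    · linarith
  have hmax : max 1 ((t : ℝ) / (2 * s)) = 1 / μ := by
    rw [hμ]
    rcases le_total 1 (2 * σ) with h | h
    · rw [min_eq_left h, div_one, max_eq_left]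
      rw [div_le_one (by positivity)]
      rw [hσ, ← mul_div_assoc, le_div_iff₀ htR] at h
      linarith
    · rw [min_eq_right h, max_eq_right]
      · rw [hσ]; field_simp
      · rw [le_div_iff₀ (by positivity)]
        rw [hσ, ← mul_div_assoc, div_le_iff₀ htR] at h
        linarith
  -- the choice of a
  set τ : ℝ := μ / 2 - ε' with hτ
  have hε'μ : 16 * ε' ≤ ε * μ := by
    have h1 : 16 * ε' = ε * (1 / K) := by rw [hε']; field_simp
    rw [h1]
    gcongr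
  have hε'μ2 : 16 * ε' ≤ μ := by nlinarith
  have hτ1 : ε' ≤ τ := by rw [hτ]; linarith
  set a : ℕ := ⌊(M : ℝ) * τ⌋₊ with ha
  have ha1 : (a : ℝ) ≤ M * τ := Nat.floor_le (by nlinarith)
  have ha2 : (M : ℝ) * τ < a + 1 := Nat.lt_floor_add_one _
  have ha0 : 0 < a := by
    have h1 : (1 : ℝ) < a + 1 - 0 := by nlinarith
    have h2 : (0 : ℝ) < a := by linarith
    exact_mod_cast h2
  have haM : 2 * a ≤ M := by
    have h1 : (2 * a : ℝ) ≤ M := by
      have : τ ≤ 1 / 2 := by rw [hτ]; linarith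
      nlinarith
    exact_mod_cast h1
  have haM2 : a ≤ M := by omega
  have hFa : F a ≤ (Finset.range (M + 1)).sup F :=
    Finset.le_sup (Finset.mem_range.mpr (by omega))
  have hnℓ : ℓ ≤ n := by
    have h1 : (ℓ : ℝ) ≤ n := by
      refine le_trans ?_ hn
      have h2 : 1 ≤ max 1 ((t : ℝ) / (2 * s)) := le_max_left _ _
      have h3 : 1 ≤ (1 + ε) * max 1 ((t : ℝ) / (2 * s)) := by nlinarith
      nlinarith
    exact_mod_cast h1
  intro χ
  obtain ⟨S, hS1, l, hl1, hl2, hl3⟩ := hF a ha0 haM (Fin n) (Fin t) (fun u v => χ s(u, v))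
    (fun u v => by rw [Sym2.eq_swap]) (by rw [Fintype.card_fin]; omega)
    (by rw [Fintype.card_fin]; omega)
  rw [Fintype.card_fin] at hS1 hl3
  have hScard : S.card ≤ s := by
    have h1 : (S.card : ℝ) ≤ s := by
      refine hS1.trans ?_
      have h2 : (a : ℝ) / M ≤ τ := by
        rw [div_le_iff₀ hMR]; linarith
      have h3 : τ + ε' ≤ σ := by
        have : μ ≤ 2 * σ := min_le_right _ _
        rw [hτ]; linarith
      calc ((a : ℝ) / M + ε') * t ≤ σ * t := by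
            have : (a : ℝ) / M + ε' ≤ σ := by linarith
            gcongr
        _ = s := by rw [hσ]; field_simp
    exact_mod_cast h1
  have hlen : ℓ ≤ l.length := by
    have h1 : (ℓ : ℝ) ≤ l.length := by
      refine le_trans ?_ hl3
      have h2 : μ - 4 * ε' - ε' ≤ 2 * ((a : ℝ) / M) - ε' := by
        have h3 : τ - ε' ≤ (a : ℝ) / M := by
          rw [le_div_iff₀ hMR]
          nlinarith
        rw [hτ] at h3
        linarith
      have h4 : (μ - 5 * ε') * n ≤ (2 * ((a : ℝ) / M) - ε') * n := by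
        have : μ - 5 * ε' ≤ 2 * ((a : ℝ) / M) - ε' := by linarith
        gcongr
      refine le_trans ?_ h4
      rw [hmax] at hn
      have h5 : (μ - 5 * ε') * ((1 + ε) * (1 / μ) * ℓ) ≤ (μ - 5 * ε') * n := by
        have : 0 ≤ μ - 5 * ε' := by linarith
        gcongr
      refine le_trans ?_ h5
      have h6 : (μ - 5 * ε') * ((1 + ε) * (1 / μ) * ℓ) =
        ((μ - 5 * ε') * (1 + ε) / μ) * ℓ := by ring
      rw [h6]
      have h7 : 1 ≤ (μ - 5 * ε') * (1 + ε) / μ := by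
        rw [le_div_iff₀ hμ0]
        nlinarith
      nlinarith
    exact_mod_cast h1
  obtain ⟨u, v, p, hp1, hp2, hp3⟩ := walk_of_list χ S l hl1 hl2 ℓ (by omega) hlen
  refine ⟨u, v, p, hp1, hp2, ?_⟩
  refine (Finset.card_le_card ?_).trans hScard
  intro c hc
  rw [List.mem_toFinset, List.mem_map] at hc
  obtain ⟨e, he, rfl⟩ := hc
  exact hp3 e he

theorem main_theorem (ε K : ℝ) (hε : 0 < ε) :
    ∃ N : ℕ, ∀ s t : ℕ, N ≤ s → s < t → (t : ℝ) ≤ K * s → ∀ ℓ : ℕ, N ≤ ℓ →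
      ∃ R : ℕ, IsLeast {n : ℕ | Forces t s ℓ n} R ∧
        (R : ℝ) ≤ (1 + ε) * max 1 ((t : ℝ) / (2 * s)) * ℓ ∧
        (N * s ≤ ℓ → (1 - ε) * max 1 ((t : ℝ) / (2 * s)) * ℓ ≤ (R : ℝ)) := by
  set ε1 : ℝ := min ε 1 with hε1
  have h10 : 0 < ε1 := lt_min hε one_pos
  have h11 : ε1 ≤ 1 := min_le_right _ _
  have h1ε : ε1 ≤ ε := min_le_left _ _
  obtain ⟨N0, hN0⟩ := forces_upper (ε1 / 2) (max 1 K) (by positivity) (by linarith)
    (le_max_left _ _)
  obtain ⟨N1, hN1⟩ := exists_nat_ge (4 / ε1)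
  refine ⟨N0 + N1 + 1, ?_⟩
  intro s t hs hst htK ℓ hℓ
  have hsR : (1 : ℝ) ≤ s := by
    have : 1 ≤ s := by omega
    exact_mod_cast this
  have htR : (0 : ℝ) < t := by
    have : 0 < t := by omega
    exact_mod_cast this
  have hℓR : (N1 : ℝ) ≤ ℓ := by exact_mod_cast (by omega : N1 ≤ ℓ)
  have hN1' : 4 ≤ ε1 * N1 := by
    rw [div_le_iff₀ h10] at hN1
    linarith
  have hN1R : (0 : ℝ) ≤ N1 := by positivity
  set mx : ℝ := max 1 ((t : ℝ) / (2 * s)) with hmx
  have hmx1 : 1 ≤ mx := le_max_left _ _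
  have hℓ0 : (0 : ℝ) ≤ ℓ := by positivity
  set n : ℕ := ⌊(1 + ε1) * mx * ℓ⌋₊ with hn
  have hn1 : (n : ℝ) ≤ (1 + ε1) * mx * ℓ := Nat.floor_le (by positivity)
  have hn2 : (1 + ε1) * mx * ℓ < n + 1 := Nat.lt_floor_add_one _
  have hfn : Forces t s ℓ n := by
    refine hN0 s t (by omega) hst ?_ ℓ (by omega) n ?_
    · refine htK.trans ?_
      have : K ≤ max 1 K := le_max_right _ _
      gcongr
    · have h2 : 1 ≤ ε1 / 2 * mx * ℓ := by
        have h3 : 4 ≤ ε1 * ℓ := by nlinarith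
        nlinarith
      have : (1 + ε1) * mx * ℓ = (1 + ε1 / 2) * mx * ℓ + ε1 / 2 * mx * ℓ := by ring
      linarith
  classical
  have hne : ∃ n, Forces t s ℓ n := ⟨n, hfn⟩
  refine ⟨Nat.find hne, ⟨Nat.find_spec hne, fun m hm => Nat.find_min' hne hm⟩, ?_, ?_⟩
  · have h1 : (Nat.find hne : ℝ) ≤ n := by exact_mod_cast Nat.find_min' hne hfn
    refine (h1.trans hn1).trans ?_
    gcongr
  · intro hNs
    obtain ⟨h1, h2⟩ := forces_lower t s ℓ (Nat.find hne) (by omega) (by omega) (Nat.find_spec hne)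
    have h2R : (ℓ : ℝ) ≤ (Nat.find hne : ℝ) := by exact_mod_cast h2
    have hN1s : (N1 : ℝ) * s ≤ ℓ := by
      have : N1 * s ≤ ℓ := le_trans (Nat.mul_le_mul_right s (by omega)) hNs
      exact_mod_cast this
    have h3 : (1 - ε) * mx * ℓ ≤ (1 - ε1) * mx * ℓ := by gcongr
    refine h3.trans ?_
    rw [hmx]
    rcases le_total ((t : ℝ) / (2 * s)) 1 with h | h
    · rw [max_eq_left h]
      nlinarith
    · rw [max_eq_right h]
      have h4 : 2 * (s : ℝ) + 1 ≤ ε1 * ℓ := by nlinarith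
      have h5 : (t : ℝ) * ((1 - ε1) * ℓ) ≤ t * ((ℓ : ℝ) - 1 - 2 * s) := by
        have : (1 - ε1) * ℓ ≤ (ℓ : ℝ) - 1 - 2 * s := by linarith
        gcongr
      have h6 : (1 - ε1) * ((t : ℝ) / (2 * s)) * ℓ = (t * ((1 - ε1) * ℓ)) / (2 * s) := by ring
      rw [h6, div_le_iff₀ (by positivity)]
      linarith

end PF61
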