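import Pool.Agent.LibPF61.Defs

namespace PF61
open Finset
open scoped Classical

variable {C : Type} [Fintype C]

theorem comb_comb {M : ℕ} (K : Finset C) (ω ρ : C → Fin M) :
    comb K (comb K ω ρ) (comb K ρ ω) = ω := by
  funext c
  unfold comb
  by_cases h : c ∈ K
  · simp only [if_pos h]
  · simp only [if_neg h]

/-- resampling: the map `(ω, ρ) ↦ (comb K ω ρ, comb K ρ ω)` is an involution -/
theorem sum_comb {M : ℕ} (K : Finset C) (F : (C → Fin M) → (C → Fin M) → ℝ) :
    ∑ ω : C → Fin M, ∑ ρ : C → Fin M, F ω ρ =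
      ∑ ω : C → Fin M, ∑ ρ : C → Fin M, F (comb K ω ρ) (comb K ρ ω) := by
  have h1 := Fintype.sum_prod_type' (f := F)
  have h2 := Fintype.sum_prod_type'
    (f := fun (ω ρ : C → Fin M) => F (comb K ω ρ) (comb K ρ ω))
  rw [← h1, ← h2]
  have hinv : Function.Involutive
      (fun q : (C → Fin M) × (C → Fin M) => (comb K q.1 q.2, comb K q.2 q.1)) := by
    intro q
    exact Prod.ext (comb_comb K q.1 q.2) (comb_comb K q.2 q.1)
  exact (Equiv.sum_comp (hinv.toPerm) (fun q : (C → Fin M) × (C → Fin M) => F q.1 q.2)).symm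

/-- events depending on disjoint sets of coordinates are independent.  The map of `sum_comb` is a
bijection from `{(ω, ρ) | A ω ∧ B ω}` to `{(ω, ρ) | A ω ∧ B ρ}`. -/
theorem indep {M : ℕ} (K : Finset C) (A B : (C → Fin M) → Prop)
    (hA : ∀ ω ω' : C → Fin M, (∀ c ∈ K, ω c = ω' c) → (A ω ↔ A ω'))
    (hB : ∀ ω ω' : C → Fin M, (∀ c, c ∉ K → ω c = ω' c) → (B ω ↔ B ω')) :
    (univ.filter (fun ω => A ω ∧ B ω)).card * Fintype.card (C → Fin M) =
      (univ.filter (fun ω => A ω)).card * (univ.filter (fun ω => B ω)).card := by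
  have h := sum_comb K (fun ω ρ : C → Fin M =>
    (if A ω then (1 : ℝ) else 0) * (if B ρ then (1 : ℝ) else 0))
  have hA' : ∀ ω ρ : C → Fin M, A (comb K ω ρ) ↔ A ω := fun ω ρ =>
    hA _ _ fun c hc => by unfold comb; rw [if_pos hc]
  have hB' : ∀ ω ρ : C → Fin M, B (comb K ρ ω) ↔ B ω := fun ω ρ =>
    hB _ _ fun c hc => by unfold comb; rw [if_neg hc]
  have h1 : ∑ ω : C → Fin M, ∑ ρ : C → Fin M,
      (if A ω then (1 : ℝ) else 0) * (if B ρ then (1 : ℝ) else 0) =
      ((univ.filter (fun ω : C → Fin M => A ω)).card : ℝ) *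
        ((univ.filter (fun ω : C → Fin M => B ω)).card : ℝ) := by
    rw [← Finset.sum_mul_sum, Finset.card_filter, Finset.card_filter]
    push_cast
    rfl
  have h2 : ∑ ω : C → Fin M, ∑ ρ : C → Fin M,
      (if A (comb K ω ρ) then (1 : ℝ) else 0) * (if B (comb K ρ ω) then (1 : ℝ) else 0) =
      ((univ.filter (fun ω : C → Fin M => A ω ∧ B ω)).card : ℝ) *
        (Fintype.card (C → Fin M) : ℝ) := by
    have : ∀ ω ρ : C → Fin M,
        (if A (comb K ω ρ) then (1 : ℝ) else 0) * (if B (comb K ρ ω) then (1 : ℝ) else 0) =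
        (if A ω ∧ B ω then (1 : ℝ) else 0) := by
      intro ω ρ
      by_cases ha : A ω <;> by_cases hb : B ω <;> simp [hA', hB', ha, hb]
    simp only [this, Finset.sum_const, Finset.card_univ, nsmul_eq_mul]
    rw [← Finset.mul_sum, mul_comm, Finset.card_filter]
    push_cast
    rfl
  have h3 := h1.symm.trans (h.trans h2)
  exact_mod_cast h3.symm

end PF61
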