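import Pool.Agent.LibPF61.Defs

namespace PF61
open Finset
open scoped Classical

variable {C : Type} [Fintype C]

theorem t05_card_lt {M : ℕ} (a : ℕ) (haM : a ≤ M) :
    (univ.filter (fun x : Fin M => (x : ℕ) < a)).card = a := by
  have h : (univ.filter (fun x : Fin M => (x : ℕ) < a)).card =
      ((univ.filter (fun x : Fin M => (x : ℕ) < a)).map Fin.valEmbedding).card := by
    rw [Finset.card_map]
  rw [h]
  have h2 : (univ.filter (fun x : Fin M => (x : ℕ) < a)).map Fin.valEmbedding =
      Finset.range a := by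
    ext y
    simp only [Finset.mem_map, Finset.mem_filter, Finset.mem_univ, true_and,
      Fin.valEmbedding_apply, Finset.mem_range]
    constructor
    · rintro ⟨x, hx, rfl⟩
      exact hx
    · intro hy
      exact ⟨⟨y, lt_of_lt_of_le hy haM⟩, hy, rfl⟩
  rw [h2, Finset.card_range]

theorem t05_gen {M : ℕ} (a : ℕ) (haM : a ≤ M) (T : Finset C) :
    (univ.filter (fun ω : C → Fin M => ∀ c ∈ T, (ω c : ℕ) < a)).card * M ^ T.card =
      a ^ T.card * Fintype.card (C → Fin M) := by
  have h1 : univ.filter (fun ω : C → Fin M => ∀ c ∈ T, (ω c : ℕ) < a) =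
      Fintype.piFinset (fun c : C => if c ∈ T then
        univ.filter (fun x : Fin M => (x : ℕ) < a) else univ) := by
    ext ω
    simp only [Finset.mem_filter, Finset.mem_univ, true_and, Fintype.mem_piFinset]
    refine forall_congr' fun c => ?_
    by_cases hc : c ∈ T <;> simp [hc]
  rw [h1, Fintype.card_piFinset]
  have h2 : ∀ c : C, (if c ∈ T then univ.filter (fun x : Fin M => (x : ℕ) < a) else univ).card =
      if c ∈ T then a else M := by
    intro c
    by_cases hc : c ∈ T
    · rw [if_pos hc, if_pos hc, t05_card_lt a haM]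
    · rw [if_neg hc, if_neg hc, Finset.card_univ, Fintype.card_fin]
  have h3 : M ^ T.card = ∏ c : C, if c ∈ T then M else 1 := by
    rw [Finset.prod_ite_mem, Finset.univ_inter, Finset.prod_const]
  have h4 : a ^ T.card = ∏ c : C, if c ∈ T then a else 1 := by
    rw [Finset.prod_ite_mem, Finset.univ_inter, Finset.prod_const]
  have h5 : Fintype.card (C → Fin M) = ∏ _c : C, M := by
    rw [Fintype.card_fun, Fintype.card_fin, Finset.prod_const, Finset.card_univ]
  rw [h3, h4, h5, ← Finset.prod_mul_distrib, ← Finset.prod_mul_distrib]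
  refine Finset.prod_congr rfl fun c _ => ?_
  rw [h2]
  by_cases hc : c ∈ T
  · simp only [if_pos hc]
  · simp only [if_neg hc]; ring

theorem prob_one {M : ℕ} (a : ℕ) (haM : a ≤ M) (c : C) :
    (univ.filter (fun ω : C → Fin M => (ω c : ℕ) < a)).card * M =
      a * Fintype.card (C → Fin M) := by
  have h := t05_gen (C := C) a haM {c}
  rw [Finset.card_singleton, pow_one, pow_one] at h
  rw [← h]
  congr 2
  ext ω
  simp

theorem prob_two {M : ℕ} (a : ℕ) (haM : a ≤ M) (c c' : C) (h : c ≠ c') :
    (univ.filter (fun ω : C → Fin M => (ω c : ℕ) < a ∧ (ω c' : ℕ) < a)).card * M ^ 2 =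
      a ^ 2 * Fintype.card (C → Fin M) := by
  have h' := t05_gen (C := C) a haM {c, c'}
  rw [Finset.card_pair h] at h'
  rw [← h']
  congr 2
  ext ω
  simp

end PF61
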