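import Pool.Agent.LibPF61.T02
import Pool.Agent.LibPF61.T04
import Pool.Agent.LibPF61.T05

namespace PF61
open Finset
open scoped Classical

/-- the event that the vertex is reserved -/
def t07_E {V : Type} (m : ℕ) (v : V) (ω : V → Fin m) : Prop := (ω v : ℕ) < 1

theorem t07_one {V : Type} [Fintype V] (m : ℕ) (hm : 1 ≤ m) (v : V) :
    (univ.filter (fun ω : V → Fin m => t07_E m v ω)).card * m = Fintype.card (V → Fin m) := by
  have h := prob_one (C := V) (M := m) 1 hm v
  rw [one_mul] at h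
  rw [← h]
  congr 1
  exact congrArg Finset.card (Finset.ext fun ω => by
    rw [Finset.mem_filter, Finset.mem_filter]; rfl)

theorem t07_two {V : Type} [Fintype V] (m : ℕ) (hm : 1 ≤ m) (v v' : V) (hne : v ≠ v') :
    (univ.filter (fun ω : V → Fin m => t07_E m v ω ∧ t07_E m v' ω)).card * m ^ 2 =
      Fintype.card (V → Fin m) := by
  have h := prob_two (C := V) (M := m) 1 hm v v' hne
  rw [one_pow, one_mul] at h
  rw [← h]
  congr 1
  exact congrArg Finset.card (Finset.ext fun ω => by
    rw [Finset.mem_filter, Finset.mem_filter]; rfl)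

theorem t07_dep {V : Type} [Fintype V] (m : ℕ) (hm : 1 ≤ m) (D : Finset V) :
    ∀ i ∈ D, ((D.filter (fun j =>
      ((univ.filter (fun ω : V → Fin m => t07_E m i ω)).card : ℝ) *
        ((univ.filter (fun ω : V → Fin m => t07_E m j ω)).card : ℝ) <
      ((univ.filter (fun ω : V → Fin m => t07_E m i ω ∧ t07_E m j ω)).card : ℝ) *
        (Fintype.card (V → Fin m) : ℝ))).card : ℝ) ≤ 1 := by
  intro i _
  have key : ∀ j : V, ((univ.filter (fun ω : V → Fin m => t07_E m i ω)).card : ℝ) *
        ((univ.filter (fun ω : V → Fin m => t07_E m j ω)).card : ℝ) <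
      ((univ.filter (fun ω : V → Fin m => t07_E m i ω ∧ t07_E m j ω)).card : ℝ) *
        (Fintype.card (V → Fin m) : ℝ) → j = i := by
    intro j hj
    by_contra hne
    have h1 := t07_one m hm i
    have h2 := t07_one m hm j
    have h3 := t07_two m hm i j (fun h => hne h.symm)
    have hm' : (0 : ℝ) < m := by exact_mod_cast hm
    have h1' : ((univ.filter (fun ω : V → Fin m => t07_E m i ω)).card : ℝ) * m =
      Fintype.card (V → Fin m) := by exact_mod_cast h1
    have h2' : ((univ.filter (fun ω : V → Fin m => t07_E m j ω)).card : ℝ) * m =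
      Fintype.card (V → Fin m) := by exact_mod_cast h2
    have h3' : ((univ.filter (fun ω : V → Fin m => t07_E m i ω ∧ t07_E m j ω)).card : ℝ) * m ^ 2 =
      Fintype.card (V → Fin m) := by exact_mod_cast h3
    have h4 := mul_lt_mul_of_pos_right hj (by positivity : (0 : ℝ) < (m : ℝ) ^ 2)
    have h5 : ((univ.filter (fun ω : V → Fin m => t07_E m i ω)).card : ℝ) *
        ((univ.filter (fun ω : V → Fin m => t07_E m j ω)).card : ℝ) * (m : ℝ) ^ 2 =
        ((univ.filter (fun ω : V → Fin m => t07_E m i ω ∧ t07_E m j ω)).card : ℝ) *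
        (Fintype.card (V → Fin m) : ℝ) * (m : ℝ) ^ 2 := by
      calc _ = (((univ.filter (fun ω : V → Fin m => t07_E m i ω)).card : ℝ) * m) *
          (((univ.filter (fun ω : V → Fin m => t07_E m j ω)).card : ℝ) * m) := by ring
        _ = (Fintype.card (V → Fin m) : ℝ) * (Fintype.card (V → Fin m) : ℝ) := by rw [h1', h2']
        _ = (((univ.filter (fun ω : V → Fin m => t07_E m i ω ∧ t07_E m j ω)).card : ℝ) * m ^ 2) *
          (Fintype.card (V → Fin m) : ℝ) := by rw [h3']
        _ = _ := by ring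
    exact absurd h5 h4.ne
  have h : (D.filter (fun j =>
      ((univ.filter (fun ω : V → Fin m => t07_E m i ω)).card : ℝ) *
        ((univ.filter (fun ω : V → Fin m => t07_E m j ω)).card : ℝ) <
      ((univ.filter (fun ω : V → Fin m => t07_E m i ω ∧ t07_E m j ω)).card : ℝ) *
        (Fintype.card (V → Fin m) : ℝ))).card ≤ 1 := by
    rw [Finset.card_le_one]
    intro a ha b hb
    rw [Finset.mem_filter] at ha hb
    rw [key a ha.2, key b hb.2]
  exact_mod_cast h

/-- lower tail for `D` -/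
theorem t07_low {V : Type} [Fintype V] (m : ℕ) (hm : 1 ≤ m) (D : Finset V) :
    ((univ.filter (fun ω : V → Fin m =>
        ((D.filter (fun i => t07_E m i ω)).card : ℝ) < (D.card : ℝ) / (2 * m))).card : ℝ) *
      (D.card : ℝ) ≤ 4 * (m : ℝ) ^ 2 * (Fintype.card (V → Fin m) : ℝ) := by
  have : Nonempty (V → Fin m) := ⟨fun _ => ⟨0, hm⟩⟩
  have hm' : (0 : ℝ) < m := by exact_mod_cast hm
  have h := cheb_low (Ω := V → Fin m) D (t07_E m) 1 (1 / (m : ℝ)) (by positivity) zero_le_one
    (t07_dep m hm D) (by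
      intro i _
      have h1 : ((univ.filter (fun ω : V → Fin m => t07_E m i ω)).card : ℝ) * m =
        Fintype.card (V → Fin m) := by exact_mod_cast t07_one m hm i
      rw [← h1]
      have : 1 / (m : ℝ) * (((univ.filter (fun ω : V → Fin m => t07_E m i ω)).card : ℝ) * m) =
        ((univ.filter (fun ω : V → Fin m => t07_E m i ω)).card : ℝ) := by
        field_simp
      rw [this])
  have h2 : 1 / (m : ℝ) * (D.card : ℝ) / 2 = (D.card : ℝ) / (2 * m) := by
    field_simp
  rw [h2] at h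
  have hg : ∀ X Y : ℝ, X * Y = X * ((1 / (m : ℝ)) ^ 2 * Y) * (m : ℝ) ^ 2 := by
    intro X Y
    field_simp
  have h3 := mul_le_mul_of_nonneg_right h (by positivity : (0 : ℝ) ≤ (m : ℝ) ^ 2)
  calc _ = ((univ.filter (fun ω : V → Fin m =>
        ((D.filter (fun i => t07_E m i ω)).card : ℝ) < (D.card : ℝ) / (2 * m))).card : ℝ) *
        ((1 / (m : ℝ)) ^ 2 * (D.card : ℝ)) * (m : ℝ) ^ 2 := hg _ _
    _ ≤ _ := h3
    _ = _ := by ring

/-- upper tail for the whole set -/
theorem t07_up {V : Type} [Fintype V] (m : ℕ) (hm : 1 ≤ m) (hV : 0 < Fintype.card V) :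
    ((univ.filter (fun ω : V → Fin m => 2 * (Fintype.card V : ℝ) / m ≤
        (((univ : Finset V).filter (fun i => t07_E m i ω)).card : ℝ))).card : ℝ) *
      (Fintype.card V : ℝ) ≤ (m : ℝ) ^ 2 * (Fintype.card (V → Fin m) : ℝ) := by
  have : Nonempty (V → Fin m) := ⟨fun _ => ⟨0, hm⟩⟩
  have hm' : (0 : ℝ) < m := by exact_mod_cast hm
  have hn : (0 : ℝ) < (Fintype.card V : ℝ) := by exact_mod_cast hV
  have h := cheb_up (Ω := V → Fin m) (univ : Finset V) (t07_E m) 1 (1 / (m : ℝ))
    ((Fintype.card V : ℝ) / m) (by positivity)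
    (t07_dep m hm univ) (by
      intro i _
      have h1 : ((univ.filter (fun ω : V → Fin m => t07_E m i ω)).card : ℝ) * m =
        Fintype.card (V → Fin m) := by exact_mod_cast t07_one m hm i
      rw [← h1]
      have : 1 / (m : ℝ) * (((univ.filter (fun ω : V → Fin m => t07_E m i ω)).card : ℝ) * m) =
        ((univ.filter (fun ω : V → Fin m => t07_E m i ω)).card : ℝ) := by
        field_simp
      rw [this])
  have h2 : 1 / (m : ℝ) * ((univ : Finset V).card : ℝ) + (Fintype.card V : ℝ) / m =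
        2 * (Fintype.card V : ℝ) / m := by
    rw [Finset.card_univ]
    ring
  rw [h2] at h
  rw [Finset.card_univ] at h
  have hg : ∀ X Y : ℝ, X * Y * Y = X * (Y / m) ^ 2 * (m : ℝ) ^ 2 := by
    intro X Y
    field_simp
  have h3 := mul_le_mul_of_nonneg_right h (by positivity : (0 : ℝ) ≤ (m : ℝ) ^ 2)
  refine le_of_mul_le_mul_right ?_ hn
  calc _ = ((univ.filter (fun ω : V → Fin m => 2 * (Fintype.card V : ℝ) / m ≤
        (((univ : Finset V).filter (fun i => t07_E m i ω)).card : ℝ))).card : ℝ) *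
        ((Fintype.card V : ℝ) / m) ^ 2 * (m : ℝ) ^ 2 := hg _ _
    _ ≤ _ := h3
    _ = _ := by ring

/-- a reserved set `R`: random, `R = {v | f v = 0}` for `f : V → Fin m`.  `cheb_low` with `Δ = 1`,
`π = 1/m` for the pairs and for the lower bound on `|R|`, Markov's inequality for the upper
bound and for the number of bad pairs. -/
theorem exists_res (m : ℕ) (hm : 1 ≤ m) (η ξ : ℝ) (hη : 0 < η) (hξ : 0 < ξ) :
    ∃ n0 : ℕ, ∀ (V : Type) [Fintype V], n0 ≤ Fintype.card V → ∀ D : V → V → Finset V,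
      ∃ R : Finset V, (R.card : ℝ) ≤ 2 * (Fintype.card V : ℝ) / m ∧
        (Fintype.card V : ℝ) / (2 * m) ≤ (R.card : ℝ) ∧
        (((univ : Finset (V × V)).filter (fun p =>
          η * (Fintype.card V : ℝ) ≤ ((D p.1 p.2).card : ℝ) ∧
          ((D p.1 p.2 ∩ R).card : ℝ) < η * (Fintype.card V : ℝ) / (2 * m))).card : ℝ)
          ≤ ξ * (Fintype.card V : ℝ) ^ 2 := by
  have hm' : (0 : ℝ) < m := by exact_mod_cast hm
  refine ⟨Nat.ceil ((m : ℝ) ^ 2 * (5 + 4 / (η * ξ))) + 1, ?_⟩
  intro V _ hn0 D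
  have hn1 : (m : ℝ) ^ 2 * (5 + 4 / (η * ξ)) < (Fintype.card V : ℝ) := by
    have h1 := Nat.le_ceil ((m : ℝ) ^ 2 * (5 + 4 / (η * ξ)))
    have h2 : ((Nat.ceil ((m : ℝ) ^ 2 * (5 + 4 / (η * ξ))) + 1 : ℕ) : ℝ) ≤ (Fintype.card V : ℝ) := by
      exact_mod_cast hn0
    push_cast at h2
    linarith
  have hVpos : 0 < Fintype.card V := by omega
  have hn : (0 : ℝ) < (Fintype.card V : ℝ) := by exact_mod_cast hVpos
  have : Nonempty (V → Fin m) := ⟨fun _ => ⟨0, hm⟩⟩
  have hΩ : (0 : ℝ) < (Fintype.card (V → Fin m) : ℝ) := by exact_mod_cast Fintype.card_pos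
  set n : ℝ := (Fintype.card V : ℝ) with hndef
  set N : ℝ := (Fintype.card (V → Fin m) : ℝ) with hNdef
  let RR : (V → Fin m) → Finset V := fun ω => univ.filter (fun i => t07_E m i ω)
  let Bad : (V → Fin m) → V × V → Prop := fun ω p =>
    η * n ≤ ((D p.1 p.2).card : ℝ) ∧ ((D p.1 p.2 ∩ RR ω).card : ℝ) < η * n / (2 * m)
  let A1 : Finset (V → Fin m) := univ.filter (fun ω => ((RR ω).card : ℝ) < n / (2 * m))
  let A2 : Finset (V → Fin m) := univ.filter (fun ω => 2 * n / m ≤ ((RR ω).card : ℝ))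
  let A3 : Finset (V → Fin m) := univ.filter (fun ω =>
    ξ * n ^ 2 < (((univ : Finset (V × V)).filter (fun p => Bad ω p)).card : ℝ))
  have b1 : (A1.card : ℝ) * n ≤ 4 * (m : ℝ) ^ 2 * N := by
    have h := t07_low m hm (univ : Finset V)
    rw [Finset.card_univ] at h
    exact h
  have b2 : (A2.card : ℝ) * n ≤ (m : ℝ) ^ 2 * N := t07_up m hm hVpos
  have bpair : ∀ p : V × V, ((univ.filter (fun ω : V → Fin m => Bad ω p)).card : ℝ) * (η * n) ≤
      4 * (m : ℝ) ^ 2 * N := by
    intro p
    by_cases hp : η * n ≤ ((D p.1 p.2).card : ℝ)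
    · have h := t07_low m hm (D p.1 p.2)
      have hsub : (univ.filter (fun ω : V → Fin m => Bad ω p)) ⊆
          (univ.filter (fun ω : V → Fin m =>
            (((D p.1 p.2).filter (fun i => t07_E m i ω)).card : ℝ) <
              ((D p.1 p.2).card : ℝ) / (2 * m))) := by
        intro ω hω
        rw [Finset.mem_filter] at hω ⊢
        refine ⟨hω.1, ?_⟩
        have h1 : (D p.1 p.2).filter (fun i => t07_E m i ω) = D p.1 p.2 ∩ RR ω := by
          ext v
          simp only [RR, Finset.mem_filter, Finset.mem_inter, Finset.mem_univ, true_and]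
        rw [h1]
        refine hω.2.2.trans_le ?_
        exact div_le_div_of_nonneg_right hp (by positivity)
      have hcard : ((univ.filter (fun ω : V → Fin m => Bad ω p)).card : ℝ) ≤
          ((univ.filter (fun ω : V → Fin m =>
            (((D p.1 p.2).filter (fun i => t07_E m i ω)).card : ℝ) <
              ((D p.1 p.2).card : ℝ) / (2 * m))).card : ℝ) := by
        exact_mod_cast Finset.card_le_card hsub
      exact (mul_le_mul hcard hp (by positivity) (by positivity)).trans h
    · have h0 : (univ.filter (fun ω : V → Fin m => Bad ω p)) = ∅ := by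
        rw [Finset.filter_eq_empty_iff]
        intro ω _ hω
        exact hp hω.1
      rw [h0, Finset.card_empty, Nat.cast_zero, zero_mul]
      positivity
  have hdc : ∑ ω : V → Fin m, (((univ : Finset (V × V)).filter (fun p => Bad ω p)).card : ℝ) =
      ∑ p : V × V, ((univ.filter (fun ω : V → Fin m => Bad ω p)).card : ℝ) := by
    have h1 : ∀ ω : V → Fin m, (((univ : Finset (V × V)).filter (fun p => Bad ω p)).card : ℝ) =
        ∑ p : V × V, if Bad ω p then (1 : ℝ) else 0 := by
      intro ω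
      rw [Finset.card_filter]
      push_cast
      rfl
    have h2 : ∀ p : V × V, ((univ.filter (fun ω : V → Fin m => Bad ω p)).card : ℝ) =
        ∑ ω : V → Fin m, if Bad ω p then (1 : ℝ) else 0 := by
      intro p
      rw [Finset.card_filter]
      push_cast
      rfl
    rw [Finset.sum_congr rfl (fun ω _ => h1 ω), Finset.sum_congr rfl (fun p _ => h2 p),
      Finset.sum_comm]
  have hA3sum : (A3.card : ℝ) * (ξ * n ^ 2) ≤
      ∑ ω : V → Fin m, (((univ : Finset (V × V)).filter (fun p => Bad ω p)).card : ℝ) := by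
    calc (A3.card : ℝ) * (ξ * n ^ 2) = ∑ _ω ∈ A3, ξ * n ^ 2 := by
          rw [Finset.sum_const, nsmul_eq_mul]
      _ ≤ ∑ ω ∈ A3, (((univ : Finset (V × V)).filter (fun p => Bad ω p)).card : ℝ) := by
          refine Finset.sum_le_sum fun ω hω => ?_
          exact (Finset.mem_filter.1 hω).2.le
      _ ≤ _ := Finset.sum_le_sum_of_subset_of_nonneg (Finset.subset_univ _)
          (fun _ _ _ => by positivity)
  have b3 : (A3.card : ℝ) * n ≤ 4 / (η * ξ) * (m : ℝ) ^ 2 * N := by
    have h1 : (A3.card : ℝ) * (ξ * n ^ 2) * (η * n) ≤ n ^ 2 * (4 * (m : ℝ) ^ 2 * N) := by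
      calc (A3.card : ℝ) * (ξ * n ^ 2) * (η * n) ≤
          (∑ p : V × V, ((univ.filter (fun ω : V → Fin m => Bad ω p)).card : ℝ)) * (η * n) := by
            rw [← hdc]
            exact mul_le_mul_of_nonneg_right hA3sum (by positivity)
        _ = ∑ p : V × V, ((univ.filter (fun ω : V → Fin m => Bad ω p)).card : ℝ) * (η * n) := by
            rw [Finset.sum_mul]
        _ ≤ ∑ _p : V × V, 4 * (m : ℝ) ^ 2 * N := Finset.sum_le_sum fun p _ => bpair p
        _ = n ^ 2 * (4 * (m : ℝ) ^ 2 * N) := by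
            rw [Finset.sum_const, nsmul_eq_mul, Finset.card_univ, Fintype.card_prod]
            push_cast
            rw [← hndef]
            ring
    have h2 : (A3.card : ℝ) * n * (η * ξ * n ^ 2) ≤
        4 / (η * ξ) * (m : ℝ) ^ 2 * N * (η * ξ * n ^ 2) := by
      calc (A3.card : ℝ) * n * (η * ξ * n ^ 2) = (A3.card : ℝ) * (ξ * n ^ 2) * (η * n) := by ring
        _ ≤ n ^ 2 * (4 * (m : ℝ) ^ 2 * N) := h1
        _ = _ := by field_simp
    exact le_of_mul_le_mul_right h2 (by positivity)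
  have hsum : (A1.card : ℝ) + A2.card + A3.card < N := by
    refine lt_of_mul_lt_mul_right ?_ hn.le
    calc ((A1.card : ℝ) + A2.card + A3.card) * n =
        A1.card * n + A2.card * n + A3.card * n := by ring
      _ ≤ 4 * (m : ℝ) ^ 2 * N + (m : ℝ) ^ 2 * N + 4 / (η * ξ) * (m : ℝ) ^ 2 * N := by
          linarith [b1, b2, b3]
      _ = ((m : ℝ) ^ 2 * (5 + 4 / (η * ξ))) * N := by ring
      _ < n * N := mul_lt_mul_of_pos_right hn1 hΩ
      _ = N * n := mul_comm _ _
  obtain ⟨ω, hω⟩ : ∃ ω : V → Fin m, ω ∉ A1 ∪ A2 ∪ A3 := by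
    by_contra hall
    push Not at hall
    have h1 : (univ : Finset (V → Fin m)) ⊆ A1 ∪ A2 ∪ A3 := fun ω _ => hall ω
    have h2 : (univ : Finset (V → Fin m)).card ≤ A1.card + A2.card + A3.card :=
      (Finset.card_le_card h1).trans ((Finset.card_union_le _ _).trans
        (Nat.add_le_add_right (Finset.card_union_le _ _) _))
    rw [Finset.card_univ] at h2
    have h3 : N ≤ (A1.card : ℝ) + A2.card + A3.card := by
      rw [hNdef]
      exact_mod_cast h2
    linarith
  rw [Finset.mem_union, Finset.mem_union] at hω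
  push Not at hω
  obtain ⟨⟨w1, w2⟩, w3⟩ := hω
  have w1' : ¬ ((RR ω).card : ℝ) < n / (2 * m) := fun h =>
    w1 (Finset.mem_filter.2 ⟨Finset.mem_univ _, h⟩)
  have w2' : ¬ 2 * n / m ≤ ((RR ω).card : ℝ) := fun h =>
    w2 (Finset.mem_filter.2 ⟨Finset.mem_univ _, h⟩)
  have w3' : ¬ ξ * n ^ 2 < (((univ : Finset (V × V)).filter (fun p => Bad ω p)).card : ℝ) :=
    fun h => w3 (Finset.mem_filter.2 ⟨Finset.mem_univ _, h⟩)
  refine ⟨RR ω, (not_le.1 w2').le, not_lt.1 w1', ?_⟩
  refine le_trans ?_ (not_lt.1 w3')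
  have : ((univ : Finset (V × V)).filter (fun p =>
          η * n ≤ ((D p.1 p.2).card : ℝ) ∧
          ((D p.1 p.2 ∩ RR ω).card : ℝ) < η * n / (2 * m))).card ≤
      ((univ : Finset (V × V)).filter (fun p => Bad ω p)).card := by
    refine Finset.card_le_card fun p hp => ?_
    simp only [Finset.mem_filter] at hp ⊢
    exact hp
  exact_mod_cast this

end PF61
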