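import Pool.Agent.LibPF61.T02
import Pool.Agent.LibPF61.T04
import Pool.Agent.LibPF61.T05

namespace PF61
open Finset
open scoped Classical

variable {V C : Type} [Fintype V] [Fintype C]

theorem t08_cnt (χ : V → V → C) (L : Finset C) (δ : ℝ) (hδ : 0 ≤ δ) (u : V) (c : C) :
    ((univ.filter (fun w' : V => c ∉ L ∧ Light χ L δ u w' ∧ c = χ u w')).card : ℝ)
      ≤ δ * (Fintype.card V : ℝ) := by
  rcases (univ.filter (fun w' : V => c ∉ L ∧ Light χ L δ u w' ∧ c = χ u w')).eq_empty_or_nonempty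
    with h | ⟨w0, h0⟩
  · rw [h]
    simpa using mul_nonneg hδ (Nat.cast_nonneg _)
  · rw [mem_filter] at h0
    obtain ⟨-, hc, ⟨-, hl⟩, he⟩ := h0
    have h1 : (cdeg χ (χ u w0) u : ℝ) ≤ δ * (Fintype.card V : ℝ) := by
      rcases hl with hl | hl
      · exact absurd (he ▸ hl) hc
      · exact hl
    refine le_trans ?_ h1
    rw [Nat.cast_le]
    refine card_le_card fun x hx => ?_
    rw [mem_filter] at hx ⊢
    exact ⟨mem_univ _, hx.2.2.1.1, hx.2.2.2.symm.trans he⟩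

/-- dependent vertices: for a vertex `w` light for `u` and `u'` at most `4 δ n` vertices `w'` light
for `u` and `u'` have a colour outside `L` in common with `w` -/
theorem dep_count (χ : V → V → C) (L : Finset C) (δ : ℝ) (hδ : 0 ≤ δ) (u u' w : V)
    (hw : Light χ L δ u w ∧ Light χ L δ u' w) :
    ((univ.filter (fun w' : V => (Light χ L δ u w' ∧ Light χ L δ u' w') ∧
      ((χ u w ∉ L ∧ (χ u w = χ u w' ∨ χ u w = χ u' w')) ∨
       (χ u' w ∉ L ∧ (χ u' w = χ u w' ∨ χ u' w = χ u' w'))))).card : ℝ)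
      ≤ 4 * (δ * (Fintype.card V : ℝ)) := by
  have h1 := t08_cnt χ L δ hδ u (χ u w)
  have h2 := t08_cnt χ L δ hδ u' (χ u w)
  have h3 := t08_cnt χ L δ hδ u (χ u' w)
  have h4 := t08_cnt χ L δ hδ u' (χ u' w)
  have hsub : (univ.filter (fun w' : V => (Light χ L δ u w' ∧ Light χ L δ u' w') ∧
      ((χ u w ∉ L ∧ (χ u w = χ u w' ∨ χ u w = χ u' w')) ∨
       (χ u' w ∉ L ∧ (χ u' w = χ u w' ∨ χ u' w = χ u' w'))))) ⊆
      ((univ.filter (fun w' : V => χ u w ∉ L ∧ Light χ L δ u w' ∧ χ u w = χ u w')) ∪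
       (univ.filter (fun w' : V => χ u w ∉ L ∧ Light χ L δ u' w' ∧ χ u w = χ u' w'))) ∪
      ((univ.filter (fun w' : V => χ u' w ∉ L ∧ Light χ L δ u w' ∧ χ u' w = χ u w')) ∪
       (univ.filter (fun w' : V => χ u' w ∉ L ∧ Light χ L δ u' w' ∧ χ u' w = χ u' w'))) := by
    intro x hx
    simp only [mem_filter, mem_union, mem_univ, true_and] at hx ⊢
    tauto
  have h5 := card_le_card hsub
  have h6 := (card_union_le ((univ.filter (fun w' : V => χ u w ∉ L ∧ Light χ L δ u w' ∧ χ u w = χ u w')) ∪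
       (univ.filter (fun w' : V => χ u w ∉ L ∧ Light χ L δ u' w' ∧ χ u w = χ u' w')))
      ((univ.filter (fun w' : V => χ u' w ∉ L ∧ Light χ L δ u w' ∧ χ u' w = χ u w')) ∪
       (univ.filter (fun w' : V => χ u' w ∉ L ∧ Light χ L δ u' w' ∧ χ u' w = χ u' w'))))
  have h7 := (card_union_le (univ.filter (fun w' : V => χ u w ∉ L ∧ Light χ L δ u w' ∧ χ u w = χ u w'))
       (univ.filter (fun w' : V => χ u w ∉ L ∧ Light χ L δ u' w' ∧ χ u w = χ u' w')))
  have h8 := (card_union_le (univ.filter (fun w' : V => χ u' w ∉ L ∧ Light χ L δ u w' ∧ χ u' w = χ u w'))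
       (univ.filter (fun w' : V => χ u' w ∉ L ∧ Light χ L δ u' w' ∧ χ u' w = χ u' w')))
  have h9 : (((univ.filter (fun w' : V => (Light χ L δ u w' ∧ Light χ L δ u' w') ∧
      ((χ u w ∉ L ∧ (χ u w = χ u w' ∨ χ u w = χ u' w')) ∨
       (χ u' w ∉ L ∧ (χ u' w = χ u w' ∨ χ u' w = χ u' w')))))).card : ℝ) ≤
      (((univ.filter (fun w' : V => χ u w ∉ L ∧ Light χ L δ u w' ∧ χ u w = χ u w')).card : ℝ) +
       ((univ.filter (fun w' : V => χ u w ∉ L ∧ Light χ L δ u' w' ∧ χ u w = χ u' w')).card : ℝ)) +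
      (((univ.filter (fun w' : V => χ u' w ∉ L ∧ Light χ L δ u w' ∧ χ u' w = χ u w')).card : ℝ) +
       ((univ.filter (fun w' : V => χ u' w ∉ L ∧ Light χ L δ u' w' ∧ χ u' w = χ u' w')).card : ℝ)) := by
    exact_mod_cast (h5.trans h6).trans (Nat.add_le_add h7 h8)
  linarith

theorem t08_mem_SS (L : Finset C) {M : ℕ} (a : ℕ) (ω : C → Fin M) (c : C) :
    c ∈ SS L a ω ↔ c ∈ L ∨ (ω c : ℕ) < a := by
  simp [SS]

theorem t08_prob (χ : V → V → C) (L : Finset C) {M : ℕ} (hM : 0 < M) (a : ℕ)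
    (haM : a ≤ M) (u u' w : V) (E : V → (C → Fin M) → Prop)
    (hE : ∀ w ω, E w ω ↔ (χ u w ∈ SS L a ω ∧ χ u' w ∈ SS L a ω)) :
    ((a : ℝ) / M) ^ 2 * (Fintype.card (C → Fin M) : ℝ) ≤
      ((univ.filter (fun ω : C → Fin M => E w ω)).card : ℝ) := by
  have hM' : (0 : ℝ) < M := by exact_mod_cast hM
  have ha1 : (a : ℝ) ≤ M := by exact_mod_cast haM
  have ha0 : (0 : ℝ) ≤ a := Nat.cast_nonneg _
  have hn0 : (0 : ℝ) ≤ (Fintype.card (C → Fin M) : ℝ) := Nat.cast_nonneg _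
  have hsub : (univ.filter (fun ω : C → Fin M => (ω (χ u w) : ℕ) < a ∧ (ω (χ u' w) : ℕ) < a)) ⊆
      (univ.filter (fun ω : C → Fin M => E w ω)) := by
    intro ω hω
    rw [mem_filter] at hω ⊢
    rw [hE, t08_mem_SS, t08_mem_SS]
    exact ⟨mem_univ _, Or.inr hω.2.1, Or.inr hω.2.2⟩
  have h1 : (((univ.filter (fun ω : C → Fin M => (ω (χ u w) : ℕ) < a ∧ (ω (χ u' w) : ℕ) < a)).card
      : ℕ) : ℝ) ≤
      ((univ.filter (fun ω : C → Fin M => E w ω)).card : ℝ) := by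
    exact_mod_cast card_le_card hsub
  refine le_trans ?_ h1
  by_cases hc : χ u w = χ u' w
  · have h2 := prob_one a haM (χ u w)
    have h3 : (univ.filter (fun ω : C → Fin M => (ω (χ u w) : ℕ) < a ∧ (ω (χ u' w) : ℕ) < a)) =
        (univ.filter (fun ω : C → Fin M => (ω (χ u w) : ℕ) < a)) := by
      refine filter_congr fun ω _ => ?_
      rw [← hc, and_self_iff]
    rw [h3]
    have h4 : ((univ.filter (fun ω : C → Fin M => (ω (χ u w) : ℕ) < a)).card : ℝ) * M =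
        a * (Fintype.card (C → Fin M) : ℝ) := by exact_mod_cast h2
    have h5 : ((univ.filter (fun ω : C → Fin M => (ω (χ u w) : ℕ) < a)).card : ℝ) =
        (a / M) * (Fintype.card (C → Fin M) : ℝ) := by
      field_simp
      linarith
    rw [h5]
    refine mul_le_mul_of_nonneg_right ?_ hn0
    have h6 : (a : ℝ) / M ≤ 1 := (div_le_one hM').2 ha1
    have h7 : 0 ≤ (a : ℝ) / M := div_nonneg ha0 hM'.le
    nlinarith
  · have h2 := prob_two a haM (χ u w) (χ u' w) hc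
    have h4 : ((univ.filter (fun ω : C → Fin M => (ω (χ u w) : ℕ) < a ∧ (ω (χ u' w) : ℕ) < a)).card
        : ℝ) * (M : ℝ) ^ 2 = (a : ℝ) ^ 2 * (Fintype.card (C → Fin M) : ℝ) := by exact_mod_cast h2
    have h5 : ((univ.filter (fun ω : C → Fin M => (ω (χ u w) : ℕ) < a ∧ (ω (χ u' w) : ℕ) < a)).card
        : ℝ) = (a / M) ^ 2 * (Fintype.card (C → Fin M) : ℝ) := by
      field_simp
      linarith
    rw [h5]

theorem t08_indep (χ : V → V → C) (L : Finset C) {M : ℕ} (a : ℕ) (u u' w w' : V)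
    (h : ¬ ((χ u w ∉ L ∧ (χ u w = χ u w' ∨ χ u w = χ u' w')) ∨
       (χ u' w ∉ L ∧ (χ u' w = χ u w' ∨ χ u' w = χ u' w'))))
    (E : V → (C → Fin M) → Prop)
    (hE : ∀ w ω, E w ω ↔ (χ u w ∈ SS L a ω ∧ χ u' w ∈ SS L a ω)) :
    (univ.filter (fun ω : C → Fin M => E w ω ∧ E w' ω)).card * Fintype.card (C → Fin M) =
    (univ.filter (fun ω : C → Fin M => E w ω)).card *
    (univ.filter (fun ω : C → Fin M => E w' ω)).card := by
  refine indep (({χ u w, χ u' w} : Finset C) \ L) (E w) (E w') ?_ ?_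
  · intro ω ω' hω
    simp only [hE, t08_mem_SS]
    have h1 : (χ u w ∈ L ∨ (ω (χ u w) : ℕ) < a) ↔ (χ u w ∈ L ∨ (ω' (χ u w) : ℕ) < a) := by
      by_cases hL : χ u w ∈ L
      · simp [hL]
      · rw [hω (χ u w) (by simp [hL])]
    have h2 : (χ u' w ∈ L ∨ (ω (χ u' w) : ℕ) < a) ↔ (χ u' w ∈ L ∨ (ω' (χ u' w) : ℕ) < a) := by
      by_cases hL : χ u' w ∈ L
      · simp [hL]
      · rw [hω (χ u' w) (by simp [hL])]
    rw [h1, h2]
  · intro ω ω' hω
    simp only [hE, t08_mem_SS]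
    have h1 : (χ u w' ∈ L ∨ (ω (χ u w') : ℕ) < a) ↔ (χ u w' ∈ L ∨ (ω' (χ u w') : ℕ) < a) := by
      by_cases hL : χ u w' ∈ L
      · simp [hL]
      · rw [hω (χ u w') ?_]
        simp only [mem_sdiff, mem_insert, mem_singleton]
        rintro ⟨h3 | h3, -⟩
        · exact h (Or.inl ⟨h3 ▸ hL, Or.inl h3.symm⟩)
        · exact h (Or.inr ⟨h3 ▸ hL, Or.inl h3.symm⟩)
    have h2 : (χ u' w' ∈ L ∨ (ω (χ u' w') : ℕ) < a) ↔ (χ u' w' ∈ L ∨ (ω' (χ u' w') : ℕ) < a) := by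
      by_cases hL : χ u' w' ∈ L
      · simp [hL]
      · rw [hω (χ u' w') ?_]
        simp only [mem_sdiff, mem_insert, mem_singleton]
        rintro ⟨h3 | h3, -⟩
        · exact h (Or.inl ⟨h3 ▸ hL, Or.inr h3.symm⟩)
        · exact h (Or.inr ⟨h3 ▸ hL, Or.inr h3.symm⟩)
    rw [h1, h2]

/-- probability that two given vertices are not linked (`cheb_low` with
`E w ω = (χ u w ∈ SS L a ω ∧ χ u' w ∈ SS L a ω)`, `D` = the vertices of `R` light for `u` and `u'`,
`π = (a/M)^2`, `Δ = 4 δ n`; `indep`, `dep_count`, `prob_one`, `prob_two`) -/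
theorem link_bound (χ : V → V → C) (L : Finset C) {M : ℕ} (hM : 0 < M) (a : ℕ) (ha : 0 < a)
    (haM : a ≤ M) (δ η : ℝ) (hη : 0 < η) (hδ : 0 ≤ δ) (R : Finset V) (u u' : V)
    (hD : η * (Fintype.card V : ℝ) ≤
      ((R.filter (fun w => Light χ L δ u w ∧ Light χ L δ u' w)).card : ℝ)) :
    ((univ.filter (fun ω : C → Fin M =>
        ¬ Linked χ (SS L a ω) R (((a : ℝ) / M) ^ 2 * η / 2) u u')).card : ℝ) *
      (((a : ℝ) / M) ^ 4 * η) ≤ 16 * δ * (Fintype.card (C → Fin M) : ℝ) := by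
  have : Nonempty (C → Fin M) := ⟨fun _ => ⟨0, hM⟩⟩
  obtain ⟨E, hE⟩ : ∃ E : V → (C → Fin M) → Prop,
    ∀ w ω, E w ω ↔ (χ u w ∈ SS L a ω ∧ χ u' w ∈ SS L a ω) :=
    ⟨fun w ω => χ u w ∈ SS L a ω ∧ χ u' w ∈ SS L a ω, fun _ _ => Iff.rfl⟩
  have hM' : (0 : ℝ) < M := by exact_mod_cast hM
  have ha' : (0 : ℝ) < a := by exact_mod_cast ha
  have hn : (0 : ℝ) < (Fintype.card V : ℝ) := by
    have : Nonempty V := ⟨u⟩
    exact_mod_cast Fintype.card_pos
  have hp : 0 < ((a : ℝ) / M) ^ 2 := by positivity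
  set D := R.filter (fun w => Light χ L δ u w ∧ Light χ L δ u' w) with hDdef
  set n : ℝ := (Fintype.card V : ℝ) with hndef
  have key := cheb_low (Ω := C → Fin M) D
    E (4 * (δ * n)) (((a : ℝ) / M) ^ 2) hp
    (by positivity) ?_ ?_
  · have hsub : (univ.filter (fun ω : C → Fin M =>
        ¬ Linked χ (SS L a ω) R (((a : ℝ) / M) ^ 2 * η / 2) u u')) ⊆
        (univ.filter (fun ω : C → Fin M =>
        ((D.filter (fun i => E i ω)).card : ℝ) <
          ((a : ℝ) / M) ^ 2 * (D.card : ℝ) / 2)) := by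
      intro ω hω
      rw [mem_filter] at hω ⊢
      refine ⟨mem_univ _, ?_⟩
      have h1 := hω.2
      unfold Linked at h1
      rw [not_le] at h1
      have h2 : ((D.filter (fun i => E i ω)).card : ℝ) ≤
          ((R.filter (fun w => w ≠ u ∧ w ≠ u' ∧ χ u w ∈ SS L a ω ∧ χ u' w ∈ SS L a ω)).card : ℝ) := by
        rw [Nat.cast_le]
        refine card_le_card fun x hx => ?_
        rw [mem_filter, hDdef, mem_filter] at hx
        rw [mem_filter]
        rw [hE] at hx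
        exact ⟨hx.1.1, hx.1.2.1.1, hx.1.2.2.1, hx.2.1, hx.2.2⟩
      have h3 : ((a : ℝ) / M) ^ 2 * η / 2 * n ≤ ((a : ℝ) / M) ^ 2 * (D.card : ℝ) / 2 := by
        have := mul_le_mul_of_nonneg_left hD hp.le
        linarith
      linarith
    have h4 : ((univ.filter (fun ω : C → Fin M =>
        ¬ Linked χ (SS L a ω) R (((a : ℝ) / M) ^ 2 * η / 2) u u')).card : ℝ) ≤
        ((univ.filter (fun ω : C → Fin M =>
        ((D.filter (fun i => E i ω)).card : ℝ) <
          ((a : ℝ) / M) ^ 2 * (D.card : ℝ) / 2)).card : ℝ) := by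
      exact_mod_cast card_le_card hsub
    set B : ℝ := ((univ.filter (fun ω : C → Fin M =>
        ¬ Linked χ (SS L a ω) R (((a : ℝ) / M) ^ 2 * η / 2) u u')).card : ℝ) with hB
    set B' : ℝ := ((univ.filter (fun ω : C → Fin M =>
        ((D.filter (fun i => E i ω)).card : ℝ) <
          ((a : ℝ) / M) ^ 2 * (D.card : ℝ) / 2)).card : ℝ) with hB'
    have hB0 : 0 ≤ B := Nat.cast_nonneg _
    have hB'0 : 0 ≤ B' := Nat.cast_nonneg _
    have h5 : B * ((((a : ℝ) / M) ^ 2) ^ 2 * (η * n)) ≤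
        B' * ((((a : ℝ) / M) ^ 2) ^ 2 * (D.card : ℝ)) := by
      refine mul_le_mul h4 (mul_le_mul_of_nonneg_left hD (by positivity)) (by positivity) hB'0
    have h6 : B * ((((a : ℝ) / M) ^ 2) ^ 2 * (η * n)) ≤
        4 * (4 * (δ * n)) * (Fintype.card (C → Fin M) : ℝ) := h5.trans key
    have h7 : (B * (((a : ℝ) / M) ^ 4 * η)) * n ≤ (16 * δ * (Fintype.card (C → Fin M) : ℝ)) * n := by
      have e1 : (B * (((a : ℝ) / M) ^ 4 * η)) * n = B * ((((a : ℝ) / M) ^ 2) ^ 2 * (η * n)) := by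
        ring
      have e2 : (16 * δ * (Fintype.card (C → Fin M) : ℝ)) * n =
          4 * (4 * (δ * n)) * (Fintype.card (C → Fin M) : ℝ) := by ring
      rw [e1, e2]
      exact h6
    exact le_of_mul_le_mul_right h7 hn
  · intro w hw
    have hw2 := (mem_filter.1 hw).2
    refine le_trans ?_ (dep_count χ L δ hδ u u' w hw2)
    rw [Nat.cast_le]
    refine card_le_card fun w' hw' => ?_
    rw [mem_filter] at hw'
    rw [mem_filter]
    refine ⟨mem_univ _, (mem_filter.1 hw'.1).2, ?_⟩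
    by_contra hcon
    have h8 := t08_indep (M := M) χ L a u u' w w' hcon E hE
    have h9 : ((univ.filter (fun ω : C → Fin M => E w ω ∧ E w' ω)).card : ℝ) *
      (Fintype.card (C → Fin M) : ℝ) =
      ((univ.filter (fun ω : C → Fin M => E w ω)).card : ℝ) *
      ((univ.filter (fun ω : C → Fin M => E w' ω)).card : ℝ) := by
      exact_mod_cast h8
    exact absurd hw'.2 (not_lt.2 h9.le)
  · intro w _
    exact t08_prob χ L hM a haM u u' w E hE

end PF61
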