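import Pool.Agent.LibPF61.T11

namespace PF61
open Finset
open scoped Classical

/-- a zero-one sum is nonnegative -/
private theorem t12_nn (p : Prop) : (0 : ℝ) ≤ if p then 1 else 0 := by
  split_ifs <;> norm_num

/-- `Λ u w` is an irreflexive relation such that almost all pairs are related in at least one
direction.  Then almost all pairs `(u, u')` have many `w` with `Λ u w` and `Λ u' w`.
Proof: `c4_count` for `B u u' := #{w | Λ u w ∧ Λ u' w} < η n`; a quadruple `(a, b, x, y)` with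
`B a x, B a y, B b x, B b y` which is injective and has `Λ` in one direction on each of its six
pairs contains `u ∈ {a, b}`, `u' ∈ {x, y}` and `w` one of the two others with `Λ u w`, `Λ u' w`:
say `Λ b a` and `Λ y x` (else swap names); if `Λ x a` then `(b, x; a)` works, otherwise `Λ a x`
and `(a, y; x)` works.  There are at most `8 η n ^ 4` such quadruples. -/
theorem pairs_abstract {V : Type} [Fintype V] (Λ : V → V → Prop) (hirr : ∀ u w, Λ u w → w ≠ u)
    (η h : ℝ) (hη : 0 ≤ η)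
    (hh : (((univ : Finset (V × V)).filter (fun p =>
      p.1 ≠ p.2 ∧ ¬ Λ p.1 p.2 ∧ ¬ Λ p.2 p.1)).card : ℝ) ≤ h * (Fintype.card V : ℝ) ^ 2) :
    (((univ : Finset (V × V)).filter (fun p =>
      ((univ.filter (fun w => Λ p.1 w ∧ Λ p.2 w)).card : ℝ) < η * (Fintype.card V : ℝ))).card : ℝ) ^ 4
      ≤ (8 * η + 6 * h) * (Fintype.card V : ℝ) ^ 8 + 6 * (Fintype.card V : ℝ) ^ 7 := by
  set n : ℝ := (Fintype.card V : ℝ) with hn
  have hn0 : 0 ≤ n := Nat.cast_nonneg _
  obtain ⟨B, hB⟩ : ∃ B : V → V → Prop, ∀ u v, B u v ↔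
      ((univ.filter (fun w => Λ u w ∧ Λ v w)).card : ℝ) < η * n := ⟨_, fun _ _ => Iff.rfl⟩
  obtain ⟨g, hg⟩ : ∃ g : V → V → Prop, ∀ u v, g u v ↔ (u = v ∨ (u ≠ v ∧ ¬ Λ u v ∧ ¬ Λ v u)) :=
    ⟨_, fun _ _ => Iff.rfl⟩
  obtain ⟨t, ht⟩ : ∃ t : V → V → V → Prop, ∀ u v w, t u v w ↔ (B u v ∧ Λ u w ∧ Λ v w) :=
    ⟨_, fun _ _ _ => Iff.rfl⟩
  have hgoal : ((univ : Finset (V × V)).filter (fun p =>
      ((univ.filter (fun w => Λ p.1 w ∧ Λ p.2 w)).card : ℝ) < η * n)) =
      (univ : Finset (V × V)).filter (fun p => B p.1 p.2) :=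
    filter_congr fun p _ => (hB p.1 p.2).symm
  rw [hgoal]
  have hgL : ∀ u v, ¬ g u v → Λ u v ∨ Λ v u := by
    intro u v h1
    rw [hg, not_or] at h1
    by_contra h2
    rw [not_or] at h2
    exact h1.2 ⟨h1.1, h2⟩
  have hlog : ∀ a b x y, (B a x ∧ B a y ∧ B b x ∧ B b y) →
      g a b ∨ g a x ∨ g a y ∨ g b x ∨ g b y ∨ g x y ∨ t a x b ∨ t a x y ∨ t a y b ∨ t a y x ∨
        t b x a ∨ t b x y ∨ t b y a ∨ t b y x := by
    intro a b x y ⟨b1, b2, b3, b4⟩
    have h1 := hgL a b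
    have h2 := hgL a x
    have h3 := hgL a y
    have h4 := hgL b x
    have h5 := hgL b y
    have h6 := hgL x y
    by_contra hcon
    simp only [not_or] at hcon
    obtain ⟨c1, c2, c3, c4, c5, c6, d1, d2, d3, d4, d5, d6, d7, d8⟩ := hcon
    rcases h1 c1 with e1 | e1
    · rcases h6 c6 with e6 | e6
      · rcases h5 c5 with e | e
        · exact d6 ((ht _ _ _).2 ⟨b3, e, e6⟩)
        · exact d3 ((ht _ _ _).2 ⟨b2, e1, e⟩)
      · rcases h4 c4 with e | e
        · exact d8 ((ht _ _ _).2 ⟨b4, e, e6⟩)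
        · exact d1 ((ht _ _ _).2 ⟨b1, e1, e⟩)
    · rcases h6 c6 with e6 | e6
      · rcases h3 c3 with e | e
        · exact d2 ((ht _ _ _).2 ⟨b1, e, e6⟩)
        · exact d7 ((ht _ _ _).2 ⟨b4, e1, e⟩)
      · rcases h2 c2 with e | e
        · exact d4 ((ht _ _ _).2 ⟨b2, e, e6⟩)
        · exact d5 ((ht _ _ _).2 ⟨b3, e1, e⟩)
  have hkey : ∀ a b x y, (if (B a x ∧ B a y ∧ B b x ∧ B b y) then (1 : ℝ) else 0) ≤
      (if g a b then 1 else 0) + (if g a x then 1 else 0) + (if g a y then 1 else 0) +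
      (if g b x then 1 else 0) + (if g b y then 1 else 0) + (if g x y then 1 else 0) +
      (if t a x b then 1 else 0) + (if t a x y then 1 else 0) + (if t a y b then 1 else 0) +
      (if t a y x then 1 else 0) + (if t b x a then 1 else 0) + (if t b x y then 1 else 0) +
      (if t b y a then 1 else 0) + (if t b y x then 1 else 0) := by
    intro a b x y
    have n1 := t12_nn (g a b)
    have n2 := t12_nn (g a x)
    have n3 := t12_nn (g a y)
    have n4 := t12_nn (g b x)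
    have n5 := t12_nn (g b y)
    have n6 := t12_nn (g x y)
    have m1 := t12_nn (t a x b)
    have m2 := t12_nn (t a x y)
    have m3 := t12_nn (t a y b)
    have m4 := t12_nn (t a y x)
    have m5 := t12_nn (t b x a)
    have m6 := t12_nn (t b x y)
    have m7 := t12_nn (t b y a)
    have m8 := t12_nn (t b y x)
    by_cases hc : B a x ∧ B a y ∧ B b x ∧ B b y
    · rw [if_pos hc]
      rcases hlog a b x y hc with h1 | h1 | h1 | h1 | h1 | h1 | h1 | h1 | h1 | h1 | h1 | h1 | h1 | h1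
      all_goals
        rw [if_pos h1]
        linarith
    · rw [if_neg hc]
      linarith
  -- the sums
  have hG : ∑ u, ∑ v, (if g u v then (1 : ℝ) else 0) ≤ n + h * n ^ 2 := by
    have h1 : ∀ u v, (if g u v then (1 : ℝ) else 0) =
        (if u = v then 1 else 0) + (if (u ≠ v ∧ ¬ Λ u v ∧ ¬ Λ v u) then 1 else 0) := by
      intro u v
      by_cases h2 : u = v
      · have : g u v := (hg u v).2 (Or.inl h2)
        rw [if_pos this, if_pos h2, if_neg (fun h => h.1 h2)]; norm_num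
      · by_cases h3 : (u ≠ v ∧ ¬ Λ u v ∧ ¬ Λ v u)
        · have : g u v := (hg u v).2 (Or.inr h3)
          rw [if_pos this, if_neg h2, if_pos h3]; norm_num
        · have : ¬ g u v := fun h4 => ((hg u v).1 h4).elim h2 h3
          rw [if_neg this, if_neg h2, if_neg h3]; norm_num
    simp_rw [h1, sum_add_distrib]
    have h2 : ∑ u : V, ∑ v : V, (if u = v then (1 : ℝ) else 0) = n := by
      simp [hn]
    have h3 : ∑ u : V, ∑ v : V, (if (u ≠ v ∧ ¬ Λ u v ∧ ¬ Λ v u) then (1 : ℝ) else 0) =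
        (((univ : Finset (V × V)).filter (fun p =>
          p.1 ≠ p.2 ∧ ¬ Λ p.1 p.2 ∧ ¬ Λ p.2 p.1)).card : ℝ) := by
      rw [card_filter, Nat.cast_sum, Fintype.sum_prod_type]
      refine sum_congr rfl fun u _ => sum_congr rfl fun v _ => ?_
      push_cast
      rfl
    rw [h2, h3]
    linarith
  have hT : ∑ u, ∑ v, ∑ w, (if t u v w then (1 : ℝ) else 0) ≤ n ^ 2 * (η * n) := by
    have h1 : ∀ u v, ∑ w, (if t u v w then (1 : ℝ) else 0) ≤ η * n := by
      intro u v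
      by_cases h2 : B u v
      · have h3 : ∑ w, (if t u v w then (1 : ℝ) else 0) =
            ((univ.filter (fun w => Λ u w ∧ Λ v w)).card : ℝ) := by
          rw [card_filter, Nat.cast_sum]
          refine sum_congr rfl fun w _ => ?_
          by_cases h4 : Λ u w ∧ Λ v w
          · have : t u v w := (ht u v w).2 ⟨h2, h4⟩
            rw [if_pos this, if_pos h4]; norm_num
          · have : ¬ t u v w := fun h5 => h4 ((ht u v w).1 h5).2
            rw [if_neg this, if_neg h4]; norm_num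
        rw [h3]
        exact le_of_lt ((hB u v).1 h2)
      · have h3 : ∑ w, (if t u v w then (1 : ℝ) else 0) = 0 := by
          refine sum_eq_zero fun w _ => ?_
          have : ¬ t u v w := fun h5 => h2 ((ht u v w).1 h5).1
          rw [if_neg this]
        rw [h3]
        positivity
    calc _ ≤ ∑ _u : V, ∑ _v : V, η * n := sum_le_sum fun u _ => sum_le_sum fun v _ => h1 u v
      _ = n ^ 2 * (η * n) := by
        simp only [sum_const, card_univ, nsmul_eq_mul, ← hn]; ring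
  -- the count of quadruples
  have hQ : (((univ : Finset (V × V × V × V)).filter (fun p =>
        B p.1 p.2.2.1 ∧ B p.1 p.2.2.2 ∧ B p.2.1 p.2.2.1 ∧ B p.2.1 p.2.2.2)).card : ℝ) ≤
      6 * (n ^ 2 * (n + h * n ^ 2)) + 8 * (n * (n ^ 2 * (η * n))) := by
    have h1 : (((univ : Finset (V × V × V × V)).filter (fun p =>
        B p.1 p.2.2.1 ∧ B p.1 p.2.2.2 ∧ B p.2.1 p.2.2.1 ∧ B p.2.1 p.2.2.2)).card : ℝ) =
        ∑ a, ∑ b, ∑ x, ∑ y, (if (B a x ∧ B a y ∧ B b x ∧ B b y) then (1 : ℝ) else 0) := by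
      rw [card_filter, Nat.cast_sum, Fintype.sum_prod_type]
      refine sum_congr rfl fun a _ => ?_
      rw [Fintype.sum_prod_type]
      refine sum_congr rfl fun b _ => ?_
      rw [Fintype.sum_prod_type]
      refine sum_congr rfl fun x _ => sum_congr rfl fun y _ => ?_
      push_cast
      rfl
    rw [h1]
    refine (sum_le_sum fun a _ => sum_le_sum fun b _ => sum_le_sum fun x _ => sum_le_sum fun y _ =>
      hkey a b x y).trans ?_
    simp only [sum_add_distrib]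
    set G : V → V → ℝ := fun u v => if g u v then (1 : ℝ) else 0 with hGd
    set T : V → V → V → ℝ := fun u v w => if t u v w then (1 : ℝ) else 0 with hTd
    have g1 : ∑ a, ∑ b, ∑ _x : V, ∑ _y : V, G a b = n ^ 2 * ∑ u, ∑ v, G u v := by
      simp only [sum_const, card_univ, nsmul_eq_mul, ← mul_sum, ← hn]; ring
    have g2 : ∑ a, ∑ _b : V, ∑ x, ∑ _y : V, G a x = n ^ 2 * ∑ u, ∑ v, G u v := by
      simp only [sum_const, card_univ, nsmul_eq_mul, ← mul_sum, ← hn]; ring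
    have g3 : ∑ a, ∑ _b : V, ∑ _x : V, ∑ y, G a y = n ^ 2 * ∑ u, ∑ v, G u v := by
      simp only [sum_const, card_univ, nsmul_eq_mul, ← mul_sum, ← hn]; ring
    have g4 : ∑ _a : V, ∑ b, ∑ x, ∑ _y : V, G b x = n ^ 2 * ∑ u, ∑ v, G u v := by
      simp only [sum_const, card_univ, nsmul_eq_mul, ← mul_sum, ← hn]; ring
    have g5 : ∑ _a : V, ∑ b, ∑ _x : V, ∑ y, G b y = n ^ 2 * ∑ u, ∑ v, G u v := by
      simp only [sum_const, card_univ, nsmul_eq_mul, ← mul_sum, ← hn]; ring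
    have g6 : ∑ _a : V, ∑ _b : V, ∑ x, ∑ y, G x y = n ^ 2 * ∑ u, ∑ v, G u v := by
      simp only [sum_const, card_univ, nsmul_eq_mul, ← mul_sum, ← hn]; ring
    have s2 : ∑ u, ∑ w, ∑ v, T u v w = ∑ u, ∑ v, ∑ w, T u v w :=
      sum_congr rfl fun u _ => sum_comm
    have s3 : ∑ w, ∑ u, ∑ v, T u v w = ∑ u, ∑ v, ∑ w, T u v w := by
      rw [sum_comm]
      exact s2
    have t1 : ∑ a, ∑ b, ∑ x, ∑ _y : V, T a x b = n * ∑ u, ∑ v, ∑ w, T u v w := by
      rw [← s2]
      simp only [sum_const, card_univ, nsmul_eq_mul, ← mul_sum, ← hn]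
    have t2 : ∑ a, ∑ _b : V, ∑ x, ∑ y, T a x y = n * ∑ u, ∑ v, ∑ w, T u v w := by
      simp only [sum_const, card_univ, nsmul_eq_mul, ← mul_sum, ← hn]
    have t3 : ∑ a, ∑ b, ∑ _x : V, ∑ y, T a y b = n * ∑ u, ∑ v, ∑ w, T u v w := by
      rw [← s2]
      simp only [sum_const, card_univ, nsmul_eq_mul, ← mul_sum, ← hn]
    have t4 : ∑ a, ∑ _b : V, ∑ x, ∑ y, T a y x = n * ∑ u, ∑ v, ∑ w, T u v w := by
      rw [← s2]
      simp only [sum_const, card_univ, nsmul_eq_mul, ← mul_sum, ← hn]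
    have t5 : ∑ a, ∑ b, ∑ x, ∑ _y : V, T b x a = n * ∑ u, ∑ v, ∑ w, T u v w := by
      rw [← s3]
      simp only [sum_const, card_univ, nsmul_eq_mul, ← mul_sum, ← hn]
    have t6 : ∑ _a : V, ∑ b, ∑ x, ∑ y, T b x y = n * ∑ u, ∑ v, ∑ w, T u v w := by
      simp only [sum_const, card_univ, nsmul_eq_mul, ← hn]
    have t7 : ∑ a, ∑ b, ∑ _x : V, ∑ y, T b y a = n * ∑ u, ∑ v, ∑ w, T u v w := by
      rw [← s3]
      simp only [sum_const, card_univ, nsmul_eq_mul, ← mul_sum, ← hn]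
    have t8 : ∑ _a : V, ∑ b, ∑ x, ∑ y, T b y x = n * ∑ u, ∑ v, ∑ w, T u v w := by
      rw [← s2]
      simp only [sum_const, card_univ, nsmul_eq_mul, ← hn]
    rw [g1, g2, g3, g4, g5, g6, t1, t2, t3, t4, t5, t6, t7, t8]
    have e1 : n ^ 2 * ∑ u, ∑ v, G u v ≤ n ^ 2 * (n + h * n ^ 2) :=
      mul_le_mul_of_nonneg_left hG (by positivity)
    have e2 : n * ∑ u, ∑ v, ∑ w, T u v w ≤ n * (n ^ 2 * (η * n)) :=
      mul_le_mul_of_nonneg_left hT hn0
    linarith
  have hc4 := c4_count B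
  have hc4' : (((univ : Finset (V × V)).filter (fun p => B p.1 p.2)).card : ℝ) ^ 4 ≤
      n ^ 4 * (((univ : Finset (V × V × V × V)).filter (fun p =>
        B p.1 p.2.2.1 ∧ B p.1 p.2.2.2 ∧ B p.2.1 p.2.2.1 ∧ B p.2.1 p.2.2.2)).card : ℝ) := by
    have h1 := (Nat.cast_le (α := ℝ)).2 hc4
    push_cast at h1
    exact h1
  calc _ ≤ _ := hc4'
    _ ≤ n ^ 4 * (6 * (n ^ 2 * (n + h * n ^ 2)) + 8 * (n * (n ^ 2 * (η * n)))) :=
      mul_le_mul_of_nonneg_left hQ (by positivity)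
    _ = _ := by ring

end PF61
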