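import Pool.Agent.LibPF61.T10
import Pool.Agent.LibPF61.T12

namespace PF61
open Finset
open scoped Classical

/-- `η = ξ ^ 4 / 32`, `δ1` with `δ1 / δ ^ 2 ≤ ξ ^ 4 / 32`, `n0 ≥ 32 / ξ ^ 4` -/
theorem pairs_large (ξ : ℝ) (hξ : 0 < ξ) :
    ∃ η : ℝ, 0 < η ∧ ∀ δ : ℝ, 0 < δ → ∃ δ1 : ℝ, 0 < δ1 ∧ ∃ n0 : ℕ,
      ∀ (V C : Type) [Fintype V] [Fintype C] (χ : V → V → C) (L : Finset C),
        (∀ u v, χ u v = χ v u) → n0 ≤ Fintype.card V →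
        (∀ c, c ∉ L → (tot χ c : ℝ) ≤ δ1 * (Fintype.card V : ℝ) ^ 2) →
        (((univ : Finset (V × V)).filter (fun p =>
          ((univ.filter (fun w => Light χ L δ p.1 w ∧ Light χ L δ p.2 w)).card : ℝ) <
            η * (Fintype.card V : ℝ))).card : ℝ) ≤ ξ * (Fintype.card V : ℝ) ^ 2 := by
  refine ⟨ξ ^ 4 / 32, by positivity, fun δ hδ => ⟨δ ^ 2 * (ξ ^ 4 / 32), by positivity,
    ⌈32 / ξ ^ 4⌉₊, ?_⟩⟩
  intro V C _ _ χ L hχ hn hL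
  set n : ℝ := (Fintype.card V : ℝ) with hndef
  have hn' : 32 / ξ ^ 4 ≤ n := Nat.ceil_le.1 hn
  have hξ4 : 0 < ξ ^ 4 := by positivity
  have hn0 : 0 < n := lt_of_lt_of_le (by positivity) hn'
  have hn32 : 32 ≤ ξ ^ 4 * n := by
    rw [div_le_iff₀ hξ4] at hn'
    linarith
  have h1 := hh_count χ hχ L δ (δ ^ 2 * (ξ ^ 4 / 32)) hδ (by positivity) hL
  have h2 : (((univ : Finset (V × V)).filter (fun p =>
      p.1 ≠ p.2 ∧ ¬ Light χ L δ p.1 p.2 ∧ ¬ Light χ L δ p.2 p.1)).card : ℝ) ≤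
      (ξ ^ 4 / 32) * n ^ 2 := by
    have h3 : (0 : ℝ) < δ ^ 2 := by positivity
    refine le_of_mul_le_mul_right ?_ h3
    calc _ ≤ δ ^ 2 * (ξ ^ 4 / 32) * n ^ 2 := h1
      _ = (ξ ^ 4 / 32) * n ^ 2 * δ ^ 2 := by ring
  have h4 := pairs_abstract (fun u w => Light χ L δ u w) (fun u w h => h.1) (ξ ^ 4 / 32)
    (ξ ^ 4 / 32) (by positivity) h2
  have h5 : (8 * (ξ ^ 4 / 32) + 6 * (ξ ^ 4 / 32)) * n ^ 8 + 6 * n ^ 7 ≤ (ξ * n ^ 2) ^ 4 := by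
    have h6 : (0 : ℝ) ≤ n ^ 7 := by positivity
    have h7 : 32 * n ^ 7 ≤ ξ ^ 4 * n ^ 8 := by
      calc 32 * n ^ 7 ≤ (ξ ^ 4 * n) * n ^ 7 := mul_le_mul_of_nonneg_right hn32 h6
        _ = ξ ^ 4 * n ^ 8 := by ring
    have h8 : (ξ * n ^ 2) ^ 4 = ξ ^ 4 * n ^ 8 := by ring
    rw [h8]
    have h9 : 0 ≤ ξ ^ 4 * n ^ 8 := by positivity
    nlinarith
  exact le_of_pow_le_pow_left₀ (by norm_num) (by positivity) (h4.trans h5)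

end PF61
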