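import Pool.Agent.LibPF61.Defs

namespace PF61
open Finset
open scoped Classical

theorem t16_one {V : Type} [Fintype V] (W : Finset V) (r m : ℕ) (e : Fin m → Fin r)
    (he : Function.Injective e) (P : (Fin m → V) → Prop) :
    ((Fintype.piFinset (fun _ : Fin r => W)).filter (fun f => P (f ∘ e))).card * W.card ^ m ≤
      ((univ : Finset (Fin m → V)).filter P).card * W.card ^ r := by
  have c1 : (Fintype.piFinset (fun _ : Fin m => W)).card = W.card ^ m :=
    Fintype.card_piFinset_const W m
  have c2 : (Fintype.piFinset (fun _ : Fin r => W)).card = W.card ^ r :=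
    Fintype.card_piFinset_const W r
  rw [← c1, ← c2, ← Finset.card_product, ← Finset.card_product]
  refine Finset.card_le_card_of_injOn
    (fun p => (p.1 ∘ e, Function.extend e p.2 p.1)) ?_ ?_
  · rintro ⟨f, g⟩ hp
    rw [Finset.mem_coe, Finset.mem_product, Finset.mem_filter, Fintype.mem_piFinset,
      Fintype.mem_piFinset] at hp
    obtain ⟨⟨hf, hP⟩, hg⟩ := hp
    rw [Finset.mem_coe, Finset.mem_product, Finset.mem_filter, Fintype.mem_piFinset]
    refine ⟨⟨Finset.mem_univ _, hP⟩, fun i => ?_⟩
    by_cases hi : ∃ j, e j = i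
    · obtain ⟨j, rfl⟩ := hi
      change Function.extend e g f (e j) ∈ W
      rw [he.extend_apply]
      exact hg j
    · change Function.extend e g f i ∈ W
      rw [Function.extend_apply' _ _ _ hi]
      exact hf i
  · rintro ⟨f, g⟩ _ ⟨f', g'⟩ _ heq
    simp only [Prod.mk.injEq] at heq
    obtain ⟨h1, h2⟩ := heq
    have hg : g = g' := by
      funext j
      have := congrFun h2 (e j)
      rwa [he.extend_apply, he.extend_apply] at this
    have hf : f = f' := by
      funext i
      by_cases hi : ∃ j, e j = i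
      · obtain ⟨j, rfl⟩ := hi
        exact congrFun h1 j
      · have := congrFun h2 i
        rwa [Function.extend_apply' _ _ _ hi, Function.extend_apply' _ _ _ hi] at this
    rw [hf, hg]

theorem t16_union {V : Type} [Fintype V] (W : Finset V) (hW : 0 < W.card) (r m : ℕ)
    (P : (Fin m → V) → Prop)
    (h : 4 * r ^ m * ((univ : Finset (Fin m → V)).filter P).card ≤ W.card ^ m) :
    4 * ((Fintype.piFinset (fun _ : Fin r => W)).filter
      (fun f => ∃ e : Fin m → Fin r, Function.Injective e ∧ P (f ∘ e))).card ≤ W.card ^ r := by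
  set F := Fintype.piFinset (fun _ : Fin r => W) with hF
  set N := ((univ : Finset (Fin m → V)).filter P).card with hN
  set B := F.filter (fun f => ∃ e : Fin m → Fin r, Function.Injective e ∧ P (f ∘ e)) with hB
  set I := (univ : Finset (Fin m → Fin r)).filter Function.Injective with hI
  have hsub : B ⊆ I.biUnion (fun e => F.filter (fun f => P (f ∘ e))) := by
    intro f hf
    rw [hB, Finset.mem_filter] at hf
    obtain ⟨hf1, e, he, hP⟩ := hf
    rw [Finset.mem_biUnion]
    exact ⟨e, Finset.mem_filter.2 ⟨Finset.mem_univ _, he⟩, Finset.mem_filter.2 ⟨hf1, hP⟩⟩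
  have h1 : B.card * W.card ^ m ≤ r ^ m * (N * W.card ^ r) := by
    calc B.card * W.card ^ m
        ≤ (∑ e ∈ I, (F.filter (fun f => P (f ∘ e))).card) * W.card ^ m :=
          Nat.mul_le_mul_right _ ((Finset.card_le_card hsub).trans Finset.card_biUnion_le)
      _ = ∑ e ∈ I, (F.filter (fun f => P (f ∘ e))).card * W.card ^ m := by
          rw [Finset.sum_mul]
      _ ≤ ∑ e ∈ I, N * W.card ^ r :=
          Finset.sum_le_sum (fun e he => t16_one W r m e (Finset.mem_filter.1 he).2 P)
      _ = I.card * (N * W.card ^ r) := by rw [Finset.sum_const, smul_eq_mul]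
      _ ≤ r ^ m * (N * W.card ^ r) := by
          apply Nat.mul_le_mul_right
          refine (Finset.card_filter_le _ _).trans ?_
          rw [Finset.card_univ, Fintype.card_fun, Fintype.card_fin, Fintype.card_fin]
  have hpos : 0 < W.card ^ m := by positivity
  have h2 : (4 * B.card) * W.card ^ m ≤ W.card ^ r * W.card ^ m := by
    calc (4 * B.card) * W.card ^ m = 4 * (B.card * W.card ^ m) := by ring
      _ ≤ 4 * (r ^ m * (N * W.card ^ r)) := Nat.mul_le_mul_left _ h1
      _ = (4 * r ^ m * N) * W.card ^ r := by ring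
      _ ≤ W.card ^ m * W.card ^ r := Nat.mul_le_mul_right _ h
      _ = W.card ^ r * W.card ^ m := by ring
  exact Nat.le_of_mul_le_mul_right h2 hpos

def t16P2 {V : Type} (W : Finset V) : (Fin 2 → V) → Prop := fun g => g 0 = g 1 ∧ g 0 ∈ W

def t16P3 {V : Type} (T : V → V → V → Prop) : (Fin 3 → V) → Prop := fun g => T (g 0) (g 1) (g 2)

def t16P4 {V : Type} (Q : V → V → V → V → Prop) : (Fin 4 → V) → Prop :=
  fun g => Q (g 0) (g 1) (g 2) (g 3)

theorem t16_inj3 {α : Type} {i j k : α} (ij : i ≠ j) (jk : j ≠ k) (ik : i ≠ k) :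
    Function.Injective ![i, j, k] := by
  intro a b hab
  fin_cases a <;> fin_cases b
  all_goals
    first
    | rfl
    | exact (ij (by simpa using hab)).elim
    | exact (ij (by simpa using hab.symm)).elim
    | exact (jk (by simpa using hab)).elim
    | exact (jk (by simpa using hab.symm)).elim
    | exact (ik (by simpa using hab)).elim
    | exact (ik (by simpa using hab.symm)).elim

theorem t16_inj4 {α : Type} {i j k l : α} (ij : i ≠ j) (ik : i ≠ k) (il : i ≠ l) (jk : j ≠ k)
    (jl : j ≠ l) (kl : k ≠ l) : Function.Injective ![i, j, k, l] := by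
  intro a b hab
  fin_cases a <;> fin_cases b
  all_goals
    first
    | rfl
    | exact (ij (by simpa using hab)).elim
    | exact (ij (by simpa using hab.symm)).elim
    | exact (ik (by simpa using hab)).elim
    | exact (ik (by simpa using hab.symm)).elim
    | exact (il (by simpa using hab)).elim
    | exact (il (by simpa using hab.symm)).elim
    | exact (jk (by simpa using hab)).elim
    | exact (jk (by simpa using hab.symm)).elim
    | exact (jl (by simpa using hab)).elim
    | exact (jl (by simpa using hab.symm)).elim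
    | exact (kl (by simpa using hab)).elim
    | exact (kl (by simpa using hab.symm)).elim

/-- a random `r`-tuple of elements of `W` is injective and avoids `T` and `Q` with probability
`≥ 1 - 1/8 - 1/4 - 1/4` (union bound over functions `Fin r → W`) -/
theorem sample {V : Type} [Fintype V] (W : Finset V) (r : ℕ) (T : V → V → V → Prop)
    (Q : V → V → V → V → Prop) (hW : 0 < W.card) (h2 : 4 * r ^ 2 ≤ W.card)
    (h3 : 4 * r ^ 3 * ((univ : Finset (V × V × V)).filter (fun p => T p.1 p.2.1 p.2.2)).card
      ≤ W.card ^ 3)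
    (h4 : 4 * r ^ 4 * ((univ : Finset (V × V × V × V)).filter
      (fun p => Q p.1 p.2.1 p.2.2.1 p.2.2.2)).card ≤ W.card ^ 4) :
    ∃ X : Finset V, X ⊆ W ∧ X.card = r ∧
      (∀ x ∈ X, ∀ y ∈ X, ∀ z ∈ X, x ≠ y → y ≠ z → x ≠ z → ¬ T x y z) ∧
      (∀ x ∈ X, ∀ y ∈ X, ∀ z ∈ X, ∀ w ∈ X, x ≠ y → x ≠ z → x ≠ w → y ≠ z → y ≠ w → z ≠ w →
        ¬ Q x y z w) := by
  have n2 : ((univ : Finset (Fin 2 → V)).filter (t16P2 W)).card ≤ W.card := by
    refine Finset.card_le_card_of_injOn (fun g => g 0) ?_ ?_
    · intro g hg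
      exact (Finset.mem_filter.1 (Finset.mem_coe.1 hg)).2.2
    · intro g hg g' hg' h
      have a := (Finset.mem_filter.1 (Finset.mem_coe.1 hg)).2.1
      have b := (Finset.mem_filter.1 (Finset.mem_coe.1 hg')).2.1
      have h' : g 0 = g' 0 := h
      funext i
      fin_cases i
      · exact h'
      · change g 1 = g' 1
        rw [← a, ← b, h']
  have n3 : ((univ : Finset (Fin 3 → V)).filter (t16P3 T)).card ≤
      ((univ : Finset (V × V × V)).filter (fun p => T p.1 p.2.1 p.2.2)).card := by
    refine Finset.card_le_card_of_injOn (fun g => (g 0, g 1, g 2)) ?_ ?_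
    · intro g hg
      rw [Finset.mem_coe, Finset.mem_filter]
      exact ⟨Finset.mem_univ _, (Finset.mem_filter.1 (Finset.mem_coe.1 hg)).2⟩
    · intro g _ g' _ h
      simp only [Prod.mk.injEq] at h
      funext i
      fin_cases i
      · exact h.1
      · exact h.2.1
      · exact h.2.2
  have n4 : ((univ : Finset (Fin 4 → V)).filter (t16P4 Q)).card ≤
      ((univ : Finset (V × V × V × V)).filter
        (fun p => Q p.1 p.2.1 p.2.2.1 p.2.2.2)).card := by
    refine Finset.card_le_card_of_injOn (fun g => (g 0, g 1, g 2, g 3)) ?_ ?_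
    · intro g hg
      rw [Finset.mem_coe, Finset.mem_filter]
      exact ⟨Finset.mem_univ _, (Finset.mem_filter.1 (Finset.mem_coe.1 hg)).2⟩
    · intro g _ g' _ h
      simp only [Prod.mk.injEq] at h
      funext i
      fin_cases i
      · exact h.1
      · exact h.2.1
      · exact h.2.2.1
      · exact h.2.2.2
  have b2 := t16_union W hW r 2 (t16P2 W) (by
    calc 4 * r ^ 2 * _ ≤ W.card * W.card := Nat.mul_le_mul h2 n2
      _ = W.card ^ 2 := by ring)
  have b3 := t16_union W hW r 3 (t16P3 T) ((Nat.mul_le_mul_left _ n3).trans h3)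
  have b4 := t16_union W hW r 4 (t16P4 Q) ((Nat.mul_le_mul_left _ n4).trans h4)
  set F := Fintype.piFinset (fun _ : Fin r => W) with hF
  set B2 := F.filter (fun f => ∃ e : Fin 2 → Fin r, Function.Injective e ∧ t16P2 W (f ∘ e)) with hB2
  set B3 := F.filter (fun f => ∃ e : Fin 3 → Fin r, Function.Injective e ∧ t16P3 T (f ∘ e)) with hB3
  set B4 := F.filter (fun f => ∃ e : Fin 4 → Fin r, Function.Injective e ∧ t16P4 Q (f ∘ e)) with hB4
  have hFc : F.card = W.card ^ r := Fintype.card_piFinset_const W r
  have hFpos : 0 < W.card ^ r := by positivity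
  have hlt : (B2 ∪ (B3 ∪ B4)).card < F.card := by
    have e1 := Finset.card_union_le B2 (B3 ∪ B4)
    have e2 := Finset.card_union_le B3 B4
    omega
  obtain ⟨f, hf, hfn⟩ := Finset.exists_mem_notMem_of_card_lt_card hlt
  rw [Finset.mem_union, Finset.mem_union, not_or, not_or] at hfn
  obtain ⟨f2, f3, f4⟩ := hfn
  have hfW : ∀ i, f i ∈ W := fun i => (Fintype.mem_piFinset.1 hf) i
  have f2' : ∀ e : Fin 2 → Fin r, Function.Injective e → ¬ t16P2 W (f ∘ e) :=
    fun e he hP => f2 (Finset.mem_filter.2 ⟨hf, e, he, hP⟩)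
  have f3' : ∀ e : Fin 3 → Fin r, Function.Injective e → ¬ t16P3 T (f ∘ e) :=
    fun e he hP => f3 (Finset.mem_filter.2 ⟨hf, e, he, hP⟩)
  have f4' : ∀ e : Fin 4 → Fin r, Function.Injective e → ¬ t16P4 Q (f ∘ e) :=
    fun e he hP => f4 (Finset.mem_filter.2 ⟨hf, e, he, hP⟩)
  have hinj : Function.Injective f := by
    intro i j hij
    by_contra hne
    refine f2' ![i, j] ?_ ⟨by simpa using hij, by simpa using hfW i⟩
    intro a b hab
    fin_cases a <;> fin_cases b
    · rfl
    · exact absurd (by simpa using hab) hne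
    · exact absurd (by simpa using hab.symm) hne
    · rfl
  refine ⟨univ.image f, ?_, ?_, ?_, ?_⟩
  · intro x hx
    obtain ⟨i, -, rfl⟩ := Finset.mem_image.1 hx
    exact hfW i
  · rw [Finset.card_image_of_injective _ hinj, Finset.card_univ, Fintype.card_fin]
  · intro x hx y hy z hz hxy hyz hxz hT
    obtain ⟨i, -, rfl⟩ := Finset.mem_image.1 hx
    obtain ⟨j, -, rfl⟩ := Finset.mem_image.1 hy
    obtain ⟨k, -, rfl⟩ := Finset.mem_image.1 hz
    have ij : i ≠ j := fun h => hxy (by rw [h])
    have jk : j ≠ k := fun h => hyz (by rw [h])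
    have ik : i ≠ k := fun h => hxz (by rw [h])
    exact f3' ![i, j, k] (t16_inj3 ij jk ik) (by simpa [t16P3] using hT)
  · intro x hx y hy z hz w hw hxy hxz hxw hyz hyw hzw hQ
    obtain ⟨i, -, rfl⟩ := Finset.mem_image.1 hx
    obtain ⟨j, -, rfl⟩ := Finset.mem_image.1 hy
    obtain ⟨k, -, rfl⟩ := Finset.mem_image.1 hz
    obtain ⟨l, -, rfl⟩ := Finset.mem_image.1 hw
    have ij : i ≠ j := fun h => hxy (by rw [h])
    have ik : i ≠ k := fun h => hxz (by rw [h])
    have il : i ≠ l := fun h => hxw (by rw [h])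
    have jk : j ≠ k := fun h => hyz (by rw [h])
    have jl : j ≠ l := fun h => hyw (by rw [h])
    have kl : k ≠ l := fun h => hzw (by rw [h])
    exact f4' ![i, j, k, l] (t16_inj4 ij ik il jk jl kl) (by simpa [t16P4] using hQ)

end PF61
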