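import Pool.Agent.LibPF61.Defs

namespace PF61
open Finset
open scoped Classical

/-- transitive subtournaments: induction on `k`; take any `v ∈ X`, the larger of
`{x | R v x}`, `{x | R x v}` has at least `2 ^ (k - 1)` elements -/
theorem transitive_chain {V : Type} (R : V → V → Prop) (k : ℕ) (X : Finset V)
    (hX : 2 ^ k ≤ X.card) (hR : ∀ x ∈ X, ∀ y ∈ X, x ≠ y → R x y ∨ R y x) :
    ∃ b : List V, b.length = k ∧ b.Nodup ∧ (∀ v ∈ b, v ∈ X) ∧ b.Pairwise R := by
  induction k generalizing X with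
  | zero => exact ⟨[], rfl, List.nodup_nil, by simp, List.Pairwise.nil⟩
  | succ k ih =>
    have hpos : 0 < X.card := lt_of_lt_of_le (by positivity) hX
    obtain ⟨v, hv⟩ := Finset.card_pos.1 hpos
    set A := (X.erase v).filter (fun x => R v x) with hA
    set B := (X.erase v).filter (fun x => R x v) with hB
    have hAB : X.erase v ⊆ A ∪ B := by
      intro x hx
      have hx2 := Finset.mem_erase.1 hx
      rcases hR v hv x hx2.2 (Ne.symm hx2.1) with h | h
      · exact Finset.mem_union_left _ (Finset.mem_filter.2 ⟨hx, h⟩)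
      · exact Finset.mem_union_right _ (Finset.mem_filter.2 ⟨hx, h⟩)
    have hc : X.card - 1 ≤ A.card + B.card := by
      rw [← Finset.card_erase_of_mem hv]
      exact (Finset.card_le_card hAB).trans (Finset.card_union_le _ _)
    have h2 : 2 ^ (k + 1) = 2 ^ k + 2 ^ k := by rw [pow_succ]; ring
    have hAX : A ⊆ X := (Finset.filter_subset _ _).trans (Finset.erase_subset _ _)
    have hBX : B ⊆ X := (Finset.filter_subset _ _).trans (Finset.erase_subset _ _)
    have hor : 2 ^ k ≤ A.card ∨ 2 ^ k ≤ B.card := by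
      by_contra hcon
      push Not at hcon
      omega
    rcases hor with h | h
    · obtain ⟨b, hb1, hb2, hb3, hb4⟩ := ih A h (fun x hx y hy => hR x (hAX hx) y (hAX hy))
      refine ⟨v :: b, by simp [hb1], ?_, ?_, ?_⟩
      · rw [List.nodup_cons]
        refine ⟨fun hvb => ?_, hb2⟩
        have := hb3 v hvb
        exact (Finset.mem_erase.1 (Finset.mem_filter.1 this).1).1 rfl
      · intro w hw
        rcases List.mem_cons.1 hw with rfl | hw
        · exact hv
        · exact hAX (hb3 w hw)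
      · rw [List.pairwise_cons]
        exact ⟨fun w hw => (Finset.mem_filter.1 (hb3 w hw)).2, hb4⟩
    · obtain ⟨b, hb1, hb2, hb3, hb4⟩ := ih B h (fun x hx y hy => hR x (hBX hx) y (hBX hy))
      refine ⟨b ++ [v], by simp [hb1], ?_, ?_, ?_⟩
      · rw [List.nodup_append]
        refine ⟨hb2, List.nodup_singleton v, ?_⟩
        intro w hw w' hw'
        rw [List.mem_singleton] at hw'
        subst hw'
        exact (Finset.mem_erase.1 (Finset.mem_filter.1 (hb3 w hw)).1).1
      · intro w hw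
        rcases List.mem_append.1 hw with hw | hw
        · exact hBX (hb3 w hw)
        · rw [List.mem_singleton] at hw; subst hw; exact hv
      · rw [List.pairwise_append]
        refine ⟨hb4, List.pairwise_singleton _ _, ?_⟩
        intro w hw w' hw'
        rw [List.mem_singleton] at hw'
        subst hw'
        exact (Finset.mem_filter.1 (hb3 w hw)).2

/-- `R x y := ∀ z ∈ X, z ≠ x → z ≠ y → χ x y ∉ L → χ y z ≠ χ x y` is total on `X` -/
theorem good_of_set {V C : Type} (χ : V → V → C) (hχ : ∀ u v, χ u v = χ v u) (L : Finset C)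
    (X : Finset V) (k : ℕ) (hX : 2 ^ k ≤ X.card)
    (h3 : ∀ x ∈ X, ∀ y ∈ X, ∀ z ∈ X, x ≠ y → y ≠ z → x ≠ z →
      ¬ (χ x y ∉ L ∧ χ x y = χ y z ∧ χ x y = χ x z))
    (h4 : ∀ x ∈ X, ∀ y ∈ X, ∀ z ∈ X, ∀ w ∈ X, x ≠ y → x ≠ z → x ≠ w → y ≠ z → y ≠ w → z ≠ w →
      ¬ (χ x y ∉ L ∧ χ x y = χ z w)) :
    ∃ b : List V, b.length = k ∧ (∀ v ∈ b, v ∈ X) ∧ Good χ L b := by
  set R : V → V → Prop := fun x y => ∀ z ∈ X, z ≠ x → z ≠ y → χ x y ∉ L → χ y z ≠ χ x y with hRdef
  have hR : ∀ x ∈ X, ∀ y ∈ X, x ≠ y → R x y ∨ R y x := by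
    intro x hx y hy hxy
    by_contra hcon
    rw [not_or] at hcon
    obtain ⟨c1, c2⟩ := hcon
    simp only [hRdef] at c1 c2
    push Not at c1 c2
    obtain ⟨z, hz, hzx, hzy, hL, e1⟩ := c1
    obtain ⟨w, hw, hwy, hwx, hL2, e2⟩ := c2
    rw [hχ y x] at e2
    by_cases hzw : z = w
    · subst hzw
      exact h3 x hx y hy z hz hxy (Ne.symm hzy) (Ne.symm hzx) ⟨hL, e1.symm, e2.symm⟩
    · refine h4 x hx w hw y hy z hz (Ne.symm hwx) hxy (Ne.symm hzx) hwy (Ne.symm hzw)
        (Ne.symm hzy) ⟨by rw [e2]; exact hL, by rw [e2, e1]⟩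
  obtain ⟨b, hb1, hb2, hb3, hb4⟩ := transitive_chain R k X hX hR
  refine ⟨b, hb1, hb3, ?_⟩
  clear hb1
  induction b with
  | nil => trivial
  | cons v b ih =>
    rw [List.nodup_cons] at hb2
    rw [List.pairwise_cons] at hb4
    have hv : v ∈ X := hb3 v (List.mem_cons_self)
    have hb3' : ∀ w ∈ b, w ∈ X := fun w hw => hb3 w (List.mem_cons_of_mem _ hw)
    refine ⟨hb2.1, ?_, ih hb2.2 hb3' hb4.2⟩
    intro x hx y hy z hz hyz hL e
    have hxv : x ≠ v := fun h => hb2.1 (h ▸ hx)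
    have hyv : y ≠ v := fun h => hb2.1 (h ▸ hy)
    have hzv : z ≠ v := fun h => hb2.1 (h ▸ hz)
    have hvx := hb4.1 x hx
    by_cases hxy : x = y
    · subst hxy
      exact hvx z (hb3' z hz) hzv (Ne.symm hyz) hL e.symm
    · by_cases hxz : x = z
      · subst hxz
        refine hvx y (hb3' y hy) hyv (Ne.symm hxy) hL ?_
        rw [hχ x y]; exact e.symm
      · exact h4 v hv x (hb3' x hx) y (hb3' y hy) z (hb3' z hz) (Ne.symm hxv) (Ne.symm hyv)
          (Ne.symm hzv) hxy hxz hyz ⟨hL, e⟩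

end PF61
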