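import Pool.Agent.LibPF61.T14
import Pool.Agent.LibPF61.T16
import Pool.Agent.LibPF61.T17

namespace PF61
open Finset
open scoped Classical

/-- `r = 2 ^ k`, `δ1` small in terms of `r`, `α` -/
theorem good_exists (k : ℕ) (α : ℝ) (hα : 0 < α) :
    ∃ δ1 : ℝ, 0 < δ1 ∧ ∃ n0 : ℕ, ∀ (V C : Type) [Fintype V] [Fintype C] (χ : V → V → C)
      (L : Finset C), (∀ u v, χ u v = χ v u) → n0 ≤ Fintype.card V →
      (∀ c, c ∉ L → (tot χ c : ℝ) ≤ δ1 * (Fintype.card V : ℝ) ^ 2) →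
      ∀ W : Finset V, α * (Fintype.card V : ℝ) ≤ (W.card : ℝ) →
        ∃ b : List V, b.length = k ∧ (∀ v ∈ b, v ∈ W) ∧ Good χ L b := by
  set r : ℕ := 2 ^ k with hr
  have hr0 : (0 : ℝ) < r := by
    have : 0 < r := by positivity
    exact_mod_cast this
  refine ⟨min ((α ^ 3 / (4 * r ^ 3)) ^ 2) (α ^ 4 / (4 * r ^ 4)), lt_min (by positivity)
    (by positivity), ⌈4 * r ^ 2 / α⌉₊, ?_⟩
  set δ1 : ℝ := min ((α ^ 3 / (4 * r ^ 3)) ^ 2) (α ^ 4 / (4 * r ^ 4)) with hδ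
  have hδ0 : 0 < δ1 := lt_min (by positivity) (by positivity)
  have hδa : Real.sqrt δ1 ≤ α ^ 3 / (4 * r ^ 3) := by
    refine Real.sqrt_le_iff.2 ⟨by positivity, min_le_left _ _⟩
  have hδb : δ1 ≤ α ^ 4 / (4 * r ^ 4) := min_le_right _ _
  intro V C _ _ χ L hχ hn hL W hW
  set n : ℝ := (Fintype.card V : ℝ) with hndef
  have hn' : 4 * (r : ℝ) ^ 2 / α ≤ n := Nat.ceil_le.1 hn
  have hn1 : 4 * (r : ℝ) ^ 2 ≤ α * n := by
    rw [div_le_iff₀ hα] at hn'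
    linarith
  have hαn : 0 < α * n := lt_of_lt_of_le (by positivity) hn1
  have hn0 : 0 < n := pos_of_mul_pos_right hαn hα.le
  have hWn : 4 * (r : ℝ) ^ 2 ≤ W.card := hn1.trans hW
  have hT := tri_count χ hχ L δ1 hδ0.le hL
  have hQ := quad_count χ L δ1 hL hδ0.le
  obtain ⟨X, hX1, hX2, hX3, hX4⟩ := sample W r
    (fun x y z => x ≠ y ∧ y ≠ z ∧ x ≠ z ∧ χ x y ∉ L ∧ χ x y = χ y z ∧ χ x y = χ x z)
    (fun x y z w => x ≠ y ∧ z ≠ w ∧ χ x y ∉ L ∧ χ x y = χ z w)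
    (by
      have : (0 : ℝ) < W.card := lt_of_lt_of_le (by positivity) hWn
      exact_mod_cast this)
    (by exact_mod_cast hWn)
    (by
      have h1 : (4 * (r : ℝ) ^ 3) * (Real.sqrt δ1 * n ^ 3) ≤ (W.card : ℝ) ^ 3 := by
        calc (4 * (r : ℝ) ^ 3) * (Real.sqrt δ1 * n ^ 3)
            ≤ (4 * (r : ℝ) ^ 3) * (α ^ 3 / (4 * r ^ 3) * n ^ 3) := by gcongr
          _ = (α * n) ^ 3 := by field_simp
          _ ≤ (W.card : ℝ) ^ 3 := pow_le_pow_left₀ hαn.le hW 3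
      have h2 := (mul_le_mul_of_nonneg_left hT (by positivity : (0 : ℝ) ≤ 4 * (r : ℝ) ^ 3)).trans h1
      exact_mod_cast h2)
    (by
      have h1 : (4 * (r : ℝ) ^ 4) * (δ1 * n ^ 4) ≤ (W.card : ℝ) ^ 4 := by
        calc (4 * (r : ℝ) ^ 4) * (δ1 * n ^ 4)
            ≤ (4 * (r : ℝ) ^ 4) * (α ^ 4 / (4 * r ^ 4) * n ^ 4) := by gcongr
          _ = (α * n) ^ 4 := by field_simp
          _ ≤ (W.card : ℝ) ^ 4 := pow_le_pow_left₀ hαn.le hW 4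
      have h2 := (mul_le_mul_of_nonneg_left hQ (by positivity : (0 : ℝ) ≤ 4 * (r : ℝ) ^ 4)).trans h1
      exact_mod_cast h2)
  obtain ⟨b, hb1, hb2, hb3⟩ := good_of_set χ hχ L X k (by rw [hX2])
    (fun x hx y hy z hz h1 h2 h3 h => hX3 x hx y hy z hz h1 h2 h3 ⟨h1, h2, h3, h⟩)
    (fun x hx y hy z hz w hw h1 h2 h3 h4 h5 h6 h =>
      hX4 x hx y hy z hz w hw h1 h2 h3 h4 h5 h6 ⟨h1, h6, h⟩)
  exact ⟨b, hb1, fun v hv => hX1 (hb2 v hv), hb3⟩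

end PF61
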