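import Pool.Agent.LibPF61.T24

namespace PF61
open Finset
open scoped Classical

variable {V C : Type} [Fintype V] [Fintype C]

omit [Fintype V] [Fintype C] in
theorem t25_append (χ : V → V → C) (S : Finset C) (A A' : Finset V) (P P' : List (List V))
    (hP : PS χ S A P) (hP' : PS χ S A' P') (hd : Disjoint A A') :
    PS χ S (A ∪ A') (P ++ P') := by
  refine ⟨fun l hl => ?_, fun l hl => ?_, ?_, fun v hv => ?_⟩
  · rcases List.mem_append.1 hl with h | h
    · exact hP.ne l h
    · exact hP'.ne l h
  · rcases List.mem_append.1 hl with h | h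
    · exact hP.chain l h
    · exact hP'.chain l h
  · rw [List.flatten_append, List.nodup_append]
    refine ⟨hP.nodup, hP'.nodup, fun v hv w hw hvw => ?_⟩
    subst hvw
    exact (Finset.disjoint_left.1 hd (hP.sub v hv)) (hP'.sub v hw)
  · rw [List.flatten_append] at hv
    rw [Finset.mem_union]
    rcases List.mem_append.1 hv with h | h
    · exact Or.inl (hP.sub v h)
    · exact Or.inr (hP'.sub v h)

/-- several disjoint blocks at once: concatenate the systems of `block` -/
theorem blocks_ps (χ : V → V → C) (hχ : ∀ u v, χ u v = χ v u) (L : Finset C) {M : ℕ} (hM : 0 < M)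
    (a : ℕ) (haM : 2 * a ≤ M) (N : ℕ) (hN : 1 ≤ N) (B : List (List V))
    (hB : ∀ b ∈ B, Good χ L b) (hnd : B.flatten.Nodup) :
    ∃ P : (C → Fin M) → List (List V),
      (∀ ω, PS χ (SS L a ω) B.flatten.toFinset (P ω) ∧
        (P ω).length ≤ (2 * N + 2) * B.length) ∧
      (2 * ((a : ℝ) / M) - 3 / N) * (B.flatten.length : ℝ) * (Fintype.card (C → Fin M) : ℝ) ≤
      ∑ ω, ((P ω).flatten.length : ℝ) := by
  induction B with
  | nil =>
    refine ⟨fun _ => [], fun ω => ⟨⟨by simp, by simp, by simp, by simp⟩, by simp⟩, by simp⟩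
  | cons b B ih =>
    rw [List.flatten_cons, List.nodup_append] at hnd
    obtain ⟨P₁, h1, h2⟩ := block χ hχ L hM a haM N hN b (hB b (by simp))
    obtain ⟨P₂, h3, h4⟩ := ih (fun c hc => hB c (List.mem_cons_of_mem _ hc)) hnd.2.1
    refine ⟨fun ω => P₁ ω ++ P₂ ω, fun ω => ⟨?_, ?_⟩, ?_⟩
    · rw [List.flatten_cons, List.toFinset_append]
      refine t25_append χ _ _ _ _ _ (h1 ω).1 (h3 ω).1 ?_
      rw [Finset.disjoint_left]
      intro v hv hv'
      exact hnd.2.2 v (List.mem_toFinset.1 hv) v (List.mem_toFinset.1 hv') rfl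
    · rw [List.length_append, List.length_cons, mul_add, mul_one, add_comm]
      exact add_le_add (h3 ω).2 (h1 ω).2
    · simp only [List.flatten_append, List.length_append, List.flatten_cons, Nat.cast_add,
        Finset.sum_add_distrib]
      linarith

end PF61
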