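import Pool.Agent.LibPF61.Defs

namespace PF61
open Finset
open scoped Classical

/-- choice of a good `ω` by averaging -/
theorem choose_omega {Ω : Type} [Fintype Ω] [Nonempty Ω] (f g : Ω → ℝ) (E : Ω → Prop)
    (n c x y z w : ℝ) (hf0 : ∀ ω, 0 ≤ f ω) (hf : ∀ ω, f ω ≤ n) (hg : ∀ ω, 0 ≤ g ω)
    (hfs : c * (Fintype.card Ω : ℝ) ≤ ∑ ω, f ω) (hgs : ∑ ω, g ω ≤ x * (Fintype.card Ω : ℝ))
    (hE : ((univ.filter (fun ω => E ω)).card : ℝ) ≤ y * (Fintype.card Ω : ℝ))
    (hz : 0 < z) (hw : 0 < w) (hwn : w ≤ n) (h : (x / z + y) * n < w) :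
    ∃ ω, ¬ E ω ∧ g ω ≤ z ∧ c - w ≤ f ω := by
  set N : ℝ := (Fintype.card Ω : ℝ) with hN
  have hN0 : 0 < N := by
    rw [hN]
    exact_mod_cast Fintype.card_pos
  have hn0 : 0 < n := lt_of_lt_of_le hw hwn
  -- Markov
  have hM : ((univ.filter (fun ω => z < g ω)).card : ℝ) ≤ x / z * N := by
    have h1 : ((univ.filter (fun ω => z < g ω)).card : ℝ) * z ≤ ∑ ω, g ω := by
      calc ((univ.filter (fun ω => z < g ω)).card : ℝ) * z
          = ∑ _ω ∈ univ.filter (fun ω => z < g ω), z := by
            rw [Finset.sum_const, nsmul_eq_mul]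
        _ ≤ ∑ ω ∈ univ.filter (fun ω => z < g ω), g ω := by
            apply Finset.sum_le_sum
            intro ω hω
            rw [mem_filter] at hω
            exact hω.2.le
        _ ≤ ∑ ω, g ω := Finset.sum_le_sum_of_subset_of_nonneg (filter_subset _ _)
            (fun ω _ _ => hg ω)
    have h2 : ((univ.filter (fun ω => z < g ω)).card : ℝ) ≤ x * N / z := by
      rw [le_div_iff₀ hz]
      linarith
    have h3 : x * N / z = x / z * N := by ring
    linarith
  set B : Finset Ω := univ.filter (fun ω => E ω ∨ z < g ω) with hB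
  have hBc : (B.card : ℝ) ≤ (x / z + y) * N := by
    have h1 : B.card ≤ (univ.filter (fun ω => E ω)).card + (univ.filter (fun ω => z < g ω)).card := by
      rw [hB, Finset.filter_or]
      exact Finset.card_union_le _ _
    have h2 : (B.card : ℝ) ≤ ((univ.filter (fun ω => E ω)).card : ℝ) +
        ((univ.filter (fun ω => z < g ω)).card : ℝ) := by exact_mod_cast h1
    linarith
  have hBn : (B.card : ℝ) * n < w * N := by
    have h1 : (B.card : ℝ) * n ≤ (x / z + y) * N * n := mul_le_mul_of_nonneg_right hBc hn0.le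
    have h2 : (x / z + y) * N * n = ((x / z + y) * n) * N := by ring
    have h3 : ((x / z + y) * n) * N < w * N := mul_lt_mul_of_pos_right h hN0
    linarith
  by_contra hcon
  push Not at hcon
  have hnB : ∀ ω, ω ∉ B → f ω < c - w := by
    intro ω hω
    rw [hB, mem_filter] at hω
    push Not at hω
    have := hω (mem_univ _)
    exact hcon ω this.1 this.2
  by_cases hcw : 0 ≤ c - w
  · have h1 : ∑ ω, f ω ≤ (B.card : ℝ) * n + (c - w) * N := by
      rw [← Finset.sum_add_sum_compl B]
      have h2 : ∑ ω ∈ B, f ω ≤ (B.card : ℝ) * n := by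
        calc ∑ ω ∈ B, f ω ≤ ∑ _ω ∈ B, n := Finset.sum_le_sum (fun ω _ => hf ω)
          _ = (B.card : ℝ) * n := by rw [Finset.sum_const, nsmul_eq_mul]
      have h3 : ∑ ω ∈ Bᶜ, f ω ≤ (c - w) * N := by
        calc ∑ ω ∈ Bᶜ, f ω ≤ ∑ _ω ∈ Bᶜ, (c - w) :=
              Finset.sum_le_sum (fun ω hω => (hnB ω (by simpa using hω)).le)
          _ = (Bᶜ.card : ℝ) * (c - w) := by rw [Finset.sum_const, nsmul_eq_mul]
          _ ≤ N * (c - w) := by
              apply mul_le_mul_of_nonneg_right _ hcw
              rw [hN]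
              exact_mod_cast Finset.card_le_univ _
          _ = (c - w) * N := by ring
      linarith
    have h4 : (c - w) * N = c * N - w * N := by ring
    linarith
  · push Not at hcw
    have hall : ∀ ω, ω ∈ B := by
      intro ω
      by_contra hω
      have := hnB ω hω
      have := hf0 ω
      linarith
    have hBu : B = univ := by
      ext ω
      simp [hall ω]
    rw [hBu, Finset.card_univ, ← hN] at hBn
    have : w * N ≤ N * n := by nlinarith
    linarith

end PF61
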