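import Pool.Agent.LibPF61.Defs

namespace PF61
open Finset
open scoped Classical

variable {V C : Type} [Fintype V] [Fintype C]

theorem t27_chain {V : Type} (R : V → V → Prop) {l l' : List V} (h : l.IsChain R)
    (hl : l' <:+: l) : l'.IsChain R := by
  obtain ⟨s, t, rfl⟩ := hl
  exact (List.IsChain.right_of_append (List.IsChain.left_of_append h))

theorem t27_one {V : Type} (bad : V → Prop) (l : List V) : ∃ l' : List V, l' <:+: l ∧
    (∀ x ∈ l'.head?, ¬ bad x) ∧ (∀ x ∈ l'.getLast?, ¬ bad x) ∧
    l.length ≤ l'.length + (l.filter (fun v => decide (bad v))).length := by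
  set p : V → Bool := fun v => decide (bad v) with hp
  have hpre : (l.dropWhile p).rdropWhile p <+: l.dropWhile p := List.rdropWhile_prefix p _
  refine ⟨(l.dropWhile p).rdropWhile p, ?_, ?_, ?_, ?_⟩
  · exact hpre.isInfix.trans (List.dropWhile_suffix p).isInfix
  · intro x hx
    obtain ⟨t, ht⟩ := hpre
    have h1 : x ∈ (l.dropWhile p).head? := by
      rw [← ht]
      cases h2 : (l.dropWhile p).rdropWhile p with
      | nil => rw [h2] at hx; simp at hx
      | cons y ys => rw [h2] at hx; simpa using hx
    have h3 := List.head?_dropWhile_not p l
    rw [Option.mem_def.1 h1] at h3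
    simpa [hp] using h3
  · intro x hx
    have hne : (l.dropWhile p).rdropWhile p ≠ [] := by
      intro h; rw [h] at hx; simp at hx
    have h1 := List.rdropWhile_last_not p (l.dropWhile p) hne
    rw [List.getLast?_eq_getLast_of_ne_nil hne] at hx
    simp only [Option.mem_def, Option.some.injEq] at hx
    rw [hx] at h1
    simpa [hp] using h1
  · have e1 : l.length = (l.takeWhile p).length + (l.dropWhile p).length := by
      rw [← List.length_append, List.takeWhile_append_dropWhile]
    have e2 : (l.dropWhile p).length = ((l.dropWhile p).rdropWhile p).length +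
        ((l.dropWhile p).rtakeWhile p).length := by
      rw [← List.length_append, List.rdropWhile_append_rtakeWhile]
    have e3 : (l.filter p).length = (l.takeWhile p).length + ((l.dropWhile p).filter p).length := by
      conv_lhs => rw [← List.takeWhile_append_dropWhile (p := p) (l := l)]
      rw [List.filter_append, List.length_append]
      congr 2
      rw [List.filter_eq_self]
      intro a ha
      exact List.mem_takeWhile_imp ha
    have e4 : ((l.dropWhile p).rtakeWhile p).length ≤ ((l.dropWhile p).filter p).length := by
      conv_rhs => rw [← List.rdropWhile_append_rtakeWhile (p := p) (l := l.dropWhile p)]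
      rw [List.filter_append, List.length_append]
      have : ((l.dropWhile p).rtakeWhile p).filter p = (l.dropWhile p).rtakeWhile p := by
        rw [List.filter_eq_self]
        intro a ha
        exact List.mem_rtakeWhile_imp ha
      rw [this]
      omega
    omega

theorem t27_flatten {V : Type} (P : List (List V)) :
    (P.filter (fun l => decide (l ≠ []))).flatten = P.flatten := by
  induction P with
  | nil => simp
  | cons l P ih =>
    by_cases h : l = []
    · rw [List.filter_cons_of_neg (by simp [h]), ih, h]
      simp
    · rw [List.filter_cons_of_pos (by simp [h]), List.flatten_cons, List.flatten_cons, ih]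

/-- cut off bad vertices at both ends of the paths (`List.dropWhile`, `List.rdropWhile`) -/
theorem trim (χ : V → V → C) (S : Finset C) (A : Finset V) (P : List (List V)) (hP : PS χ S A P)
    (bad : V → Prop) :
    ∃ P' : List (List V), PS χ S A P' ∧ P'.length ≤ P.length ∧
      (∀ l ∈ P', (∀ x ∈ l.head?, ¬ bad x) ∧ (∀ x ∈ l.getLast?, ¬ bad x)) ∧
      (P.flatten.length : ℝ) - ((univ.filter (fun v => bad v)).card : ℝ) ≤
        (P'.flatten.length : ℝ) := by
  choose f hf1 hf2 hf3 hf4 using t27_one bad
  have hsub : ∀ Q : List (List V), (Q.map f).flatten.Sublist Q.flatten := by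
    intro Q
    induction Q with
    | nil => simp
    | cons l Q ih =>
      rw [List.map_cons, List.flatten_cons, List.flatten_cons]
      exact (hf1 l).sublist.append ih
  have hlen : ∀ Q : List (List V), Q.flatten.length ≤ (Q.map f).flatten.length +
      (Q.flatten.filter (fun v => decide (bad v))).length := by
    intro Q
    induction Q with
    | nil => simp
    | cons l Q ih =>
      rw [List.map_cons, List.flatten_cons, List.flatten_cons, List.length_append,
        List.length_append, List.filter_append, List.length_append]
      have := hf4 l
      omega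
  have hbad : (P.flatten.filter (fun v => decide (bad v))).length ≤
      (univ.filter (fun v => bad v)).card := by
    have h1 : (P.flatten.filter (fun v => decide (bad v))).Nodup := hP.nodup.filter _
    rw [← List.toFinset_card_of_nodup h1]
    apply Finset.card_le_card
    intro x hx
    rw [List.mem_toFinset, List.mem_filter] at hx
    rw [Finset.mem_filter]
    exact ⟨Finset.mem_univ _, by simpa using hx.2⟩
  refine ⟨(P.map f).filter (fun l => decide (l ≠ [])), ⟨?_, ?_, ?_, ?_⟩, ?_, ?_, ?_⟩
  · intro l hl
    simpa using (List.mem_filter.1 hl).2
  · intro l hl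
    obtain ⟨l0, hl0, rfl⟩ := List.mem_map.1 (List.mem_filter.1 hl).1
    exact t27_chain _ (hP.chain l0 hl0) (hf1 l0)
  · rw [t27_flatten]
    exact hP.nodup.sublist (hsub P)
  · rw [t27_flatten]
    intro v hv
    exact hP.sub v ((hsub P).subset hv)
  · calc _ ≤ (P.map f).length := List.length_filter_le _ _
      _ = P.length := List.length_map _
  · intro l hl
    obtain ⟨l0, hl0, rfl⟩ := List.mem_map.1 (List.mem_filter.1 hl).1
    exact ⟨hf2 l0, hf3 l0⟩
  · rw [t27_flatten]
    have h1 := hlen P
    have h2 : P.flatten.length ≤ (P.map f).flatten.length + (univ.filter (fun v => bad v)).card :=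
      by omega
    have h3 : (P.flatten.length : ℝ) ≤ ((P.map f).flatten.length : ℝ) +
        ((univ.filter (fun v => bad v)).card : ℝ) := by exact_mod_cast h2
    linarith

end PF61
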