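import Pool.Agent.LibPF61.Defs

namespace PF61
open Finset
open scoped Classical

variable {V C : Type} [Fintype V] [Fintype C]

/-- one connection: `x` and `y` outside `R` have at most `θ n` non-linked vertices each; `U` is the
set of used vertices of `R`.  Choose `z ∈ R \ U` linked to both (`θ n + θ n + |U| < |R|`), then
`w ∈ R \ (U ∪ {z})` in the common neighbourhood of `x, z`, then `w' ∈ R \ (U ∪ {z, w})` in the
common neighbourhood of `z, y`. -/
theorem connect_one (χ : V → V → C) (hχ : ∀ u v, χ u v = χ v u) (S : Finset C) (R U : Finset V)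
    (β θ : ℝ) (x y : V) 
    (hx : ((univ.filter (fun v => ¬ Linked χ S R β x v)).card : ℝ) ≤ θ * (Fintype.card V : ℝ))
    (hy : ((univ.filter (fun v => ¬ Linked χ S R β y v)).card : ℝ) ≤ θ * (Fintype.card V : ℝ))
    (h1 : 2 * θ * (Fintype.card V : ℝ) + (U.card : ℝ) < (R.card : ℝ))
    (h2 : (U.card : ℝ) + 2 < β * (Fintype.card V : ℝ)) :
    ∃ w z w' : V, w ∈ R ∧ z ∈ R ∧ w' ∈ R ∧ w ∉ U ∧ z ∉ U ∧ w' ∉ U ∧ w ≠ z ∧ w ≠ w' ∧ z ≠ w' ∧
      χ x w ∈ S ∧ χ w z ∈ S ∧ χ z w' ∈ S ∧ χ w' y ∈ S := by
  set Nx := univ.filter (fun v => ¬ Linked χ S R β x v) with hNx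
  set Ny := univ.filter (fun v => ¬ Linked χ S R β y v) with hNy
  have hz : ∃ z ∈ R, z ∉ Nx ∪ Ny ∪ U := by
    by_contra hcon
    push Not at hcon
    have h3 : R ⊆ Nx ∪ Ny ∪ U := hcon
    have h4 : R.card ≤ Nx.card + Ny.card + U.card :=
      (Finset.card_le_card h3).trans ((Finset.card_union_le _ _).trans
        (Nat.add_le_add_right (Finset.card_union_le _ _) _))
    have h5 : (R.card : ℝ) ≤ Nx.card + Ny.card + U.card := by exact_mod_cast h4
    linarith
  obtain ⟨z, hzR, hz⟩ := hz
  rw [mem_union, mem_union] at hz
  push Not at hz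
  obtain ⟨⟨hzx, hzy⟩, hzU⟩ := hz
  have hlx : Linked χ S R β x z := by
    by_contra h
    exact hzx (mem_filter.mpr ⟨mem_univ _, h⟩)
  have hly : Linked χ S R β y z := by
    by_contra h
    exact hzy (mem_filter.mpr ⟨mem_univ _, h⟩)
  unfold Linked at hlx hly
  -- choose w
  have hw : ∃ w ∈ R.filter (fun w => w ≠ x ∧ w ≠ z ∧ χ x w ∈ S ∧ χ z w ∈ S), w ∉ U := by
    by_contra hcon
    push Not at hcon
    have h4 := Finset.card_le_card (show R.filter _ ⊆ U from hcon)
    have h5 : ((R.filter (fun w => w ≠ x ∧ w ≠ z ∧ χ x w ∈ S ∧ χ z w ∈ S)).card : ℝ) ≤ U.card := by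
      exact_mod_cast h4
    linarith
  obtain ⟨w, hw, hwU⟩ := hw
  obtain ⟨hwR, -, hwz, hxw, hzw⟩ := mem_filter.mp hw
  have hw' : ∃ w' ∈ R.filter (fun w => w ≠ y ∧ w ≠ z ∧ χ y w ∈ S ∧ χ z w ∈ S),
      w' ∉ insert w U := by
    by_contra hcon
    push Not at hcon
    have h4 := (Finset.card_le_card (show R.filter _ ⊆ insert w U from hcon)).trans
      (Finset.card_insert_le w U)
    have h5 : ((R.filter (fun w => w ≠ y ∧ w ≠ z ∧ χ y w ∈ S ∧ χ z w ∈ S)).card : ℝ) ≤
        U.card + 1 := by
      exact_mod_cast h4
    linarith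
  obtain ⟨w', hw', hw'U⟩ := hw'
  obtain ⟨hwR', -, hwz', hyw', hzw'⟩ := mem_filter.mp hw'
  rw [mem_insert] at hw'U
  push Not at hw'U
  refine ⟨w, z, w', hwR, hzR, hwR', hwU, hzU, hw'U.2, hwz, hw'U.1.symm, hwz'.symm, hxw, ?_, hzw', ?_⟩
  · rw [hχ]; exact hzw
  · rw [hχ]; exact hyw'

/-- the induction behind `connect` -/
theorem t28_aux (χ : V → V → C) (hχ : ∀ u v, χ u v = χ v u) (S : Finset C) (A R : Finset V)
    (hAR : Disjoint A R) (β θ κ : ℝ) (P : List (List V))
    (hP : PS χ S A P)
    (hhead : ∀ l ∈ P, ∀ x ∈ l.head?,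
      ((univ.filter (fun v => ¬ Linked χ S R β x v)).card : ℝ) ≤ θ * (Fintype.card V : ℝ))
    (hlast : ∀ l ∈ P, ∀ x ∈ l.getLast?,
      ((univ.filter (fun v => ¬ Linked χ S R β x v)).card : ℝ) ≤ θ * (Fintype.card V : ℝ))
    (hlen : (P.length : ℝ) ≤ κ * (Fintype.card V : ℝ))
    (h1 : 2 * θ * (Fintype.card V : ℝ) + 3 * κ * (Fintype.card V : ℝ) < (R.card : ℝ))
    (h2 : 3 * κ * (Fintype.card V : ℝ) + 2 < β * (Fintype.card V : ℝ)) :
    ∃ l : List V, l.Nodup ∧ l.IsChain (fun u v => χ u v ∈ S) ∧
      P.flatten.length ≤ l.length ∧ (∀ v ∈ l, v ∈ P.flatten ∨ v ∈ R) ∧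
      ((l.toFinset ∩ R).card ≤ 3 * P.length) ∧
      (∀ y ∈ l.head?, ∃ l1 ∈ P, y ∈ l1.head?) := by
  induction P with
  | nil => exact ⟨[], List.nodup_nil, List.isChain_nil, by simp, by simp, by simp, by simp⟩
  | cons l1 P ih =>
    have hP' : PS χ S A P := by
      refine ⟨fun l hl => hP.ne l (List.mem_cons_of_mem _ hl),
        fun l hl => hP.chain l (List.mem_cons_of_mem _ hl), ?_, ?_⟩
      · have := hP.nodup
        rw [List.flatten_cons] at this
        exact (List.nodup_append.mp this).2.1
      · intro v hv
        apply hP.sub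
        rw [List.flatten_cons]
        exact List.mem_append_right _ hv
    have hlen' : (P.length : ℝ) + 1 ≤ κ * (Fintype.card V : ℝ) := by
      have := hlen
      rw [List.length_cons] at this
      push_cast at this
      exact this
    obtain ⟨l', hl1, hl2, hl3, hl4, hl5, hl6⟩ := ih hP'
      (fun l hl => hhead l (List.mem_cons_of_mem _ hl))
      (fun l hl => hlast l (List.mem_cons_of_mem _ hl)) (by linarith)
    have hne1 : l1 ≠ [] := hP.ne l1 List.mem_cons_self
    have hnd := hP.nodup
    rw [List.flatten_cons] at hnd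
    obtain ⟨hnd1, hnd2, hnd3⟩ := List.nodup_append.mp hnd
    have hl1A : ∀ v ∈ l1, v ∈ A := by
      intro v hv
      apply hP.sub
      rw [List.flatten_cons]
      exact List.mem_append_left _ hv
    have hl1R : ∀ v ∈ l1, v ∉ R := fun v hv => Finset.disjoint_left.mp hAR (hl1A v hv)
    rcases hl' : l' with _ | ⟨y, t⟩
    · refine ⟨l1, hnd1, hP.chain l1 List.mem_cons_self, ?_, ?_, ?_, ?_⟩
      · rw [List.flatten_cons, List.length_append]
        rw [hl'] at hl3
        simp only [List.length_nil] at hl3
        omega
      · intro v hv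
        left
        rw [List.flatten_cons]
        exact List.mem_append_left _ hv
      · have : l1.toFinset ∩ R = ∅ := by
          rw [Finset.eq_empty_iff_forall_notMem]
          intro v hv
          rw [mem_inter, List.mem_toFinset] at hv
          exact hl1R v hv.1 hv.2
        rw [this]; simp
      · intro z hz
        exact ⟨l1, List.mem_cons_self, hz⟩
    · -- connect the last vertex of l1 to y
      rw [hl'] at hl1 hl2 hl3 hl4 hl5 hl6
      obtain ⟨l2, hl2P, hyl2⟩ := hl6 y (by simp)
      set x := l1.getLast hne1 with hx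
      have hxl : x ∈ l1.getLast? := by
        rw [List.getLast?_eq_getLast_of_ne_nil hne1]
        rfl
      set U := (y :: t).toFinset ∩ R with hU
      have hUc : (U.card : ℝ) ≤ 3 * P.length := by exact_mod_cast hl5
      obtain ⟨w, z, w', hwR, hzR, hwR', hwU, hzU, hwU', hwz, hww', hzw', c1, c2, c3, c4⟩ :=
        connect_one χ hχ S R U β θ x y (hlast l1 List.mem_cons_self x hxl)
          (hhead l2 (List.mem_cons_of_mem _ hl2P) y hyl2) (by linarith) (by linarith)
      have hnotin : ∀ v ∈ R, v ∉ U → v ∉ y :: t := by
        intro v hv hvU hvl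
        exact hvU (mem_inter.mpr ⟨List.mem_toFinset.mpr hvl, hv⟩)
      have hdisj : ∀ v ∈ l1, v ∉ y :: t := by
        intro v hv hvl
        rcases hl4 v hvl with h | h
        · exact hnd3 v hv v h rfl
        · exact hl1R v hv h
      refine ⟨l1 ++ (w :: z :: w' :: y :: t), ?_, ?_, ?_, ?_, ?_, ?_⟩
      · rw [List.nodup_append]
        refine ⟨hnd1, ?_, ?_⟩
        · rw [List.nodup_cons, List.nodup_cons, List.nodup_cons]
          refine ⟨?_, ?_, ?_, hl1⟩
          · intro h
            rcases List.mem_cons.mp h with h | h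
            · exact hwz h
            · rcases List.mem_cons.mp h with h | h
              · exact hww' h
              · exact hnotin w hwR hwU h
          · intro h
            rcases List.mem_cons.mp h with h | h
            · exact hzw' h
            · exact hnotin z hzR hzU h
          · exact hnotin w' hwR' hwU'
        · intro a ha b hb hab
          subst hab
          rcases List.mem_cons.mp hb with h | h
          · exact hl1R a ha (h ▸ hwR)
          · rcases List.mem_cons.mp h with h | h
            · exact hl1R a ha (h ▸ hzR)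
            · rcases List.mem_cons.mp h with h | h
              · exact hl1R a ha (h ▸ hwR')
              · exact hdisj a ha h
      · rw [List.isChain_append]
        refine ⟨hP.chain l1 List.mem_cons_self, ?_, ?_⟩
        · rw [List.isChain_cons_cons, List.isChain_cons_cons, List.isChain_cons_cons]
          exact ⟨c2, c3, c4, hl2⟩
        · intro a ha b hb
          have ha' : a = x := by
            rw [List.getLast?_eq_getLast_of_ne_nil hne1] at ha
            exact (Option.some.inj ha).symm
          have hb' : b = w := by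
            simp only [List.head?_cons, Option.mem_def, Option.some.injEq] at hb
            exact hb.symm
          rw [ha', hb']
          exact c1
      · rw [List.flatten_cons, List.length_append, List.length_append]
        simp only [List.length_cons] at hl3 ⊢
        omega
      · intro v hv
        rw [List.flatten_cons]
        rcases List.mem_append.mp hv with h | h
        · left; exact List.mem_append_left _ h
        · rcases List.mem_cons.mp h with h | h
          · right; rw [h]; exact hwR
          · rcases List.mem_cons.mp h with h | h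
            · right; rw [h]; exact hzR
            · rcases List.mem_cons.mp h with h | h
              · right; rw [h]; exact hwR'
              · rcases hl4 v h with h | h
                · left; exact List.mem_append_right _ h
                · right; exact h
      · have hsub : (l1 ++ (w :: z :: w' :: y :: t)).toFinset ∩ R ⊆
            insert w (insert z (insert w' U)) := by
          intro v hv
          rw [mem_inter, List.mem_toFinset] at hv
          rw [mem_insert, mem_insert, mem_insert]
          rcases List.mem_append.mp hv.1 with h | h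
          · exact absurd hv.2 (hl1R v h)
          · rcases List.mem_cons.mp h with h | h
            · left; exact h
            · rcases List.mem_cons.mp h with h | h
              · right; left; exact h
              · rcases List.mem_cons.mp h with h | h
                · right; right; left; exact h
                · right; right; right
                  exact mem_inter.mpr ⟨List.mem_toFinset.mpr h, hv.2⟩
        refine (Finset.card_le_card hsub).trans ?_
        have e1 := Finset.card_insert_le w (insert z (insert w' U))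
        have e2 := Finset.card_insert_le z (insert w' U)
        have e3 := Finset.card_insert_le w' U
        rw [List.length_cons]
        omega
      · intro a ha
        refine ⟨l1, List.mem_cons_self, ?_⟩
        obtain ⟨b, l1', rfl⟩ := List.exists_cons_of_ne_nil hne1
        simpa using ha

/-- joining all paths of a system into one path: induction over the list, each connection uses
three new vertices of `R` -/
theorem connect (χ : V → V → C) (hχ : ∀ u v, χ u v = χ v u) (S : Finset C) (A R : Finset V)
    (hAR : Disjoint A R) (β θ κ : ℝ) (hβ : 0 ≤ β) (hθ : 0 ≤ θ) (P : List (List V))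
    (hP : PS χ S A P)
    (hhead : ∀ l ∈ P, ∀ x ∈ l.head?,
      ((univ.filter (fun v => ¬ Linked χ S R β x v)).card : ℝ) ≤ θ * (Fintype.card V : ℝ))
    (hlast : ∀ l ∈ P, ∀ x ∈ l.getLast?,
      ((univ.filter (fun v => ¬ Linked χ S R β x v)).card : ℝ) ≤ θ * (Fintype.card V : ℝ))
    (hlen : (P.length : ℝ) ≤ κ * (Fintype.card V : ℝ))
    (h1 : 2 * θ * (Fintype.card V : ℝ) + 3 * κ * (Fintype.card V : ℝ) < (R.card : ℝ))
    (h2 : 3 * κ * (Fintype.card V : ℝ) + 2 < β * (Fintype.card V : ℝ)) :
    ∃ l : List V, l.Nodup ∧ l.IsChain (fun u v => χ u v ∈ S) ∧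
      P.flatten.length ≤ l.length := by
  obtain ⟨l, a, b, c, -⟩ := t28_aux χ hχ S A R hAR β θ κ P hP hhead hlast hlen h1 h2
  exact ⟨l, a, b, c⟩

end PF61
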