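import Pool.Agent.LibPF61.T06
import Pool.Agent.LibPF61.T07
import Pool.Agent.LibPF61.T08
import Pool.Agent.LibPF61.T13
import Pool.Agent.LibPF61.T19
import Pool.Agent.LibPF61.T25
import Pool.Agent.LibPF61.T26
import Pool.Agent.LibPF61.T27
import Pool.Agent.LibPF61.T28

namespace PF61
open Finset
open scoped Classical

/-- the number of vertices covered by a path system is at most `n` -/
theorem ps_length_le {V C : Type} [Fintype V] (χ : V → V → C) (S : Finset C) (A : Finset V)
    (P : List (List V)) (hP : PS χ S A P) : P.flatten.length ≤ Fintype.card V :=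
  hP.nodup.length_le_card

/-- the number of blocks -/
theorem main_blocks {V : Type} [Fintype V] (B : List (List V)) (k : ℕ)
    (hB : ∀ b ∈ B, b.length = k) (hnd : B.flatten.Nodup) : B.length * k ≤ Fintype.card V := by
  have h : B.flatten.length = B.length * k := by
    clear hnd
    induction B with
    | nil => simp
    | cons b B ih =>
      have h1 := hB b (by simp)
      have h2 := ih (fun b' hb' => hB b' (by simp [hb']))
      simp only [List.flatten_cons, List.length_append, List.length_cons, h1, h2]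
      ring
  rw [← h]
  exact hnd.length_le_card

/-- the expected number of non-linked pairs -/
theorem main_nonlinked {V C : Type} [Fintype V] [Fintype C] (χ : V → V → C) (L : Finset C) {M : ℕ}
    (hM : 0 < M) (a : ℕ) (ha : 0 < a) (haM : a ≤ M) (δ η ξ : ℝ) (hη : 0 < η)
    (hδ0 : 0 ≤ δ) (hξ : 0 ≤ ξ) (hδ : 16 * δ ≤ ξ * (((a : ℝ) / M) ^ 4 * η)) (R : Finset V)
    (hbad : (((univ : Finset (V × V)).filter (fun p =>
      ((R.filter (fun w => Light χ L δ p.1 w ∧ Light χ L δ p.2 w)).card : ℝ) <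
        η * (Fintype.card V : ℝ))).card : ℝ) ≤ 2 * ξ * (Fintype.card V : ℝ) ^ 2) :
    ∑ ω : C → Fin M, (((univ : Finset (V × V)).filter (fun p =>
        ¬ Linked χ (SS L a ω) R (((a : ℝ) / M) ^ 2 * η / 2) p.1 p.2)).card : ℝ) ≤
      3 * ξ * (Fintype.card V : ℝ) ^ 2 * (Fintype.card (C → Fin M) : ℝ) := by
  have hp : 0 < ((a : ℝ) / M) ^ 4 * η := by
    have h1 : (0 : ℝ) < a := by exact_mod_cast ha
    have h2 : (0 : ℝ) < M := by exact_mod_cast hM
    positivity
  have hswap : ∑ ω : C → Fin M, (((univ : Finset (V × V)).filter (fun p =>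
        ¬ Linked χ (SS L a ω) R (((a : ℝ) / M) ^ 2 * η / 2) p.1 p.2)).card : ℝ) =
      ∑ p : V × V, ((univ.filter (fun ω : C → Fin M =>
        ¬ Linked χ (SS L a ω) R (((a : ℝ) / M) ^ 2 * η / 2) p.1 p.2)).card : ℝ) := by
    simp only [Finset.card_filter, Nat.cast_sum]
    rw [Finset.sum_comm]
  rw [hswap]
  have hsplit : ∀ p : V × V, ((univ.filter (fun ω : C → Fin M =>
        ¬ Linked χ (SS L a ω) R (((a : ℝ) / M) ^ 2 * η / 2) p.1 p.2)).card : ℝ) ≤
      ξ * (Fintype.card (C → Fin M) : ℝ) +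
      (if ((R.filter (fun w => Light χ L δ p.1 w ∧ Light χ L δ p.2 w)).card : ℝ) <
        η * (Fintype.card V : ℝ) then 1 else 0) * (Fintype.card (C → Fin M) : ℝ) := by
    intro p
    have hcard : ((univ.filter (fun ω : C → Fin M =>
        ¬ Linked χ (SS L a ω) R (((a : ℝ) / M) ^ 2 * η / 2) p.1 p.2)).card : ℝ) ≤
        (Fintype.card (C → Fin M) : ℝ) := by
      exact_mod_cast Finset.card_le_univ _
    by_cases h : ((R.filter (fun w => Light χ L δ p.1 w ∧ Light χ L δ p.2 w)).card : ℝ) <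
        η * (Fintype.card V : ℝ)
    · rw [if_pos h]
      have : 0 ≤ ξ * (Fintype.card (C → Fin M) : ℝ) := by positivity
      linarith
    · rw [if_neg h]
      have hl := link_bound χ L hM a ha haM δ η hη hδ0 R p.1 p.2 (not_lt.mp h)
      have h2 : ((univ.filter (fun ω : C → Fin M =>
        ¬ Linked χ (SS L a ω) R (((a : ℝ) / M) ^ 2 * η / 2) p.1 p.2)).card : ℝ) *
          (((a : ℝ) / M) ^ 4 * η) ≤ ξ * (Fintype.card (C → Fin M) : ℝ) *
          (((a : ℝ) / M) ^ 4 * η) := by
        refine hl.trans ?_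
        have : 16 * δ * (Fintype.card (C → Fin M) : ℝ) ≤
          ξ * (((a : ℝ) / M) ^ 4 * η) * (Fintype.card (C → Fin M) : ℝ) := by
          gcongr
        linarith
      have := le_of_mul_le_mul_right h2 hp
      linarith
  refine (Finset.sum_le_sum (fun p _ => hsplit p)).trans ?_
  rw [Finset.sum_add_distrib]
  have e1 : ∑ p : V × V, ξ * (Fintype.card (C → Fin M) : ℝ) =
      ξ * (Fintype.card V : ℝ) ^ 2 * (Fintype.card (C → Fin M) : ℝ) := by
    rw [Finset.sum_const, Finset.card_univ, Fintype.card_prod]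
    simp only [nsmul_eq_mul, Nat.cast_mul]
    ring
  have e2 : ∑ p : V × V, (if ((R.filter (fun w => Light χ L δ p.1 w ∧ Light χ L δ p.2 w)).card : ℝ) <
        η * (Fintype.card V : ℝ) then (1 : ℝ) else 0) =
      (((univ : Finset (V × V)).filter (fun p =>
      ((R.filter (fun w => Light χ L δ p.1 w ∧ Light χ L δ p.2 w)).card : ℝ) <
        η * (Fintype.card V : ℝ))).card : ℝ) := by
    simp only [Finset.card_filter, Nat.cast_sum]
    simp
  rw [e1, ← Finset.sum_mul, e2]
  have hO : (0 : ℝ) ≤ (Fintype.card (C → Fin M) : ℝ) := by positivity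
  nlinarith [mul_le_mul_of_nonneg_right hbad hO]

theorem upper_main (ε : ℝ) (hε : 0 < ε) (hε1 : ε ≤ 1) (a M : ℕ) (ha : 0 < a) (haM : 2 * a ≤ M) :
    ∃ N : ℕ, ∀ (V C : Type) [Fintype V] [Fintype C] (χ : V → V → C), (∀ u v, χ u v = χ v u) →
      N ≤ Fintype.card V → N ≤ Fintype.card C →
      ∃ S : Finset C, (S.card : ℝ) ≤ ((a : ℝ) / M + ε) * (Fintype.card C : ℝ) ∧
        ∃ l : List V, l.Nodup ∧ l.IsChain (fun u v => χ u v ∈ S) ∧
          (2 * ((a : ℝ) / M) - ε) * (Fintype.card V : ℝ) ≤ (l.length : ℝ) := by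
  have hM : 0 < M := by omega
  have haM' : a ≤ M := by omega
  have haR : (0 : ℝ) < a := by exact_mod_cast ha
  have hMR : (0 : ℝ) < M := by exact_mod_cast hM
  set p : ℝ := (a : ℝ) / M with hp
  have hp0 : 0 < p := by positivity
  have hp2 : 2 * p ≤ 1 := by
    rw [hp]
    have : (2 * a : ℝ) ≤ M := by exact_mod_cast haM
    rw [← mul_div_assoc, div_le_one hMR]
    exact this
  -- parameters
  obtain ⟨N1, hN1⟩ := exists_nat_ge (24 / ε)
  have hN1R : (0 : ℝ) < N1 := lt_of_lt_of_le (by positivity) hN1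
  have hN1pos : 1 ≤ N1 := by
    have : (0 : ℝ) < N1 := hN1R
    exact_mod_cast this
  have hN1' : 3 / (N1 : ℝ) ≤ ε / 8 := by
    rw [div_le_iff₀ hN1R]
    rw [div_le_iff₀ hε] at hN1
    linarith
  obtain ⟨m, hm⟩ := exists_nat_ge (16 / ε)
  have hmR : (0 : ℝ) < m := lt_of_lt_of_le (by positivity) hm
  have hmpos : 1 ≤ m := by
    have : (0 : ℝ) < m := hmR
    exact_mod_cast this
  have hm' : 2 / (m : ℝ) ≤ ε / 8 := by
    rw [div_le_iff₀ hmR]
    rw [div_le_iff₀ hε] at hm
    linarith
  set θ : ℝ := min (ε / 16) (1 / (16 * m)) with hθdef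
  have hθ0 : 0 < θ := by
    rw [hθdef]
    exact lt_min (by positivity) (by positivity)
  have hθ1 : θ ≤ ε / 16 := min_le_left _ _
  have hθ2 : θ ≤ 1 / (16 * m) := min_le_right _ _
  set ξ : ℝ := ε * θ ^ 2 / 64 with hξdef
  have hξ0 : 0 < ξ := by positivity
  obtain ⟨η, hη0, hpairs⟩ := pairs_large ξ hξ0
  obtain ⟨n0res, hres⟩ := exists_res m hmpos η ξ hη0 hξ0
  set η' : ℝ := η / (2 * m) with hη'def
  have hη'0 : 0 < η' := by positivity
  set β : ℝ := p ^ 2 * η' / 2 with hβdef
  have hβ0 : 0 < β := by positivity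
  set δ : ℝ := ξ * (p ^ 4 * η') / 16 with hδdef
  have hδ0 : 0 < δ := by positivity
  set κ : ℝ := min β (1 / (4 * m)) / 8 with hκdef
  have hκ0 : 0 < κ := by
    have : 0 < min β (1 / (4 * (m : ℝ))) := lt_min hβ0 (by positivity)
    rw [hκdef]; positivity
  have hκ1 : 8 * κ ≤ β := by
    have : min β (1 / (4 * (m : ℝ))) ≤ β := min_le_left _ _
    rw [hκdef]; linarith
  have hκ2 : 8 * κ ≤ 1 / (4 * m) := by
    have : min β (1 / (4 * (m : ℝ))) ≤ 1 / (4 * m) := min_le_right _ _
    rw [hκdef]; linarith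
  obtain ⟨k, hk⟩ := exists_nat_ge ((2 * N1 + 2 : ℝ) / κ)
  have hkR : (0 : ℝ) < k := lt_of_lt_of_le (by positivity) hk
  have hkpos : 0 < k := by exact_mod_cast hkR
  obtain ⟨δ1a, hδ1a, n0a, hgood⟩ := good_exists k (ε / 16) (by positivity)
  obtain ⟨δ1b, hδ1b, n0b, hpairs2⟩ := hpairs δ hδ0
  set δ1 : ℝ := min δ1a δ1b with hδ1def
  have hδ10 : 0 < δ1 := lt_min hδ1a hδ1b
  obtain ⟨n1, hn1⟩ := exists_nat_ge (4 / β)
  obtain ⟨t1, ht1⟩ := exists_nat_ge (256 / ε ^ 3)
  obtain ⟨t2, ht2⟩ := exists_nat_ge (2 / (ε * δ1))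
  refine ⟨n0res + n0a + n0b + n1 + t1 + t2 + 1, ?_⟩
  intro V C _ _ χ hχ hV hC
  have hn : 0 < Fintype.card V := by omega
  have ht : 0 < Fintype.card C := by omega
  set n : ℝ := (Fintype.card V : ℝ) with hndef
  set t : ℝ := (Fintype.card C : ℝ) with htdef
  have hnR : 0 < n := by rw [hndef]; exact_mod_cast hn
  have htR : 0 < t := by rw [htdef]; exact_mod_cast ht
  -- dense colours
  set L : Finset C := (univ : Finset C).filter (fun c => δ1 * n ^ 2 < (tot χ c : ℝ)) with hLdef
  have hLcard : (L.card : ℝ) * δ1 ≤ 1 := dense_card χ δ1 hδ10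
  have hL : ∀ c, c ∉ L → (tot χ c : ℝ) ≤ δ1 * n ^ 2 := by
    intro c hc
    by_contra h
    exact hc (by rw [hLdef, Finset.mem_filter]; exact ⟨Finset.mem_univ _, not_le.mp h⟩)
  have hLa : ∀ c, c ∉ L → (tot χ c : ℝ) ≤ δ1a * n ^ 2 := fun c hc =>
    (hL c hc).trans (by have := min_le_left δ1a δ1b; gcongr)
  have hLb : ∀ c, c ∉ L → (tot χ c : ℝ) ≤ δ1b * n ^ 2 := fun c hc =>
    (hL c hc).trans (by have := min_le_right δ1a δ1b; gcongr)
  -- reserved set
  have hP1 := hpairs2 V C χ L hχ (by omega) hLb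
  obtain ⟨R, hR1, hR2, hR3⟩ := hres V (by omega)
    (fun u u' => univ.filter (fun w => Light χ L δ u w ∧ Light χ L δ u' w))
  have hbad : (((univ : Finset (V × V)).filter (fun p =>
      ((R.filter (fun w => Light χ L δ p.1 w ∧ Light χ L δ p.2 w)).card : ℝ) <
        η' * (Fintype.card V : ℝ))).card : ℝ) ≤ 2 * ξ * (Fintype.card V : ℝ) ^ 2 := by
    have hsub : ((univ : Finset (V × V)).filter (fun p =>
      ((R.filter (fun w => Light χ L δ p.1 w ∧ Light χ L δ p.2 w)).card : ℝ) <
        η' * (Fintype.card V : ℝ))) ⊆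
      ((univ : Finset (V × V)).filter (fun p =>
          ((univ.filter (fun w => Light χ L δ p.1 w ∧ Light χ L δ p.2 w)).card : ℝ) <
            η * (Fintype.card V : ℝ))) ∪
      ((univ : Finset (V × V)).filter (fun p =>
          η * (Fintype.card V : ℝ) ≤
            (((univ.filter (fun w => Light χ L δ p.1 w ∧ Light χ L δ p.2 w))).card : ℝ) ∧
          (((univ.filter (fun w => Light χ L δ p.1 w ∧ Light χ L δ p.2 w)) ∩ R).card : ℝ) <
            η * (Fintype.card V : ℝ) / (2 * m))) := by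
      intro q hq
      rw [Finset.mem_filter] at hq
      rw [Finset.mem_union, Finset.mem_filter, Finset.mem_filter]
      by_cases h : ((univ.filter (fun w => Light χ L δ q.1 w ∧ Light χ L δ q.2 w)).card : ℝ) <
            η * (Fintype.card V : ℝ)
      · left; exact ⟨Finset.mem_univ _, h⟩
      · right
        refine ⟨Finset.mem_univ _, not_lt.mp h, ?_⟩
        have he : (univ.filter (fun w => Light χ L δ q.1 w ∧ Light χ L δ q.2 w)) ∩ R =
            R.filter (fun w => Light χ L δ q.1 w ∧ Light χ L δ q.2 w) := by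
          ext w
          simp only [Finset.mem_inter, Finset.mem_filter, Finset.mem_univ, true_and]
          tauto
        rw [he]
        have h3 := hq.2
        rw [hη'def] at h3
        calc _ < η / (2 * m) * (Fintype.card V : ℝ) := h3
          _ = _ := by ring
    have h1 := (Finset.card_le_card hsub).trans (Finset.card_union_le _ _)
    have h2 := (Nat.cast_le (α := ℝ)).mpr h1
    rw [Nat.cast_add] at h2
    refine h2.trans ?_
    linarith [hP1, hR3]
  -- blocks
  have hgood' := hgood V C χ L hχ (by omega) hLa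
  obtain ⟨B, hB1, hB2, hB3, hB4⟩ := blocks_exist χ L k hkpos (ε / 16 * n) hgood' Rᶜ
  have hRc : ((Rᶜ).card : ℝ) = n - R.card := by
    rw [Finset.card_compl, Nat.cast_sub (Finset.card_le_univ _)]
  have hBn : (B.length : ℝ) * k ≤ n := by
    have := main_blocks B k (fun b hb => (hB1 b hb).1) hB2
    rw [hndef]; exact_mod_cast this
  obtain ⟨P, hP, hPsum⟩ := blocks_ps χ hχ L hM a haM N1 hN1pos B (fun b hb => (hB1 b hb).2) hB2
  -- averaging
  have hnonl := main_nonlinked χ L hM a ha haM' δ η' ξ hη'0 hδ0.le hξ0.le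
    (by rw [hδdef]; linarith) R hbad
  have hsize := size_bound hM a haM' L (ε / 2) (by positivity)
  have : NeZero M := ⟨by omega⟩
  have hF1 : (1 - 3 * ε / 16) * n ≤ (B.flatten.length : ℝ) := by
    have h1 : (R.card : ℝ) ≤ ε / 8 * n := by
      calc (R.card : ℝ) ≤ 2 * n / m := hR1
        _ = 2 / m * n := by ring
        _ ≤ _ := by gcongr
    rw [hRc] at hB4
    linarith
  have hF2 : (B.flatten.length : ℝ) ≤ n := by
    have := hB2.length_le_card
    rw [hndef]; exact_mod_cast this
  have hΩ : (0 : ℝ) < (Fintype.card (C → Fin M) : ℝ) := by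
    exact_mod_cast Fintype.card_pos
  obtain ⟨ω, hω1, hω2, hω3⟩ := choose_omega (Ω := C → Fin M)
    (fun ω => ((P ω).flatten.length : ℝ))
    (fun ω => (((univ : Finset (V × V)).filter (fun q =>
        ¬ Linked χ (SS L a ω) R (p ^ 2 * η' / 2) q.1 q.2)).card : ℝ))
    (fun ω => (p + ε / 2) * t + (L.card : ℝ) < ((SS L a ω).card : ℝ))
    n ((2 * p - 5 * ε / 16) * n) (3 * ξ * n ^ 2) (ε / 64) (θ ^ 2 * n ^ 2) (ε / 8 * n)
    (fun ω => by positivity)
    (fun ω => by
      have := ps_length_le χ _ _ _ (hP ω).1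
      rw [hndef]; exact_mod_cast this)
    (fun ω => by positivity)
    (by
      refine le_trans ?_ hPsum
      have h1 : (2 * p - 5 * ε / 16) * n ≤ (2 * p - 3 / N1) * (B.flatten.length : ℝ) := by
        have h2 : 2 * p * ((1 - 3 * ε / 16) * n) ≤ 2 * p * (B.flatten.length : ℝ) := by gcongr
        have h3 : 3 / (N1 : ℝ) * (B.flatten.length : ℝ) ≤ ε / 8 * n := by gcongr
        have h4 : 2 * p * (3 * ε / 16 * n) ≤ 1 * (3 * ε / 16 * n) := by gcongr
        linarith
      gcongr)
    (by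
      have := hnonl
      simpa using this)
    (by
      have h1 : ((univ.filter (fun ω : C → Fin M =>
        ((a : ℝ) / M + ε / 2) * (Fintype.card C : ℝ) + (L.card : ℝ) < ((SS L a ω).card : ℝ))).card : ℝ) *
        ((ε / 2) ^ 2 * t) ≤ (Fintype.card (C → Fin M) : ℝ) := hsize
      have h2 : 256 / ε ^ 3 ≤ t := by
        refine ht1.trans ?_
        rw [htdef]; exact_mod_cast (by omega : t1 ≤ Fintype.card C)
      have h3 : 64 / ε ≤ (ε / 2) ^ 2 * t := by
        have : (ε / 2) ^ 2 * (256 / ε ^ 3) ≤ (ε / 2) ^ 2 * t := by gcongr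
        refine le_trans (le_of_eq ?_) this
        field_simp
        norm_num
      have h4 : ((univ.filter (fun ω : C → Fin M =>
        ((a : ℝ) / M + ε / 2) * (Fintype.card C : ℝ) + (L.card : ℝ) < ((SS L a ω).card : ℝ))).card : ℝ) *
        (64 / ε) ≤ (Fintype.card (C → Fin M) : ℝ) := le_trans (by gcongr) h1
      have h5 : ((univ.filter (fun ω : C → Fin M =>
        ((a : ℝ) / M + ε / 2) * (Fintype.card C : ℝ) + (L.card : ℝ) < ((SS L a ω).card : ℝ))).card : ℝ) =
        (ε / 64) * (((univ.filter (fun ω : C → Fin M =>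
        ((a : ℝ) / M + ε / 2) * (Fintype.card C : ℝ) + (L.card : ℝ) < ((SS L a ω).card : ℝ))).card : ℝ) *
        (64 / ε)) := by
        field_simp
      have h6 := mul_le_mul_of_nonneg_left h4 (by positivity : (0 : ℝ) ≤ ε / 64)
      rw [← h5] at h6
      exact h6)
    (by positivity) (by positivity)
    (by
      have h1 : ε * n ≤ 1 * n := by gcongr
      linarith)
    (by
      have h1 : 3 * ξ * n ^ 2 / (θ ^ 2 * n ^ 2) = 3 * ε / 64 := by
        rw [hξdef]; field_simp
      rw [h1]
      linarith [mul_pos hε hnR])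
  -- conclusion
  refine ⟨SS L a ω, ?_, ?_⟩
  · have h1 := not_lt.mp hω1
    have h2 : (L.card : ℝ) ≤ ε / 2 * t := by
      have h3 : 2 / (ε * δ1) ≤ t := by
        refine ht2.trans ?_
        rw [htdef]; exact_mod_cast (by omega : t2 ≤ Fintype.card C)
      rw [div_le_iff₀ (by positivity)] at h3
      have h4 : (L.card : ℝ) * δ1 ≤ (ε / 2 * t) * δ1 := by linarith
      exact le_of_mul_le_mul_right h4 hδ10
    have h5 : (p + ε / 2) * t + ε / 2 * t = (p + ε) * t := by ring
    linarith
  · set bad : V → Prop := fun v => θ * n <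
      ((univ.filter (fun u => ¬ Linked χ (SS L a ω) R β v u)).card : ℝ) with hbaddef
    have hbadcard : ((univ.filter (fun v => bad v)).card : ℝ) ≤ θ * n := by
      have h1 : ((univ.filter (fun v => bad v)).card : ℝ) * (θ * n) ≤ θ ^ 2 * n ^ 2 := by
        refine le_trans ?_ hω2
        have h2 : (((univ : Finset (V × V)).filter (fun q =>
          ¬ Linked χ (SS L a ω) R (p ^ 2 * η' / 2) q.1 q.2)).card : ℝ) =
          ∑ v : V, ((univ.filter (fun u => ¬ Linked χ (SS L a ω) R β v u)).card : ℝ) := by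
          simp only [Finset.card_filter, Nat.cast_sum]
          rw [Fintype.sum_prod_type]
        rw [h2]
        calc ((univ.filter (fun v => bad v)).card : ℝ) * (θ * n)
            = ∑ v ∈ univ.filter (fun v => bad v), (θ * n) := by
              rw [Finset.sum_const, nsmul_eq_mul]
          _ ≤ ∑ v ∈ univ.filter (fun v => bad v),
              ((univ.filter (fun u => ¬ Linked χ (SS L a ω) R β v u)).card : ℝ) := by
              refine Finset.sum_le_sum (fun v hv => ?_)
              exact (Finset.mem_filter.mp hv).2.le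
          _ ≤ _ := by
              refine Finset.sum_le_sum_of_subset_of_nonneg (Finset.filter_subset _ _) ?_
              intro i _ _
              positivity
      have h3 : θ ^ 2 * n ^ 2 = (θ * n) * (θ * n) := by ring
      rw [h3] at h1
      exact le_of_mul_le_mul_right h1 (by positivity)
    obtain ⟨P', hP'1, hP'2, hP'3, hP'4⟩ := trim χ (SS L a ω) B.flatten.toFinset (P ω) (hP ω).1 bad
    have hdisj : Disjoint B.flatten.toFinset R := by
      rw [Finset.disjoint_left]
      intro v hv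
      have := hB3 v (List.mem_toFinset.mp hv)
      exact Finset.mem_compl.mp this
    have hlen : (P'.length : ℝ) ≤ κ * n := by
      have h1 : (P'.length : ℝ) ≤ (2 * N1 + 2) * (B.length : ℝ) := by
        exact_mod_cast hP'2.trans (hP ω).2
      refine h1.trans ?_
      have h2 : (2 * N1 + 2 : ℝ) ≤ κ * k := by
        rw [div_le_iff₀ hκ0] at hk
        linarith
      calc (2 * N1 + 2 : ℝ) * (B.length : ℝ) ≤ (κ * k) * B.length := by gcongr
        _ = κ * (B.length * k) := by ring
        _ ≤ κ * n := by gcongr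
    have hc1 : 2 * θ * n + 3 * κ * n < (R.card : ℝ) := by
      refine lt_of_lt_of_le ?_ hR2
      have h1 : 2 * θ ≤ 1 / (8 * m) := by
        calc 2 * θ ≤ 2 * (1 / (16 * m)) := by gcongr
          _ = 1 / (8 * m) := by ring
      have h2 : 3 * κ ≤ 3 / (32 * m) := by
        have : 8 * κ * (3 / 8) ≤ 1 / (4 * m) * (3 / 8) := by gcongr
        calc 3 * κ = 8 * κ * (3 / 8) := by ring
          _ ≤ 1 / (4 * m) * (3 / 8) := this
          _ = 3 / (32 * m) := by ring
      have h3 : (1 / (8 * m) + 3 / (32 * m) : ℝ) < 1 / (2 * m) := by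
        rw [show (1 / (8 * m) + 3 / (32 * m) : ℝ) = (7 / 16) * (1 / (2 * m)) by ring]
        have : (0 : ℝ) < 1 / (2 * m) := by positivity
        linarith
      calc 2 * θ * n + 3 * κ * n = (2 * θ + 3 * κ) * n := by ring
        _ ≤ (1 / (8 * m) + 3 / (32 * m)) * n := by gcongr
        _ < 1 / (2 * m) * n := by gcongr
        _ = n / (2 * m) := by ring
    have hc2 : 3 * κ * n + 2 < β * n := by
      have h1 : 4 / β ≤ n := by
        refine hn1.trans ?_
        rw [hndef]; exact_mod_cast (by omega : n1 ≤ Fintype.card V)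
      rw [div_le_iff₀ hβ0] at h1
      linarith [mul_le_mul_of_nonneg_right hκ1 hnR.le]
    obtain ⟨l, hl1, hl2, hl3⟩ := connect χ hχ (SS L a ω) B.flatten.toFinset R hdisj β θ κ hβ0.le
      hθ0.le P' hP'1
      (fun l hl x hx => not_lt.mp ((hP'3 l hl).1 x hx))
      (fun l hl x hx => not_lt.mp ((hP'3 l hl).2 x hx)) hlen hc1 hc2
    refine ⟨l, hl1, hl2, ?_⟩
    have h5 : (P'.flatten.length : ℝ) ≤ l.length := by exact_mod_cast hl3
    have h6 : θ * n ≤ ε / 16 * n := by gcongr
    have h7 : (2 * p - 5 * ε / 16) * n - ε / 8 * n ≤ ((P ω).flatten.length : ℝ) := hω3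
    linarith [mul_pos hε hnR]

end PF61
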