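import Mathlib

/-!
# MP_7aea73_co: paths using at most `s` of `t` colours
-/

namespace PF61

/-- every `t`-colouring of the edges of `K_n` has a path of order `ℓ` (a path with `ℓ` vertices)
whose edges use at most `s` colours -/
def Forces (t s ℓ n : ℕ) : Prop :=
  ∀ χ : Sym2 (Fin n) → Fin t, ∃ (u v : Fin n) (p : (⊤ : SimpleGraph (Fin n)).Walk u v),
    p.IsPath ∧ p.length + 1 = ℓ ∧ (p.edges.map χ).toFinset.card ≤ s

end PF61
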