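import Pool.Agent.LibPF61.Defs

namespace PF61
open Finset
open scoped Classical

theorem t01_card_eq {Ω : Type} [Fintype Ω] (p : Ω → Prop) :
    ((univ.filter (fun ω => p ω)).card : ℝ) = ∑ ω : Ω, (if p ω then (1 : ℝ) else 0) := by
  rw [Finset.card_filter]
  push_cast
  rfl

theorem t01_cardD_eq {ι : Type} (D : Finset ι) (p : ι → Prop) :
    ((D.filter (fun i => p i)).card : ℝ) = ∑ i ∈ D, (if p i then (1 : ℝ) else 0) := by
  rw [Finset.card_filter]
  push_cast
  rfl

theorem t01_alg {Ω ι : Type} [Fintype Ω] [Nonempty Ω] (D : Finset ι) (a : ι → ℝ)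
    (c : ι → ι → ℝ) (X : Ω → ℝ) (h1 : ∑ ω, X ω = ∑ i ∈ D, a i)
    (h2 : ∑ ω, (X ω) ^ 2 = ∑ i ∈ D, ∑ j ∈ D, c i j) :
    ∑ ω : Ω, (X ω - (∑ i ∈ D, a i) / (Fintype.card Ω : ℝ)) ^ 2 =
      ∑ i ∈ D, ∑ j ∈ D, (c i j - a i * a j / (Fintype.card Ω : ℝ)) := by
  have hN : (0 : ℝ) < (Fintype.card Ω : ℝ) := by exact_mod_cast Fintype.card_pos
  obtain ⟨μ, hμ⟩ : ∃ μ : ℝ, μ = (∑ i ∈ D, a i) / (Fintype.card Ω : ℝ) := ⟨_, rfl⟩
  have h3 : ∀ ω : Ω, (X ω - μ) ^ 2 = (X ω) ^ 2 - 2 * μ * X ω + μ ^ 2 := fun ω => by ring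
  rw [← hμ]
  simp only [h3]
  rw [Finset.sum_add_distrib, Finset.sum_sub_distrib, ← Finset.mul_sum, h1, h2]
  simp only [Finset.sum_const, Finset.card_univ, nsmul_eq_mul, Finset.sum_sub_distrib]
  have h4 : ∑ i ∈ D, ∑ j ∈ D, a i * a j / (Fintype.card Ω : ℝ) =
      (∑ i ∈ D, a i) * (∑ i ∈ D, a i) / (Fintype.card Ω : ℝ) := by
    rw [Finset.sum_mul_sum, Finset.sum_div]
    refine Finset.sum_congr rfl fun i _ => ?_
    rw [Finset.sum_div]
  rw [h4]
  have h5 : (∑ i ∈ D, a i) = μ * (Fintype.card Ω : ℝ) := by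
    rw [hμ]; field_simp
  rw [h5]
  field_simp
  ring

theorem t01_expand {Ω ι : Type} [Fintype Ω] [Nonempty Ω] (D : Finset ι) (E : ι → Ω → Prop) :
    ∑ ω : Ω, (((D.filter (fun i => E i ω)).card : ℝ) -
        (∑ i ∈ D, ((univ.filter (fun ω => E i ω)).card : ℝ)) / (Fintype.card Ω : ℝ)) ^ 2
      = ∑ i ∈ D, ∑ j ∈ D, (((univ.filter (fun ω => E i ω ∧ E j ω)).card : ℝ) -
          ((univ.filter (fun ω => E i ω)).card : ℝ) * ((univ.filter (fun ω => E j ω)).card : ℝ) /
            (Fintype.card Ω : ℝ)) := by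
  have hN : (0 : ℝ) < (Fintype.card Ω : ℝ) := by exact_mod_cast Fintype.card_pos
  have h1 : ∑ ω : Ω, ((D.filter (fun i => E i ω)).card : ℝ) =
      ∑ i ∈ D, ((univ.filter (fun ω => E i ω)).card : ℝ) := by
    simp only [t01_cardD_eq]
    rw [Finset.sum_comm]
  have h2 : ∑ ω : Ω, ((D.filter (fun i => E i ω)).card : ℝ) ^ 2 =
      ∑ i ∈ D, ∑ j ∈ D, ((univ.filter (fun ω => E i ω ∧ E j ω)).card : ℝ) := by
    have : ∀ ω : Ω, ((D.filter (fun i => E i ω)).card : ℝ) ^ 2 =
        ∑ i ∈ D, ∑ j ∈ D, (if E i ω ∧ E j ω then (1 : ℝ) else 0) := by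
      intro ω
      rw [t01_cardD_eq, pow_two, Finset.sum_mul_sum]
      refine Finset.sum_congr rfl fun i _ => Finset.sum_congr rfl fun j _ => ?_
      by_cases hi : E i ω <;> by_cases hj : E j ω <;> simp [hi, hj]
    simp only [this]
    rw [Finset.sum_comm]
    refine Finset.sum_congr rfl fun i _ => ?_
    rw [Finset.sum_comm]
    refine Finset.sum_congr rfl fun j _ => ?_
    rw [Finset.card_filter]
    push_cast
    refine Finset.sum_congr rfl fun ω _ => ?_
    by_cases hi : E i ω <;> by_cases hj : E j ω <;> simp [hi, hj]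
  refine t01_alg D (fun i => ((univ.filter (fun ω => E i ω)).card : ℝ))
    (fun i j => ((univ.filter (fun ω => E i ω ∧ E j ω)).card : ℝ)) _ h1 h2

/-- variance bound for a sum of indicators in which every event is (positively) correlated with
at most `Δ` others.  Expand the square: the sum over `ω` equals
`∑ i j, (#(E i ∧ E j) - #(E i) * #(E j) / #Ω)`. -/
theorem var_bound {Ω ι : Type} [Fintype Ω] [Nonempty Ω] (D : Finset ι) (E : ι → Ω → Prop) (Δ : ℝ)
    (hdep : ∀ i ∈ D, ((D.filter (fun j =>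
      ((univ.filter (fun ω => E i ω)).card : ℝ) * ((univ.filter (fun ω => E j ω)).card : ℝ) <
      ((univ.filter (fun ω => E i ω ∧ E j ω)).card : ℝ) * (Fintype.card Ω : ℝ))).card : ℝ) ≤ Δ) :
    ∑ ω : Ω, (((D.filter (fun i => E i ω)).card : ℝ) -
        (∑ i ∈ D, ((univ.filter (fun ω => E i ω)).card : ℝ)) / (Fintype.card Ω : ℝ)) ^ 2
      ≤ (D.card : ℝ) * Δ * (Fintype.card Ω : ℝ) := by
  have hN : (0 : ℝ) < (Fintype.card Ω : ℝ) := by exact_mod_cast Fintype.card_pos
  rw [t01_expand]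
  have key : ∀ i ∈ D, ∑ j ∈ D, (((univ.filter (fun ω => E i ω ∧ E j ω)).card : ℝ) -
          ((univ.filter (fun ω => E i ω)).card : ℝ) * ((univ.filter (fun ω => E j ω)).card : ℝ) /
            (Fintype.card Ω : ℝ)) ≤ Δ * (Fintype.card Ω : ℝ) := by
    intro i hi
    calc ∑ j ∈ D, (((univ.filter (fun ω => E i ω ∧ E j ω)).card : ℝ) -
          ((univ.filter (fun ω => E i ω)).card : ℝ) * ((univ.filter (fun ω => E j ω)).card : ℝ) /
            (Fintype.card Ω : ℝ)) 
        ≤ ∑ j ∈ D, (if ((univ.filter (fun ω => E i ω)).card : ℝ) *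
            ((univ.filter (fun ω => E j ω)).card : ℝ) <
            ((univ.filter (fun ω => E i ω ∧ E j ω)).card : ℝ) * (Fintype.card Ω : ℝ)
              then (1 : ℝ) else 0) * (Fintype.card Ω : ℝ) := by
          refine Finset.sum_le_sum fun j _ => ?_
          split_ifs with h
          · have h1 : ((univ.filter (fun ω => E i ω ∧ E j ω)).card : ℝ) ≤
                (Fintype.card Ω : ℝ) := by
              exact_mod_cast Finset.card_le_univ _
            have h2 : 0 ≤ ((univ.filter (fun ω => E i ω)).card : ℝ) *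
              ((univ.filter (fun ω => E j ω)).card : ℝ) / (Fintype.card Ω : ℝ) := by positivity
            linarith
          · push Not at h
            have h2 : ((univ.filter (fun ω => E i ω ∧ E j ω)).card : ℝ) ≤
                ((univ.filter (fun ω => E i ω)).card : ℝ) *
              ((univ.filter (fun ω => E j ω)).card : ℝ) / (Fintype.card Ω : ℝ) := by
              rw [le_div_iff₀ hN]; exact h
            linarith
      _ = ((D.filter (fun j =>
      ((univ.filter (fun ω => E i ω)).card : ℝ) * ((univ.filter (fun ω => E j ω)).card : ℝ) <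
      ((univ.filter (fun ω => E i ω ∧ E j ω)).card : ℝ) * (Fintype.card Ω : ℝ))).card : ℝ) *
          (Fintype.card Ω : ℝ) := by
          rw [← Finset.sum_mul, t01_cardD_eq D]
      _ ≤ Δ * (Fintype.card Ω : ℝ) := mul_le_mul_of_nonneg_right (hdep i hi) hN.le
  calc _ ≤ ∑ _i ∈ D, Δ * (Fintype.card Ω : ℝ) := Finset.sum_le_sum key
    _ = (D.card : ℝ) * Δ * (Fintype.card Ω : ℝ) := by
      rw [Finset.sum_const, nsmul_eq_mul]; ring

end PF61
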