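import Pool.Agent.LibPF61.T01

namespace PF61
open Finset
open scoped Classical

theorem t02_markov {Ω : Type} [Fintype Ω] (p : Ω → Prop) (f : Ω → ℝ) (y B : ℝ)
    (hf : ∀ ω, 0 ≤ f ω) (hp : ∀ ω, p ω → y ≤ f ω) (hB : ∑ ω, f ω ≤ B) :
    ((univ.filter (fun ω => p ω)).card : ℝ) * y ≤ B := by
  calc ((univ.filter (fun ω => p ω)).card : ℝ) * y
      = ∑ _ω ∈ univ.filter (fun ω => p ω), y := by
        rw [Finset.sum_const, nsmul_eq_mul]
    _ ≤ ∑ ω ∈ univ.filter (fun ω => p ω), f ω := by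
        refine Finset.sum_le_sum fun ω hω => ?_
        exact hp ω (Finset.mem_filter.1 hω).2
    _ ≤ ∑ ω, f ω := Finset.sum_le_sum_of_subset_of_nonneg (Finset.filter_subset _ _)
        fun ω _ _ => hf ω
    _ ≤ B := hB

/-- lower tail (Chebyshev), from `var_bound` -/
theorem cheb_low {Ω ι : Type} [Fintype Ω] [Nonempty Ω] (D : Finset ι) (E : ι → Ω → Prop) (Δ π : ℝ)
    (hπ : 0 < π) (hΔ : 0 ≤ Δ)
    (hdep : ∀ i ∈ D, ((D.filter (fun j =>
      ((univ.filter (fun ω => E i ω)).card : ℝ) * ((univ.filter (fun ω => E j ω)).card : ℝ) <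
      ((univ.filter (fun ω => E i ω ∧ E j ω)).card : ℝ) * (Fintype.card Ω : ℝ))).card : ℝ) ≤ Δ)
    (hprob : ∀ i ∈ D, π * (Fintype.card Ω : ℝ) ≤ ((univ.filter (fun ω => E i ω)).card : ℝ)) :
    ((univ.filter (fun ω : Ω =>
        ((D.filter (fun i => E i ω)).card : ℝ) < π * (D.card : ℝ) / 2)).card : ℝ) *
      (π ^ 2 * (D.card : ℝ)) ≤ 4 * Δ * (Fintype.card Ω : ℝ) := by
  have hN : (0 : ℝ) < (Fintype.card Ω : ℝ) := by exact_mod_cast Fintype.card_pos
  rcases D.eq_empty_or_nonempty with hD | hD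
  · subst hD
    simp only [Finset.card_empty, Nat.cast_zero, mul_zero]
    positivity
  have hDpos : (0 : ℝ) < (D.card : ℝ) := by exact_mod_cast hD.card_pos
  have hμ : π * (D.card : ℝ) ≤ (∑ i ∈ D, ((univ.filter (fun ω => E i ω)).card : ℝ)) /
      (Fintype.card Ω : ℝ) := by
    rw [le_div_iff₀ hN]
    calc π * (D.card : ℝ) * (Fintype.card Ω : ℝ) = ∑ _i ∈ D, π * (Fintype.card Ω : ℝ) := by
          rw [Finset.sum_const, nsmul_eq_mul]; ring
      _ ≤ _ := Finset.sum_le_sum hprob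
  have h := t02_markov (fun ω : Ω => ((D.filter (fun i => E i ω)).card : ℝ) < π * (D.card : ℝ) / 2)
    (fun ω => (((D.filter (fun i => E i ω)).card : ℝ) -
        (∑ i ∈ D, ((univ.filter (fun ω => E i ω)).card : ℝ)) / (Fintype.card Ω : ℝ)) ^ 2)
    ((π * (D.card : ℝ) / 2) ^ 2) _ (fun ω => sq_nonneg _) (by
      intro ω hω
      have h0 : 0 < π * (D.card : ℝ) / 2 := by positivity
      rw [← sq_abs (((D.filter (fun i => E i ω)).card : ℝ) -
        (∑ i ∈ D, ((univ.filter (fun ω => E i ω)).card : ℝ)) / (Fintype.card Ω : ℝ))]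
      refine pow_le_pow_left₀ h0.le ?_ 2
      rw [abs_sub_comm]
      refine le_trans ?_ (le_abs_self _)
      have hω' : ((D.filter (fun i => E i ω)).card : ℝ) < π * (D.card : ℝ) / 2 := hω
      linarith) (var_bound D E Δ hdep)
  have h2 : (((univ.filter (fun ω : Ω =>
        ((D.filter (fun i => E i ω)).card : ℝ) < π * (D.card : ℝ) / 2)).card : ℝ) *
      (π ^ 2 * (D.card : ℝ))) * ((D.card : ℝ) / 4) ≤
      (4 * Δ * (Fintype.card Ω : ℝ)) * ((D.card : ℝ) / 4) := by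
    calc _ = ((univ.filter (fun ω : Ω =>
        ((D.filter (fun i => E i ω)).card : ℝ) < π * (D.card : ℝ) / 2)).card : ℝ) *
        ((π * (D.card : ℝ) / 2) ^ 2) := by ring
      _ ≤ (D.card : ℝ) * Δ * (Fintype.card Ω : ℝ) := h
      _ = _ := by ring
  exact le_of_mul_le_mul_right h2 (by positivity)

/-- upper tail (Chebyshev), from `var_bound` -/
theorem cheb_up {Ω ι : Type} [Fintype Ω] [Nonempty Ω] (D : Finset ι) (E : ι → Ω → Prop) (Δ p x : ℝ)
    (hx : 0 < x)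
    (hdep : ∀ i ∈ D, ((D.filter (fun j =>
      ((univ.filter (fun ω => E i ω)).card : ℝ) * ((univ.filter (fun ω => E j ω)).card : ℝ) <
      ((univ.filter (fun ω => E i ω ∧ E j ω)).card : ℝ) * (Fintype.card Ω : ℝ))).card : ℝ) ≤ Δ)
    (hprob : ∀ i ∈ D, ((univ.filter (fun ω => E i ω)).card : ℝ) ≤ p * (Fintype.card Ω : ℝ)) :
    ((univ.filter (fun ω : Ω =>
        p * (D.card : ℝ) + x ≤ ((D.filter (fun i => E i ω)).card : ℝ))).card : ℝ) * x ^ 2
      ≤ (D.card : ℝ) * Δ * (Fintype.card Ω : ℝ) := by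
  have hN : (0 : ℝ) < (Fintype.card Ω : ℝ) := by exact_mod_cast Fintype.card_pos
  have hμ : (∑ i ∈ D, ((univ.filter (fun ω => E i ω)).card : ℝ)) /
      (Fintype.card Ω : ℝ) ≤ p * (D.card : ℝ) := by
    rw [div_le_iff₀ hN]
    calc _ ≤ ∑ _i ∈ D, p * (Fintype.card Ω : ℝ) := Finset.sum_le_sum hprob
      _ = p * (D.card : ℝ) * (Fintype.card Ω : ℝ) := by
          rw [Finset.sum_const, nsmul_eq_mul]; ring
  exact t02_markov (fun ω : Ω => p * (D.card : ℝ) + x ≤ ((D.filter (fun i => E i ω)).card : ℝ))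
    (fun ω => (((D.filter (fun i => E i ω)).card : ℝ) -
        (∑ i ∈ D, ((univ.filter (fun ω => E i ω)).card : ℝ)) / (Fintype.card Ω : ℝ)) ^ 2)
    (x ^ 2) _ (fun ω => sq_nonneg _) (by
      intro ω hω
      refine pow_le_pow_left₀ hx.le ?_ 2
      have hω' : p * (D.card : ℝ) + x ≤ ((D.filter (fun i => E i ω)).card : ℝ) := hω
      linarith) (var_bound D E Δ hdep)

end PF61
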