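import Pool.Agent.LibPF61.T02
import Pool.Agent.LibPF61.T04
import Pool.Agent.LibPF61.T05

namespace PF61
open Finset
open scoped Classical

variable {C : Type} [Fintype C]

theorem t06_size {M : ℕ} (a : ℕ) (L : Finset C) (ω : C → Fin M) (E : C → (C → Fin M) → Prop)
    (hE : ∀ c ω, E c ω ↔ (ω c : ℕ) < a) :
    ((SS L a ω).card : ℝ) ≤ (((univ : Finset C).filter (fun c : C => E c ω)).card : ℝ) +
      (L.card : ℝ) := by
  have h : SS L a ω ⊆ (univ.filter (fun c : C => E c ω)) ∪ L := by
    intro c hc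
    unfold SS at hc
    rw [Finset.mem_filter] at hc
    rw [Finset.mem_union, Finset.mem_filter]
    rcases hc.2 with h | h
    · exact Or.inr h
    · exact Or.inl ⟨Finset.mem_univ _, (hE c ω).2 h⟩
  exact_mod_cast le_trans (Finset.card_le_card h) (Finset.card_union_le _ _)

theorem t06_dep {M : ℕ} (hM : 0 < M) (a : ℕ) (haM : a ≤ M) (E : C → (C → Fin M) → Prop)
    (hE : ∀ c ω, E c ω ↔ (ω c : ℕ) < a) (c : C) :
    (((univ : Finset C).filter (fun c' : C =>
          ((univ.filter (fun ω : C → Fin M => E c ω)).card : ℝ) *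
            ((univ.filter (fun ω : C → Fin M => E c' ω)).card : ℝ) <
          ((univ.filter (fun ω : C → Fin M => E c ω ∧ E c' ω)).card : ℝ) *
            (Fintype.card (C → Fin M) : ℝ))).card : ℝ) ≤ 1 := by
  have hMr : (0 : ℝ) < (M : ℝ) := by exact_mod_cast hM
  have e1 : ∀ c, ((univ.filter (fun ω : C → Fin M => E c ω)).card : ℝ) * (M : ℝ) =
      (a : ℝ) * (Fintype.card (C → Fin M) : ℝ) := by
    intro c
    have h1 : univ.filter (fun ω : C → Fin M => E c ω) =
        univ.filter (fun ω : C → Fin M => (ω c : ℕ) < a) := by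
      ext ω; simp [hE]
    rw [h1]
    exact_mod_cast prob_one a haM c
  have hsub : (univ.filter (fun c' : C =>
          ((univ.filter (fun ω : C → Fin M => E c ω)).card : ℝ) *
            ((univ.filter (fun ω : C → Fin M => E c' ω)).card : ℝ) <
          ((univ.filter (fun ω : C → Fin M => E c ω ∧ E c' ω)).card : ℝ) *
            (Fintype.card (C → Fin M) : ℝ))) ⊆ {c} := by
    intro c' hc'
    rw [Finset.mem_filter] at hc'
    rw [Finset.mem_singleton]
    by_contra hne
    have e2 : ((univ.filter (fun ω : C → Fin M => E c ω ∧ E c' ω)).card : ℝ) *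
        (M : ℝ) ^ 2 = (a : ℝ) ^ 2 * (Fintype.card (C → Fin M) : ℝ) := by
      have h1 : univ.filter (fun ω : C → Fin M => E c ω ∧ E c' ω) =
          univ.filter (fun ω : C → Fin M => (ω c : ℕ) < a ∧ (ω c' : ℕ) < a) := by
        ext ω; simp [hE]
      rw [h1]
      exact_mod_cast prob_two a haM c c' (fun h => hne h.symm)
    have h3 := hc'.2
    have h4 : ((univ.filter (fun ω : C → Fin M => E c ω)).card : ℝ) *
            ((univ.filter (fun ω : C → Fin M => E c' ω)).card : ℝ) * (M : ℝ) ^ 2 =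
            ((univ.filter (fun ω : C → Fin M => E c ω ∧ E c' ω)).card : ℝ) *
            (Fintype.card (C → Fin M) : ℝ) * (M : ℝ) ^ 2 := by
      calc _ = (((univ.filter (fun ω : C → Fin M => E c ω)).card : ℝ) * (M : ℝ)) *
              (((univ.filter (fun ω : C → Fin M => E c' ω)).card : ℝ) * (M : ℝ)) := by ring
        _ = ((a : ℝ) ^ 2 * (Fintype.card (C → Fin M) : ℝ)) *
              (Fintype.card (C → Fin M) : ℝ) := by rw [e1, e1]; ring
        _ = _ := by rw [← e2]; ring
    have h5 := mul_right_cancel₀ (by positivity) h4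
    exact absurd h3 (by rw [h5]; exact lt_irrefl _)
  have := Finset.card_le_card hsub
  rw [Finset.card_singleton] at this
  exact_mod_cast this

/-- the size of the random set of colours (`cheb_up` with `D = univ`, `E c ω = (ω c < a)`,
`Δ = 1`, `p = a / M`, `x = ε t`) -/
theorem size_bound {M : ℕ} (hM : 0 < M) (a : ℕ) (haM : a ≤ M) (L : Finset C) (ε : ℝ) (hε : 0 < ε) :
    ((univ.filter (fun ω : C → Fin M =>
        ((a : ℝ) / M + ε) * (Fintype.card C : ℝ) + (L.card : ℝ) < ((SS L a ω).card : ℝ))).card : ℝ) *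
      (ε ^ 2 * (Fintype.card C : ℝ)) ≤ (Fintype.card (C → Fin M) : ℝ) := by
  haveI : Nonempty (Fin M) := ⟨⟨0, hM⟩⟩
  have hMr : (0 : ℝ) < (M : ℝ) := by exact_mod_cast hM
  have hN : (0 : ℝ) < (Fintype.card (C → Fin M) : ℝ) := by exact_mod_cast Fintype.card_pos
  rcases isEmpty_or_nonempty C with hC | hC
  · have : (Fintype.card C : ℝ) = 0 := by exact_mod_cast Fintype.card_eq_zero
    rw [this]
    simp only [mul_zero]
    positivity
  have hCpos : (0 : ℝ) < (Fintype.card C : ℝ) := by exact_mod_cast Fintype.card_pos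
  obtain ⟨E, hE⟩ : ∃ E : C → (C → Fin M) → Prop, ∀ c ω, E c ω ↔ (ω c : ℕ) < a :=
    ⟨fun c ω => (ω c : ℕ) < a, fun _ _ => Iff.rfl⟩
  have e1 : ∀ c, ((univ.filter (fun ω : C → Fin M => E c ω)).card : ℝ) * (M : ℝ) =
      (a : ℝ) * (Fintype.card (C → Fin M) : ℝ) := by
    intro c
    have h1 : univ.filter (fun ω : C → Fin M => E c ω) =
        univ.filter (fun ω : C → Fin M => (ω c : ℕ) < a) := by
      ext ω; simp [hE]
    rw [h1]
    exact_mod_cast prob_one a haM c
  have h := cheb_up (Ω := C → Fin M) (univ : Finset C) E 1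
    ((a : ℝ) / M) (ε * (Fintype.card C : ℝ)) (by positivity)
    (fun c _ => t06_dep hM a haM E hE c) (by
      intro c _
      have := e1 c
      rw [← eq_div_iff hMr.ne'] at this
      rw [this]
      exact le_of_eq (by ring))
  rw [Finset.card_univ] at h
  have hle : ((univ.filter (fun ω : C → Fin M =>
        ((a : ℝ) / M + ε) * (Fintype.card C : ℝ) + (L.card : ℝ) < ((SS L a ω).card : ℝ))).card : ℝ) ≤
      ((univ.filter (fun ω : C → Fin M =>
        ((a : ℝ) / M) * (Fintype.card C : ℝ) + ε * (Fintype.card C : ℝ) ≤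
          (((univ : Finset C).filter (fun c : C => E c ω)).card : ℝ))).card : ℝ) := by
    have hs : (univ.filter (fun ω : C → Fin M =>
        ((a : ℝ) / M + ε) * (Fintype.card C : ℝ) + (L.card : ℝ) < ((SS L a ω).card : ℝ))) ⊆
        (univ.filter (fun ω : C → Fin M =>
        ((a : ℝ) / M) * (Fintype.card C : ℝ) + ε * (Fintype.card C : ℝ) ≤
          (((univ : Finset C).filter (fun c : C => E c ω)).card : ℝ))) := by
      intro ω hω
      rw [Finset.mem_filter] at hω ⊢
      refine ⟨Finset.mem_univ _, ?_⟩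
      have h1 := hω.2
      have h2 := t06_size a L ω E hE
      nlinarith
    exact_mod_cast Finset.card_le_card hs
  have h6 : (((univ.filter (fun ω : C → Fin M =>
        ((a : ℝ) / M + ε) * (Fintype.card C : ℝ) + (L.card : ℝ) < ((SS L a ω).card : ℝ))).card : ℝ) *
      (ε ^ 2 * (Fintype.card C : ℝ))) * (Fintype.card C : ℝ) ≤
      (Fintype.card (C → Fin M) : ℝ) * (Fintype.card C : ℝ) := by
    have h7 := le_trans (mul_le_mul_of_nonneg_right hle
      (sq_nonneg (ε * (Fintype.card C : ℝ)))) h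
    calc _ = ((univ.filter (fun ω : C → Fin M =>
        ((a : ℝ) / M + ε) * (Fintype.card C : ℝ) + (L.card : ℝ) < ((SS L a ω).card : ℝ))).card : ℝ) *
          (ε * (Fintype.card C : ℝ)) ^ 2 := by ring
      _ ≤ _ := h7
      _ = _ := by ring
  exact le_of_mul_le_mul_right h6 hCpos

end PF61
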