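import Pool.Agent.LibPF61.Defs

namespace PF61
open Finset
open scoped Classical

variable {V C : Type} [Fintype V] [Fintype C]

/-- `∑ c, tot χ c = n (n - 1) ≤ n ^ 2` -/
theorem sum_tot_le (χ : V → V → C) :
    ∑ c : C, tot χ c ≤ (Fintype.card V) ^ 2 := by
  unfold tot
  rw [Finset.sum_comm]
  have h : ∀ u ∈ (univ : Finset V), ∑ c : C, cdeg χ c u ≤ Fintype.card V := by
    intro u _
    unfold cdeg
    rw [← Finset.card_biUnion]
    · exact Finset.card_le_univ _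
    · intro a _ b _ hab
      rw [Function.onFun, Finset.disjoint_left]
      intro x hx hy
      exact hab ((mem_filter.mp hx).2.2.symm.trans (mem_filter.mp hy).2.2)
  refine (Finset.sum_le_sum h).trans ?_
  rw [Finset.sum_const, Finset.card_univ, smul_eq_mul, sq]

/-- the number of dense colours -/
theorem dense_card (χ : V → V → C) (δ : ℝ) (hδ : 0 < δ) :
    (((univ : Finset C).filter (fun c =>
      δ * (Fintype.card V : ℝ) ^ 2 < (tot χ c : ℝ))).card : ℝ) * δ ≤ 1 := by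
  set D := (univ : Finset C).filter (fun c => δ * (Fintype.card V : ℝ) ^ 2 < (tot χ c : ℝ)) with hD
  have h1 : (D.card : ℝ) * (δ * (Fintype.card V : ℝ) ^ 2) ≤ (Fintype.card V : ℝ) ^ 2 := by
    calc (D.card : ℝ) * (δ * (Fintype.card V : ℝ) ^ 2) = ∑ _c ∈ D, δ * (Fintype.card V : ℝ) ^ 2 := by
          rw [Finset.sum_const, nsmul_eq_mul]
      _ ≤ ∑ c ∈ D, (tot χ c : ℝ) := Finset.sum_le_sum fun c hc => (mem_filter.mp hc).2.le
      _ ≤ ∑ c : C, (tot χ c : ℝ) :=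
          Finset.sum_le_sum_of_subset_of_nonneg (subset_univ _) fun _ _ _ => Nat.cast_nonneg _
      _ ≤ (Fintype.card V : ℝ) ^ 2 := by exact_mod_cast sum_tot_le χ
  rcases Nat.eq_zero_or_pos (Fintype.card V) with h0 | h0
  · have hE : D = ∅ := by
      rw [Finset.eq_empty_iff_forall_notMem]
      intro c hc
      have h2 := (mem_filter.mp hc).2
      have h3 : tot χ c = 0 := by
        unfold tot
        haveI : IsEmpty V := Fintype.card_eq_zero_iff.mp h0
        simp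
      rw [h3, h0] at h2
      norm_num at h2
    rw [hE]; simp
  · have hn : (0 : ℝ) < (Fintype.card V : ℝ) ^ 2 := by positivity
    have h2 : ((D.card : ℝ) * δ) * (Fintype.card V : ℝ) ^ 2 ≤ 1 * (Fintype.card V : ℝ) ^ 2 := by
      rw [mul_assoc, one_mul]; exact h1
    exact le_of_mul_le_mul_right h2 hn

/-- few pairs have a colour that is frequent at both ends but not dense -/
theorem hh_count (χ : V → V → C) (hχ : ∀ u v, χ u v = χ v u) (L : Finset C) (δ δ1 : ℝ)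
    (hδ : 0 < δ) (hδ1 : 0 ≤ δ1)
    (hL : ∀ c, c ∉ L → (tot χ c : ℝ) ≤ δ1 * (Fintype.card V : ℝ) ^ 2) :
    (((univ : Finset (V × V)).filter (fun p =>
      p.1 ≠ p.2 ∧ ¬ Light χ L δ p.1 p.2 ∧ ¬ Light χ L δ p.2 p.1)).card : ℝ) * δ ^ 2
      ≤ δ1 * (Fintype.card V : ℝ) ^ 2 := by
  set n : ℝ := (Fintype.card V : ℝ) with hn
  have hn0 : 0 ≤ n := Nat.cast_nonneg _
  set Hc : C → Finset V := fun c => univ.filter (fun u => δ * n < (cdeg χ c u : ℝ)) with hHc
  set B := (univ : Finset (V × V)).filter (fun p =>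
      p.1 ≠ p.2 ∧ ¬ Light χ L δ p.1 p.2 ∧ ¬ Light χ L δ p.2 p.1) with hB
  have hsub : B ⊆ (univ.filter (fun c => c ∉ L)).biUnion (fun c => Hc c ×ˢ Hc c) := by
    intro p hp
    obtain ⟨h1, h2, h3⟩ := (mem_filter.mp hp).2
    unfold Light at h2 h3
    push Not at h2 h3
    obtain ⟨h4, h5⟩ := h2 h1.symm
    obtain ⟨h6, h7⟩ := h3 h1
    rw [mem_biUnion]
    refine ⟨χ p.1 p.2, mem_filter.mpr ⟨mem_univ _, h4⟩, ?_⟩
    rw [mem_product]
    refine ⟨mem_filter.mpr ⟨mem_univ _, h5⟩, mem_filter.mpr ⟨mem_univ _, ?_⟩⟩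
    rw [hχ p.1 p.2]
    exact h7
  have hcard : (B.card : ℝ) ≤ ∑ c ∈ univ.filter (fun c => c ∉ L), ((Hc c).card : ℝ) ^ 2 := by
    have h1 : B.card ≤ ∑ c ∈ univ.filter (fun c => c ∉ L), (Hc c).card ^ 2 := by
      refine (Finset.card_le_card hsub).trans (Finset.card_biUnion_le.trans (le_of_eq ?_))
      exact Finset.sum_congr rfl fun c _ => by rw [card_product, sq]
    exact_mod_cast h1
  have hH : ∀ c, ((Hc c).card : ℝ) * (δ * n) ≤ (tot χ c : ℝ) := by
    intro c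
    calc ((Hc c).card : ℝ) * (δ * n) = ∑ _u ∈ Hc c, δ * n := by
          rw [Finset.sum_const, nsmul_eq_mul]
      _ ≤ ∑ u ∈ Hc c, (cdeg χ c u : ℝ) := Finset.sum_le_sum fun u hu => (mem_filter.mp hu).2.le
      _ ≤ ∑ u : V, (cdeg χ c u : ℝ) :=
          Finset.sum_le_sum_of_subset_of_nonneg (subset_univ _) fun _ _ _ => Nat.cast_nonneg _
      _ = (tot χ c : ℝ) := by unfold tot; push_cast; rfl
  have hterm : ∀ c ∈ univ.filter (fun c => c ∉ L),
      ((Hc c).card : ℝ) ^ 2 * (δ * n) ^ 2 ≤ (tot χ c : ℝ) * (δ1 * n ^ 2) := by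
    intro c hc
    have h1 := hH c
    have h2 := hL c (mem_filter.mp hc).2
    have h3 : 0 ≤ ((Hc c).card : ℝ) * (δ * n) := by positivity
    calc ((Hc c).card : ℝ) ^ 2 * (δ * n) ^ 2 =
        (((Hc c).card : ℝ) * (δ * n)) * (((Hc c).card : ℝ) * (δ * n)) := by ring
      _ ≤ (tot χ c : ℝ) * (δ1 * n ^ 2) :=
          mul_le_mul h1 (h1.trans h2) h3 (Nat.cast_nonneg _)
  have hsum : (B.card : ℝ) * (δ * n) ^ 2 ≤ n ^ 2 * (δ1 * n ^ 2) := by
    calc (B.card : ℝ) * (δ * n) ^ 2 ≤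
        (∑ c ∈ univ.filter (fun c => c ∉ L), ((Hc c).card : ℝ) ^ 2) * (δ * n) ^ 2 :=
          mul_le_mul_of_nonneg_right hcard (by positivity)
      _ = ∑ c ∈ univ.filter (fun c => c ∉ L), ((Hc c).card : ℝ) ^ 2 * (δ * n) ^ 2 := by
          rw [Finset.sum_mul]
      _ ≤ ∑ c ∈ univ.filter (fun c => c ∉ L), (tot χ c : ℝ) * (δ1 * n ^ 2) :=
          Finset.sum_le_sum hterm
      _ ≤ ∑ c : C, (tot χ c : ℝ) * (δ1 * n ^ 2) :=
          Finset.sum_le_sum_of_subset_of_nonneg (subset_univ _) fun _ _ _ => by positivity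
      _ = (∑ c : C, (tot χ c : ℝ)) * (δ1 * n ^ 2) := by rw [Finset.sum_mul]
      _ ≤ n ^ 2 * (δ1 * n ^ 2) := by
          apply mul_le_mul_of_nonneg_right _ (by positivity)
          rw [hn]
          exact_mod_cast sum_tot_le χ
  rcases hn0.eq_or_lt with h0 | h0
  · have hE : B = ∅ := by
      rw [Finset.eq_empty_iff_forall_notMem]
      intro p _
      have h1 : Fintype.card V = 0 := by
        rw [hn] at h0
        exact_mod_cast h0.symm
      haveI : IsEmpty V := Fintype.card_eq_zero_iff.mp h1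
      exact isEmptyElim p.1
    rw [hE, ← h0]; simp
  · have h2 : ((B.card : ℝ) * δ ^ 2) * n ^ 2 ≤ (δ1 * n ^ 2) * n ^ 2 := by
      calc ((B.card : ℝ) * δ ^ 2) * n ^ 2 = (B.card : ℝ) * (δ * n) ^ 2 := by ring
        _ ≤ n ^ 2 * (δ1 * n ^ 2) := hsum
        _ = (δ1 * n ^ 2) * n ^ 2 := by ring
    exact le_of_mul_le_mul_right h2 (by positivity)

end PF61
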