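import Pool.Agent.LibPF61.Defs

namespace PF61
open Finset
open scoped Classical

/-- homomorphism density of the 4-cycle (Cauchy-Schwarz twice: `Finset.inner_mul_le_norm_mul_norm`,
`sq_sum_le_card_mul_sum_sq`) -/
theorem c4_count {V : Type} [Fintype V] (B : V → V → Prop) :
    (((univ : Finset (V × V)).filter (fun p => B p.1 p.2)).card) ^ 4 ≤
      (Fintype.card V) ^ 4 *
      ((univ : Finset (V × V × V × V)).filter (fun p =>
        B p.1 p.2.2.1 ∧ B p.1 p.2.2.2 ∧ B p.2.1 p.2.2.1 ∧ B p.2.1 p.2.2.2)).card := by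
  set f : V → V → ℕ := fun a x => if B a x then 1 else 0 with hf
  have h1 : ((univ : Finset (V × V)).filter (fun p => B p.1 p.2)).card = ∑ a, ∑ x, f a x := by
    rw [card_filter, Fintype.sum_prod_type]
  have h2 : ((univ : Finset (V × V × V × V)).filter (fun p =>
        B p.1 p.2.2.1 ∧ B p.1 p.2.2.2 ∧ B p.2.1 p.2.2.1 ∧ B p.2.1 p.2.2.2)).card
      = ∑ x, ∑ y, (∑ a, f a x * f a y) ^ 2 := by
    have h3 : ((univ : Finset (V × V × V × V)).filter (fun p =>
        B p.1 p.2.2.1 ∧ B p.1 p.2.2.2 ∧ B p.2.1 p.2.2.1 ∧ B p.2.1 p.2.2.2)).card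
        = ∑ a, ∑ b, ∑ x, ∑ y, (f a x * f a y) * (f b x * f b y) := by
      rw [card_filter, Fintype.sum_prod_type]
      refine sum_congr rfl fun a _ => ?_
      rw [Fintype.sum_prod_type]
      refine sum_congr rfl fun b _ => ?_
      rw [Fintype.sum_prod_type]
      refine sum_congr rfl fun x _ => sum_congr rfl fun y _ => ?_
      simp only [hf]
      by_cases h1 : B a x <;> by_cases h2 : B a y <;> by_cases h3 : B b x <;>
        by_cases h4 : B b y <;> simp [h1, h2, h3, h4]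
    rw [h3]
    calc ∑ a, ∑ b, ∑ x, ∑ y, (f a x * f a y) * (f b x * f b y)
        = ∑ a, ∑ x, ∑ b, ∑ y, (f a x * f a y) * (f b x * f b y) :=
          sum_congr rfl fun a _ => sum_comm
      _ = ∑ x, ∑ a, ∑ b, ∑ y, (f a x * f a y) * (f b x * f b y) := sum_comm
      _ = ∑ x, ∑ a, ∑ y, ∑ b, (f a x * f a y) * (f b x * f b y) :=
          sum_congr rfl fun x _ => sum_congr rfl fun a _ => sum_comm
      _ = ∑ x, ∑ y, ∑ a, ∑ b, (f a x * f a y) * (f b x * f b y) :=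
          sum_congr rfl fun x _ => sum_comm
      _ = ∑ x, ∑ y, (∑ a, f a x * f a y) ^ 2 := by
          refine sum_congr rfl fun x _ => sum_congr rfl fun y _ => ?_
          rw [sq, sum_mul_sum]
  rw [h1, h2]
  have h4 : (∑ a, ∑ x, f a x) ^ 2 ≤ Fintype.card V * ∑ a, (∑ x, f a x) ^ 2 :=
    sq_sum_le_card_mul_sum_sq
  have h5 : ∑ a, (∑ x, f a x) ^ 2 = ∑ x, ∑ y, ∑ a, f a x * f a y := by
    calc ∑ a, (∑ x, f a x) ^ 2 = ∑ a, ∑ x, ∑ y, f a x * f a y := by
          refine sum_congr rfl fun a _ => ?_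
          rw [sq, sum_mul_sum]
      _ = ∑ x, ∑ a, ∑ y, f a x * f a y := sum_comm
      _ = ∑ x, ∑ y, ∑ a, f a x * f a y := sum_congr rfl fun x _ => sum_comm
  have h6 : (∑ x, ∑ y, ∑ a, f a x * f a y) ^ 2 ≤
      (Fintype.card V) ^ 2 * ∑ x, ∑ y, (∑ a, f a x * f a y) ^ 2 := by
    have := sq_sum_le_card_mul_sum_sq (s := (univ : Finset (V × V)))
      (f := fun p => ∑ a, f a p.1 * f a p.2)
    rw [Fintype.sum_prod_type, Fintype.sum_prod_type, card_univ, Fintype.card_prod] at this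
    calc _ ≤ _ := this
      _ = _ := by rw [sq (Fintype.card V)]; simp only [Nat.cast_id]
  calc (∑ a, ∑ x, f a x) ^ 4 = ((∑ a, ∑ x, f a x) ^ 2) ^ 2 := by ring
    _ ≤ (Fintype.card V * ∑ a, (∑ x, f a x) ^ 2) ^ 2 := Nat.pow_le_pow_left h4 2
    _ = (Fintype.card V) ^ 2 * (∑ x, ∑ y, ∑ a, f a x * f a y) ^ 2 := by rw [h5]; ring
    _ ≤ (Fintype.card V) ^ 2 *
        ((Fintype.card V) ^ 2 * ∑ x, ∑ y, (∑ a, f a x * f a y) ^ 2) :=
        Nat.mul_le_mul_left _ h6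
    _ = _ := by ring

end PF61
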