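import Pool.Agent.LibPF61.T10

namespace PF61
open Finset
open scoped Classical

variable {V C : Type} [Fintype V] [Fintype C]

/-- ordered pairs of distinct vertices of colour `c` -/
noncomputable def t14_E (χ : V → V → C) (c : C) : Finset (V × V) :=
  univ.filter (fun p => p.2 ≠ p.1 ∧ χ p.1 p.2 = c)

theorem t14_card_E (χ : V → V → C) (c : C) : (t14_E χ c).card = tot χ c := by
  unfold tot
  rw [Finset.card_eq_sum_card_fiberwise (f := fun p : V × V => p.1) (t := univ)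
    (fun _ _ => Finset.mem_coe.2 (Finset.mem_univ _))]
  refine Finset.sum_congr rfl (fun u _ => ?_)
  unfold cdeg
  refine Finset.card_bij (fun p _ => p.2) ?_ ?_ ?_
  · rintro ⟨a, b⟩ hp
    rw [Finset.mem_filter, t14_E, Finset.mem_filter] at hp
    obtain ⟨⟨-, h1, h2⟩, h3⟩ := hp
    simp only at h1 h2 h3
    subst h3
    exact Finset.mem_filter.2 ⟨Finset.mem_univ _, h1, h2⟩
  · rintro ⟨a, b⟩ hp ⟨a', b'⟩ hp' h
    rw [Finset.mem_filter] at hp hp'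
    simp only at h
    have h1 : a = u := hp.2
    have h2 : a' = u := hp'.2
    rw [h, h1, h2]
  · intro v hv
    rw [Finset.mem_filter] at hv
    exact ⟨(u, v), Finset.mem_filter.2 ⟨Finset.mem_filter.2 ⟨Finset.mem_univ _, hv.2.1, hv.2.2⟩,
      rfl⟩, rfl⟩

theorem t14_sum_tot (χ : V → V → C) (S : Finset C) :
    ∑ c ∈ S, (tot χ c : ℝ) ≤ (Fintype.card V : ℝ) ^ 2 := by
  calc ∑ c ∈ S, (tot χ c : ℝ) ≤ ∑ c : C, (tot χ c : ℝ) :=
        Finset.sum_le_sum_of_subset_of_nonneg (Finset.subset_univ _)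
          (fun _ _ _ => Nat.cast_nonneg _)
    _ = ((∑ c : C, tot χ c : ℕ) : ℝ) := by push_cast; rfl
    _ ≤ (((Fintype.card V) ^ 2 : ℕ) : ℝ) := by exact_mod_cast sum_tot_le χ
    _ = _ := by push_cast; rfl

/-- monochromatic triangles with first vertex `x` in the colour `c` -/
noncomputable def t14_T (χ : V → V → C) (c : C) (x : V) : Finset (V × V) :=
  univ.filter (fun q => q.1 ≠ x ∧ χ x q.1 = c ∧ q.2 ≠ x ∧ χ x q.2 = c ∧ q.2 ≠ q.1 ∧ χ q.1 q.2 = c)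

theorem t14_T_le (χ : V → V → C) (c : C) (x : V) :
    ((t14_T χ c x).card : ℝ) ≤ (cdeg χ c x : ℝ) * Real.sqrt (tot χ c : ℝ) := by
  have h1 : (t14_T χ c x).card ≤ cdeg χ c x * cdeg χ c x := by
    unfold cdeg
    rw [← Finset.card_product]
    refine Finset.card_le_card ?_
    rintro ⟨y, z⟩ hp
    rw [t14_T, Finset.mem_filter] at hp
    obtain ⟨-, h1, h2, h3, h4, -, -⟩ := hp
    rw [Finset.mem_product]
    exact ⟨Finset.mem_filter.2 ⟨Finset.mem_univ _, h1, h2⟩,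
      Finset.mem_filter.2 ⟨Finset.mem_univ _, h3, h4⟩⟩
  have h2 : (t14_T χ c x).card ≤ tot χ c := by
    rw [← t14_card_E]
    refine Finset.card_le_card ?_
    rintro ⟨y, z⟩ hp
    rw [t14_T, Finset.mem_filter] at hp
    obtain ⟨-, -, -, -, -, h5, h6⟩ := hp
    exact Finset.mem_filter.2 ⟨Finset.mem_univ _, h5, h6⟩
  have h1' : ((t14_T χ c x).card : ℝ) ≤ (cdeg χ c x : ℝ) * (cdeg χ c x : ℝ) := by
    exact_mod_cast h1
  have h2' : ((t14_T χ c x).card : ℝ) ≤ (tot χ c : ℝ) := by exact_mod_cast h2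
  have h3 : ((t14_T χ c x).card : ℝ) ^ 2 ≤ ((cdeg χ c x : ℝ) * Real.sqrt (tot χ c : ℝ)) ^ 2 := by
    rw [mul_pow, Real.sq_sqrt (Nat.cast_nonneg _), pow_two, pow_two]
    exact mul_le_mul h1' h2' (Nat.cast_nonneg _) (by positivity)
  exact le_of_sq_le_sq h3 (by positivity)

theorem t14_tri (χ : V → V → C) (c : C) :
    ((∑ x : V, (t14_T χ c x).card : ℕ) : ℝ) ≤ (tot χ c : ℝ) * Real.sqrt (tot χ c : ℝ) := by
  push_cast
  calc ∑ x : V, ((t14_T χ c x).card : ℝ)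
      ≤ ∑ x : V, (cdeg χ c x : ℝ) * Real.sqrt (tot χ c : ℝ) :=
        Finset.sum_le_sum (fun x _ => t14_T_le χ c x)
    _ = (∑ x : V, (cdeg χ c x : ℝ)) * Real.sqrt (tot χ c : ℝ) := by rw [Finset.sum_mul]
    _ = (tot χ c : ℝ) * Real.sqrt (tot χ c : ℝ) := by
        congr 1; unfold tot; push_cast; rfl

/-- monochromatic triangles in the sparse colours: for one colour `c` there are at most
`∑ x, min (d x ^ 2) (tot c) ≤ ∑ x, d x * √(tot c) = (tot c) ^ (3/2)` of them -/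
theorem tri_count (χ : V → V → C) (hχ : ∀ u v, χ u v = χ v u) (L : Finset C) (δ1 : ℝ)
    (hδ1 : 0 ≤ δ1) (hL : ∀ c, c ∉ L → (tot χ c : ℝ) ≤ δ1 * (Fintype.card V : ℝ) ^ 2) :
    (((univ : Finset (V × V × V)).filter (fun p =>
      p.1 ≠ p.2.1 ∧ p.2.1 ≠ p.2.2 ∧ p.1 ≠ p.2.2 ∧
      χ p.1 p.2.1 ∉ L ∧ χ p.1 p.2.1 = χ p.2.1 p.2.2 ∧ χ p.1 p.2.1 = χ p.1 p.2.2)).card : ℝ)
      ≤ Real.sqrt δ1 * (Fintype.card V : ℝ) ^ 3 := by
  set A := (univ : Finset (V × V × V)).filter (fun p =>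
      p.1 ≠ p.2.1 ∧ p.2.1 ≠ p.2.2 ∧ p.1 ≠ p.2.2 ∧
      χ p.1 p.2.1 ∉ L ∧ χ p.1 p.2.1 = χ p.2.1 p.2.2 ∧ χ p.1 p.2.1 = χ p.1 p.2.2) with hA
  set S := (univ : Finset C).filter (fun c => c ∉ L) with hS
  have h1 : A.card = ∑ c ∈ S, (A.filter (fun p => χ p.1 p.2.1 = c)).card := by
    refine Finset.card_eq_sum_card_fiberwise (fun p hp => ?_)
    rw [Finset.mem_coe, hA, Finset.mem_filter] at hp
    exact Finset.mem_coe.2 (Finset.mem_filter.2 ⟨Finset.mem_univ _, hp.2.2.2.2.1⟩)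
  have h2 : ∀ c ∈ S, (A.filter (fun p => χ p.1 p.2.1 = c)).card ≤
      ∑ x : V, (t14_T χ c x).card := by
    intro c _
    rw [Finset.card_eq_sum_card_fiberwise (f := fun p : V × V × V => p.1) (t := univ)
      (fun _ _ => Finset.mem_coe.2 (Finset.mem_univ _))]
    refine Finset.sum_le_sum (fun x _ => ?_)
    refine Finset.card_le_card_of_injOn (fun p => p.2) ?_ ?_
    · rintro ⟨x', y, z⟩ hp
      rw [Finset.mem_coe, Finset.mem_filter, Finset.mem_filter, hA, Finset.mem_filter] at hp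
      obtain ⟨⟨⟨-, a1, a2, a3, a4, a5, a6⟩, b⟩, c1⟩ := hp
      simp only at a1 a2 a3 a4 a5 a6 b c1
      subst c1
      rw [Finset.mem_coe, t14_T, Finset.mem_filter]
      refine ⟨Finset.mem_univ _, Ne.symm a1, b, Ne.symm a3, ?_, Ne.symm a2, ?_⟩
      · rw [← b]; exact a6.symm
      · rw [← b]; exact a5.symm
    · rintro ⟨x1, y⟩ hp ⟨x2, y'⟩ hp' h
      rw [Finset.mem_coe, Finset.mem_filter] at hp hp'
      have e1 : x1 = x := hp.2
      have e2 : x2 = x := hp'.2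
      simp only at h
      rw [e1, e2, h]
  have hn : (0 : ℝ) ≤ (Fintype.card V : ℝ) := Nat.cast_nonneg _
  have h3 : (A.card : ℝ) ≤ ∑ c ∈ S, (tot χ c : ℝ) * Real.sqrt (tot χ c : ℝ) := by
    rw [h1]
    push_cast
    refine Finset.sum_le_sum (fun c hc => ?_)
    refine le_trans ?_ (t14_tri χ c)
    exact_mod_cast h2 c hc
  have h4 : ∀ c ∈ S, (tot χ c : ℝ) * Real.sqrt (tot χ c : ℝ) ≤
      (tot χ c : ℝ) * (Real.sqrt δ1 * (Fintype.card V : ℝ)) := by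
    intro c hc
    refine mul_le_mul_of_nonneg_left ?_ (Nat.cast_nonneg _)
    have h5 := hL c (Finset.mem_filter.1 hc).2
    calc Real.sqrt (tot χ c : ℝ) ≤ Real.sqrt (δ1 * (Fintype.card V : ℝ) ^ 2) :=
          Real.sqrt_le_sqrt h5
      _ = Real.sqrt δ1 * (Fintype.card V : ℝ) := by
          rw [Real.sqrt_mul hδ1, Real.sqrt_sq hn]
  calc (A.card : ℝ) ≤ ∑ c ∈ S, (tot χ c : ℝ) * Real.sqrt (tot χ c : ℝ) := h3
    _ ≤ ∑ c ∈ S, (tot χ c : ℝ) * (Real.sqrt δ1 * (Fintype.card V : ℝ)) :=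
        Finset.sum_le_sum h4
    _ = (∑ c ∈ S, (tot χ c : ℝ)) * (Real.sqrt δ1 * (Fintype.card V : ℝ)) := by
        rw [Finset.sum_mul]
    _ ≤ (Fintype.card V : ℝ) ^ 2 * (Real.sqrt δ1 * (Fintype.card V : ℝ)) :=
        mul_le_mul_of_nonneg_right (t14_sum_tot χ S) (by positivity)
    _ = Real.sqrt δ1 * (Fintype.card V : ℝ) ^ 3 := by ring

/-- pairs of edges of the same sparse colour: at most `∑ c ∉ L, (tot c) ^ 2` -/
theorem quad_count (χ : V → V → C) (L : Finset C) (δ1 : ℝ)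
    (hL : ∀ c, c ∉ L → (tot χ c : ℝ) ≤ δ1 * (Fintype.card V : ℝ) ^ 2) (hδ1 : 0 ≤ δ1) :
    (((univ : Finset (V × V × V × V)).filter (fun p =>
      p.1 ≠ p.2.1 ∧ p.2.2.1 ≠ p.2.2.2 ∧
      χ p.1 p.2.1 ∉ L ∧ χ p.1 p.2.1 = χ p.2.2.1 p.2.2.2)).card : ℝ)
      ≤ δ1 * (Fintype.card V : ℝ) ^ 4 := by
  set A := (univ : Finset (V × V × V × V)).filter (fun p =>
      p.1 ≠ p.2.1 ∧ p.2.2.1 ≠ p.2.2.2 ∧
      χ p.1 p.2.1 ∉ L ∧ χ p.1 p.2.1 = χ p.2.2.1 p.2.2.2) with hA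
  set S := (univ : Finset C).filter (fun c => c ∉ L) with hS
  have h1 : A.card = ∑ c ∈ S, (A.filter (fun p => χ p.1 p.2.1 = c)).card := by
    refine Finset.card_eq_sum_card_fiberwise (fun p hp => ?_)
    rw [Finset.mem_coe, hA, Finset.mem_filter] at hp
    exact Finset.mem_coe.2 (Finset.mem_filter.2 ⟨Finset.mem_univ _, hp.2.2.2.1⟩)
  have h2 : ∀ c ∈ S, (A.filter (fun p => χ p.1 p.2.1 = c)).card ≤ tot χ c * tot χ c := by
    intro c _
    rw [← t14_card_E, ← Finset.card_product]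
    refine Finset.card_le_card_of_injOn (fun p => ((p.1, p.2.1), (p.2.2.1, p.2.2.2))) ?_ ?_
    · rintro ⟨x, y, z, w⟩ hp
      rw [Finset.mem_coe, Finset.mem_filter, hA, Finset.mem_filter] at hp
      obtain ⟨⟨-, a1, a2, a3, a4⟩, b⟩ := hp
      simp only at a1 a2 a3 a4 b
      rw [Finset.mem_coe, Finset.mem_product]
      refine ⟨Finset.mem_filter.2 ⟨Finset.mem_univ _, Ne.symm a1, b⟩,
        Finset.mem_filter.2 ⟨Finset.mem_univ _, Ne.symm a2, ?_⟩⟩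
      rw [← b]; exact a4.symm
    · rintro ⟨x, y, z, w⟩ _ ⟨x', y', z', w'⟩ _ h
      simp only [Prod.mk.injEq] at h
      obtain ⟨⟨h1, h2⟩, h3, h4⟩ := h
      rw [h1, h2, h3, h4]
  have h3 : (A.card : ℝ) ≤ ∑ c ∈ S, (tot χ c : ℝ) * (tot χ c : ℝ) := by
    rw [h1]
    push_cast
    refine Finset.sum_le_sum (fun c hc => ?_)
    exact_mod_cast h2 c hc
  calc (A.card : ℝ) ≤ ∑ c ∈ S, (tot χ c : ℝ) * (tot χ c : ℝ) := h3
    _ ≤ ∑ c ∈ S, (tot χ c : ℝ) * (δ1 * (Fintype.card V : ℝ) ^ 2) :=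
        Finset.sum_le_sum (fun c hc => mul_le_mul_of_nonneg_left
          (hL c (Finset.mem_filter.1 hc).2) (Nat.cast_nonneg _))
    _ = (∑ c ∈ S, (tot χ c : ℝ)) * (δ1 * (Fintype.card V : ℝ) ^ 2) := by
        rw [Finset.sum_mul]
    _ ≤ (Fintype.card V : ℝ) ^ 2 * (δ1 * (Fintype.card V : ℝ) ^ 2) :=
        mul_le_mul_of_nonneg_right (t14_sum_tot χ S) (by positivity)
    _ = δ1 * (Fintype.card V : ℝ) ^ 4 := by ring

end PF61
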