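import Pool.Agent.LibPF61.Defs

namespace PF61
open Finset
open scoped Classical

variable {V C : Type} [Fintype V] [Fintype C]

theorem good_nodup (χ : V → V → C) (L : Finset C) (b : List V) (hb : Good χ L b) : b.Nodup := by
  induction b with
  | nil => exact List.nodup_nil
  | cons v b ih =>
    obtain ⟨h1, _, h3⟩ := hb
    exact List.nodup_cons.mpr ⟨h1, ih h3⟩

theorem t20_aux (χ : V → V → C) (L : Finset C) (k : ℕ) (hk : 0 < k) (x : ℝ)
    (h : ∀ W : Finset V, x ≤ (W.card : ℝ) →
      ∃ b : List V, b.length = k ∧ (∀ v ∈ b, v ∈ W) ∧ Good χ L b) (n : ℕ) :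
    ∀ A : Finset V, A.card = n →
    ∃ B : List (List V), (∀ b ∈ B, b.length = k ∧ Good χ L b) ∧ B.flatten.Nodup ∧
      (∀ v ∈ B.flatten, v ∈ A) ∧ (A.card : ℝ) - x ≤ (B.flatten.length : ℝ) := by
  induction n using Nat.strong_induction_on with
  | _ n ih =>
    intro A hA
    by_cases hx : x ≤ (A.card : ℝ)
    · obtain ⟨b, hb1, hb2, hb3⟩ := h A hx
      have hbn := good_nodup χ L b hb3
      have hsub : b.toFinset ⊆ A := by
        intro v hv
        exact hb2 v (List.mem_toFinset.mp hv)
      have hcard : b.toFinset.card = k := by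
        rw [List.toFinset_card_of_nodup hbn, hb1]
      have hcard2 : (A \ b.toFinset).card = A.card - k := by
        rw [Finset.card_sdiff_of_subset hsub, hcard]
      have hle : k ≤ A.card := by
        rw [← hcard]
        exact Finset.card_le_card hsub
      obtain ⟨B, hB1, hB2, hB3, hB4⟩ := ih (A.card - k) (by omega) (A \ b.toFinset) hcard2
      refine ⟨b :: B, ?_, ?_, ?_, ?_⟩
      · intro c hc
        rcases List.mem_cons.mp hc with rfl | hc
        · exact ⟨hb1, hb3⟩
        · exact hB1 c hc
      · rw [List.flatten_cons, List.nodup_append']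
        refine ⟨hbn, hB2, ?_⟩
        intro v hv1 hv2
        have := hB3 v hv2
        rw [Finset.mem_sdiff, List.mem_toFinset] at this
        exact this.2 hv1
      · intro v hv
        rw [List.flatten_cons, List.mem_append] at hv
        rcases hv with hv | hv
        · exact hb2 v hv
        · exact (Finset.mem_sdiff.mp (hB3 v hv)).1
      · rw [List.flatten_cons, List.length_append, hb1]
        rw [hcard2] at hB4
        push_cast [Nat.cast_sub hle] at hB4 ⊢
        linarith
    · refine ⟨[], by simp, by simp, by simp, ?_⟩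
      simp only [List.flatten_nil, List.length_nil, Nat.cast_zero]
      linarith [not_le.mp hx]

/-- greedy extraction of disjoint good sequences -/
theorem blocks_exist (χ : V → V → C) (L : Finset C) (k : ℕ) (hk : 0 < k) (x : ℝ)
    (h : ∀ W : Finset V, x ≤ (W.card : ℝ) →
      ∃ b : List V, b.length = k ∧ (∀ v ∈ b, v ∈ W) ∧ Good χ L b) (A : Finset V) :
    ∃ B : List (List V), (∀ b ∈ B, b.length = k ∧ Good χ L b) ∧ B.flatten.Nodup ∧
      (∀ v ∈ B.flatten, v ∈ A) ∧ (A.card : ℝ) - x ≤ (B.flatten.length : ℝ) :=
  t20_aux χ L k hk x h A.card A rfl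

end PF61
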