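import Pool.Agent.LibPF61.Defs

namespace PF61
open Finset
open scoped Classical

theorem dd_nonneg (N i : ℕ) : 0 ≤ dd N i := by
  unfold dd
  exact le_max_left _ _

theorem gg_nonneg (N j : ℕ) : 0 ≤ gg N j := by
  unfold gg
  exact Finset.sum_nonneg fun i _ => dd_nonneg N i

theorem gg_le_zero (N j : ℕ) : gg N j ≤ gg N 0 := by
  unfold gg
  apply Finset.sum_le_sum_of_subset_of_nonneg
  · intro i hi
    rw [Finset.mem_Ico] at hi ⊢
    omega
  · intro i _ _
    exact dd_nonneg N i

theorem t21_sub (N j : ℕ) (hj : j < 2 * N + 2) : gg N j = dd N j + gg N (j + 1) := by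
  unfold gg
  rw [Finset.sum_eq_sum_Ico_succ_bot hj]

/-- `gg N j - gg N (j + 1) = dd N j` for `j < 2 N + 2`.  Write `d = dd N m`, `d' = dd N (m - 1)`,
`q = 2 N + 2`.  The right hand side is `≥` its value at the least admissible
`P = (p m - 1)/(m - 1) ≥ p - 1/(m - 1)`.  If `m = q`, it is `2 P` with `m - 1 = 2 N + 1`.  If `d = 0`
it is `≥ 1 ≥ 2 p`.  If `d > 0` and `m < q` then `m - 1 ≥ N + 1`, `d' ≥ d - 1/N`, `d ≤ 1` and
`1 + P d' - (1 - P) d ≥ 2 P - 1/N` for `P ≤ 1/2`. -/
theorem pot_step (N : ℕ) (hN : 1 ≤ N) (p P : ℝ) (hp0 : 0 ≤ p) (hp : p ≤ 1 / 2) (hP0 : 0 ≤ P)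
    (hP1 : P ≤ 1) (m : ℕ) (hm : m ≤ 2 * N + 2) (h : p * m ≤ 1 + ((m : ℝ) - 1) * P) :
    2 * p - 3 / N ≤ P * (1 + gg N (m - 1) - gg N m) +
      (1 - P) * (if m < 2 * N + 2 then 1 + gg N (m + 1) - gg N m else 0) := by
  have hN0 : (0 : ℝ) < N := by exact_mod_cast hN
  have hNinv : 0 < 1 / (N : ℝ) := by positivity
  have h3N : 3 / (N : ℝ) = 3 * (1 / N) := by ring
  -- the lower bound for `P`
  have key : (N : ℝ) + 1 ≤ m → p - 1 / N ≤ P := by
    intro hmN
    by_contra hcon
    have h1 : P - p < - (1 / N) := by linarith [not_le.mp hcon]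
    have h2 : (N : ℝ) * (P - p) < -1 := by
      calc (N : ℝ) * (P - p) < N * (-(1 / N)) := mul_lt_mul_of_pos_left h1 hN0
        _ = -1 := by field_simp
    have h3 : ((m : ℝ) - 1) * (P - p) ≤ N * (P - p) :=
      mul_le_mul_of_nonpos_right (by linarith) (by linarith)
    have h4 : -1 ≤ ((m : ℝ) - 1) * (P - p) := by
      have : ((m : ℝ) - 1) * (P - p) = ((m : ℝ) - 1) * P - p * m + p := by ring
      rw [this]
      linarith
    linarith
  rcases lt_or_eq_of_le hm with hlt | heq
  · rw [if_pos hlt]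
    have h1 := t21_sub N m hlt
    set d := dd N m with hd
    have hd0 : 0 ≤ d := dd_nonneg N m
    have h2 : 1 + gg N (m + 1) - gg N m = 1 - d := by rw [h1]; ring
    rw [h2]
    have hD : ∃ d' : ℝ, 0 ≤ d' ∧ gg N (m - 1) - gg N m = d' ∧ (1 ≤ m → d' = dd N (m - 1)) := by
      rcases Nat.eq_zero_or_pos m with h0 | h0
      · subst h0
        exact ⟨0, le_rfl, by simp, fun h => by omega⟩
      · refine ⟨dd N (m - 1), dd_nonneg _ _, ?_, fun _ => rfl⟩
        have h3 := t21_sub N (m - 1) (by omega)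
        rw [Nat.sub_add_cancel h0] at h3
        rw [h3]; ring
    obtain ⟨d', hd'0, hd'1, hd'2⟩ := hD
    have h4 : P * (1 + gg N (m - 1) - gg N m) = P + P * d' := by rw [← hd'1]; ring
    rw [h4]
    have hPd' : 0 ≤ P * d' := mul_nonneg hP0 hd'0
    rcases le_or_gt (1 - ((2 * N + 1 : ℝ) - m) / N) 0 with hz | hz
    · have hdz : d = 0 := by
        rw [hd]
        unfold dd
        exact max_eq_left hz
      rw [hdz, h3N]
      linarith
    · have hdv : d = 1 - ((2 * N + 1 : ℝ) - m) / N := by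
        rw [hd]
        unfold dd
        exact max_eq_right hz.le
      have h5 : ((2 * N + 1 : ℝ) - m) / N < 1 := by linarith
      rw [div_lt_one hN0] at h5
      have h6 : (N : ℝ) + 1 ≤ m := by linarith
      have h7 := key h6
      have hm1 : 1 ≤ m := by
        have : (0 : ℝ) < m := by linarith
        exact_mod_cast this
      have hd1 : d ≤ 1 := by
        rw [hdv]
        have : (m : ℝ) ≤ 2 * N + 1 := by
          exact_mod_cast (by omega : m ≤ 2 * N + 1)
        have : 0 ≤ ((2 * N + 1 : ℝ) - m) / N := div_nonneg (by linarith) hN0.le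
        linarith
      have h8 : d - 1 / N ≤ d' := by
        rw [hd'2 hm1, hdv]
        unfold dd
        refine le_trans (le_of_eq ?_) (le_max_right _ _)
        rw [Nat.cast_sub hm1]
        push_cast
        ring
      have h9 : P * (d - 1 / N) ≤ P * d' := mul_le_mul_of_nonneg_left h8 hP0
      have h10 : P * (1 / N) ≤ 1 * (1 / N) := mul_le_mul_of_nonneg_right hP1 hNinv.le
      have h11 : d * (p - 1 / N) ≤ d * P := mul_le_mul_of_nonneg_left h7 hd0
      have h12 : (1 - d) * (2 * p) ≤ (1 - d) * 1 :=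
        mul_le_mul_of_nonneg_left (by linarith) (by linarith)
      have h13 : d * (1 / N) ≤ 1 * (1 / N) := mul_le_mul_of_nonneg_right hd1 hNinv.le
      have e1 : P * (d - 1 / N) = d * P - P * (1 / N) := by ring
      have e2 : d * (p - 1 / N) = d * p - d * (1 / N) := by ring
      have e3 : (1 - d) * (2 * p) = 2 * p - 2 * (d * p) := by ring
      have e4 : (1 - P) * (1 - d) = 1 - P - d + d * P := by ring
      rw [e1] at h9
      rw [e2] at h11
      rw [e3] at h12
      rw [h3N, e4]
      linarith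
  · rw [if_neg (by omega)]
    have h1 := t21_sub N (m - 1) (by omega)
    rw [Nat.sub_add_cancel (by omega)] at h1
    have h2 : dd N (m - 1) = 1 := by
      unfold dd
      rw [heq]
      have : ((2 * N + 2 - 1 : ℕ) : ℝ) = 2 * N + 1 := by
        have : 2 * N + 2 - 1 = 2 * N + 1 := by omega
        rw [this]
        push_cast
        ring
      rw [this, sub_self, zero_div, sub_zero]
      exact max_eq_right zero_le_one
    have h3 := key (by rw [heq]; push_cast; linarith)
    rw [h1, h2, h3N]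
    linarith

end PF61
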