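import Pool.Agent.LibPF61.T21

namespace PF61
open Finset
open scoped Classical

variable {V C : Type} [Fintype V] [Fintype C]

theorem t22_ps (χ : V → V → C) (S : Finset C) (A : Finset V) (v : V) (hv : v ∉ A)
    (P P' : List (List V)) (hP : PS χ S A P) (hperm : P'.flatten.Perm (v :: P.flatten))
    (hne : ∀ l ∈ P', l ≠ []) (hch : ∀ l ∈ P', l.IsChain (fun u v => χ u v ∈ S)) :
    PS χ S (insert v A) P' ∧ P'.flatten.length = P.flatten.length + 1 := by
  refine ⟨⟨hne, hch, ?_, ?_⟩, ?_⟩
  · rw [hperm.nodup_iff, List.nodup_cons]
    exact ⟨fun h => hv (hP.sub v h), hP.nodup⟩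
  · intro w hw
    rw [hperm.mem_iff, List.mem_cons] at hw
    rcases hw with rfl | hw
    · exact Finset.mem_insert_self _ _
    · exact Finset.mem_insert_of_mem (hP.sub w hw)
  · rw [hperm.length_eq, List.length_cons]

theorem t22_chain (χ : V → V → C) (hχ : ∀ u v, χ u v = χ v u) (S : Finset C) (v : V)
    (l1 l2 : List V) (h1 : l1.IsChain (fun u v => χ u v ∈ S))
    (h2 : l2.IsChain (fun u v => χ u v ∈ S)) (hh1 : Hit χ S v l1) (hh2 : Hit χ S v l2) :
    (l1.reverse ++ v :: l2).IsChain (fun u v => χ u v ∈ S) := by
  obtain ⟨x1, hx1, hx1'⟩ := hh1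
  obtain ⟨x2, hx2, hx2'⟩ := hh2
  rw [List.isChain_append]
  refine ⟨?_, ?_, ?_⟩
  · rw [List.isChain_reverse]
    refine h1.imp ?_
    intro a b hab
    rw [hχ]
    exact hab
  · rw [List.isChain_cons]
    refine ⟨?_, h2⟩
    intro y hy
    have : y = x2 := by
      rw [Option.mem_def] at hy hx2
      rw [hx2] at hy
      exact (Option.some.inj hy).symm
    rw [this]
    exact hx2'
  · intro x hx y hy
    rw [List.getLast?_reverse] at hx
    have e1 : x = x1 := by
      rw [Option.mem_def] at hx hx1
      rw [hx1] at hx
      exact (Option.some.inj hx).symm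
    have e2 : y = v := by
      rw [List.head?_cons, Option.mem_def] at hy
      exact (Option.some.inj hy).symm
    rw [e1, e2, hχ]
    exact hx1'

/-- adding a vertex `v` to a system of paths: if at least two paths `l1, l2` are hit, replace them by
`l1.reverse ++ v :: l2`; otherwise, if there is room, add the path `[v]`; otherwise do nothing. -/
theorem ext_step (χ : V → V → C) (hχ : ∀ u v, χ u v = χ v u) (N : ℕ) (S : Finset C) (A : Finset V)
    (v : V) (hv : v ∉ A) (P : List (List V)) (hP : PS χ S A P) (hlen : P.length ≤ 2 * N + 2) :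
    ∃ P' : List (List V), PS χ S (insert v A) P' ∧ P'.length ≤ 2 * N + 2 ∧
      (P.flatten.length : ℝ) + gg N P.length +
        (if 2 ≤ hits χ S v P then 1 + gg N (P.length - 1) - gg N P.length
          else if P.length < 2 * N + 2 then 1 + gg N (P.length + 1) - gg N P.length else 0)
        ≤ (P'.flatten.length : ℝ) + gg N P'.length := by
  by_cases h2 : 2 ≤ hits χ S v P
  · rw [if_pos h2]
    unfold hits at h2
    have hp := List.filter_append_perm (fun l => decide (Hit χ S v l)) P
    rcases hF : P.filter (fun l => decide (Hit χ S v l)) with _ | ⟨l1, _ | ⟨l2, rest⟩⟩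
    · rw [hF] at h2
      simp at h2
    · rw [hF] at h2
      simp at h2
    · rw [hF] at hp
      set Q := rest ++ P.filter (fun l => !decide (Hit χ S v l)) with hQ
      have hp' : (l1 :: l2 :: Q).Perm P := hp
      have hm1 : l1 ∈ P.filter (fun l => decide (Hit χ S v l)) := by rw [hF]; simp
      have hm2 : l2 ∈ P.filter (fun l => decide (Hit χ S v l)) := by rw [hF]; simp
      rw [List.mem_filter] at hm1 hm2
      have hh1 : Hit χ S v l1 := of_decide_eq_true hm1.2
      have hh2 : Hit χ S v l2 := of_decide_eq_true hm2.2
      have hQP : ∀ l ∈ Q, l ∈ P := fun l hl =>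
        hp'.mem_iff.mp (List.mem_cons_of_mem _ (List.mem_cons_of_mem _ hl))
      have hperm : ((l1.reverse ++ v :: l2) :: Q).flatten.Perm (v :: P.flatten) := by
        have e1 : (l1 :: l2 :: Q).flatten.Perm P.flatten := hp'.flatten
        refine List.Perm.trans ?_ (e1.cons v)
        simp only [List.flatten_cons]
        rw [List.append_assoc, List.cons_append]
        refine List.Perm.trans List.perm_middle ?_
        refine List.Perm.cons v ?_
        exact (List.reverse_perm l1).append_right _
      obtain ⟨hPS, hl⟩ := t22_ps χ S A v hv P ((l1.reverse ++ v :: l2) :: Q) hP hperm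
        (by
          intro l hl
          rcases List.mem_cons.mp hl with rfl | hl
          · simp
          · exact hP.ne l (hQP l hl))
        (by
          intro l hl
          rcases List.mem_cons.mp hl with rfl | hl
          · exact t22_chain χ hχ S v l1 l2 (hP.chain l1 hm1.1) (hP.chain l2 hm2.1) hh1 hh2
          · exact hP.chain l (hQP l hl))
      have hlenP : P.length = Q.length + 2 := by
        rw [← hp'.length_eq]
        simp
      refine ⟨_, hPS, ?_, ?_⟩
      · rw [List.length_cons]
        omega
      · rw [hl, List.length_cons, hlenP]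
        have : Q.length + 2 - 1 = Q.length + 1 := by omega
        rw [this]
        push_cast
        linarith
  · rw [if_neg h2]
    by_cases hr : P.length < 2 * N + 2
    · rw [if_pos hr]
      obtain ⟨hPS, hl⟩ := t22_ps χ S A v hv P ([v] :: P) hP (by simp)
        (by
          intro l hl
          rcases List.mem_cons.mp hl with rfl | hl
          · simp
          · exact hP.ne l hl)
        (by
          intro l hl
          rcases List.mem_cons.mp hl with rfl | hl
          · simp
          · exact hP.chain l hl)
      refine ⟨_, hPS, ?_, ?_⟩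
      · rw [List.length_cons]
        omega
      · rw [hl, List.length_cons]
        push_cast
        linarith
    · rw [if_neg hr]
      refine ⟨P, ⟨hP.ne, hP.chain, hP.nodup, fun w hw => Finset.mem_insert_of_mem (hP.sub w hw)⟩,
        hlen, ?_⟩
      linarith

end PF61
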