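import Pool.Agent.LibPF61.T04
import Pool.Agent.LibPF61.T05
import Pool.Agent.LibPF61.T21

namespace PF61
open Finset
open scoped Classical

variable {V C : Type} [Fintype V] [Fintype C]

theorem t23_hits_cons (χ : V → V → C) (S : Finset C) (v : V) (l : List V) (P : List (List V)) :
    (hits χ S v (l :: P) : ℝ) = (if Hit χ S v l then 1 else 0) + (hits χ S v P : ℝ) := by
  unfold hits
  rw [List.filter_cons]
  by_cases h : Hit χ S v l
  · simp [h]; ring
  · simp [h]

theorem t23_one (χ : V → V → C) (L : Finset C) {M : ℕ} (hM : 0 < M) (a : ℕ) (haM : a ≤ M)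
    (K : Finset C) (v x : V) (l : List V) (hK : χ v x ∈ L ∨ χ v x ∉ K) (ω : C → Fin M) :
    ((a : ℝ) / M) * (Fintype.card (C → Fin M) : ℝ) ≤
      ∑ ρ : C → Fin M, (if Hit χ (SS L a (comb K ω ρ)) v (x :: l) then (1 : ℝ) else 0) := by
  have hMR : (0 : ℝ) < M := by exact_mod_cast hM
  have hHit : ∀ ρ : C → Fin M, Hit χ (SS L a (comb K ω ρ)) v (x :: l) ↔
      (χ v x ∈ L ∨ (comb K ω ρ (χ v x) : ℕ) < a) := by
    intro ρ
    unfold Hit SS
    simp
  by_cases hL : χ v x ∈ L
  · have h1 : ∀ ρ : C → Fin M, (if Hit χ (SS L a (comb K ω ρ)) v (x :: l) then (1 : ℝ) else 0) = 1 := by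
      intro ρ
      rw [if_pos ((hHit ρ).2 (Or.inl hL))]
    simp_rw [h1]
    rw [Finset.sum_const, Finset.card_univ, nsmul_eq_mul, mul_one]
    have h2 : (a : ℝ) / M ≤ 1 := by
      rw [div_le_one hMR]
      exact_mod_cast haM
    calc _ ≤ 1 * (Fintype.card (C → Fin M) : ℝ) :=
          mul_le_mul_of_nonneg_right h2 (Nat.cast_nonneg _)
      _ = _ := one_mul _
  · have hK' : χ v x ∉ K := hK.resolve_left hL
    have h1 : ∀ ρ : C → Fin M, (if Hit χ (SS L a (comb K ω ρ)) v (x :: l) then (1 : ℝ) else 0) =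
        if (ρ (χ v x) : ℕ) < a then 1 else 0 := by
      intro ρ
      have h2 : comb K ω ρ (χ v x) = ρ (χ v x) := by
        unfold comb
        rw [if_neg hK']
      have h3 := hHit ρ
      rw [h2] at h3
      by_cases h4 : (ρ (χ v x) : ℕ) < a
      · rw [if_pos h4, if_pos (h3.2 (Or.inr h4))]
      · rw [if_neg h4, if_neg]
        intro h5
        rcases h3.1 h5 with h6 | h6
        · exact hL h6
        · exact h4 h6
    simp_rw [h1]
    rw [Finset.sum_boole]
    have h5 := prob_one (C := C) a haM (χ v x)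
    have h6 : ((univ.filter (fun ω : C → Fin M => (ω (χ v x) : ℕ) < a)).card : ℝ) * M =
        a * (Fintype.card (C → Fin M) : ℝ) := by exact_mod_cast h5
    apply le_of_eq
    field_simp
    linarith

/-- the expected number of hit paths (linearity; for one path with head `x` either
`χ v x ∈ L`, or `χ v x ∉ K` and `prob_one`) -/
theorem hits_sum (χ : V → V → C) (L : Finset C) {M : ℕ} (hM : 0 < M) (a : ℕ) (haM : a ≤ M)
    (K : Finset C) (v : V) (P : List (List V)) (hne : ∀ l ∈ P, l ≠ [])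
    (hK : ∀ x ∈ P.flatten, χ v x ∈ L ∨ χ v x ∉ K) (ω : C → Fin M) :
    ((a : ℝ) / M) * (P.length : ℝ) * (Fintype.card (C → Fin M) : ℝ) ≤
      ∑ ρ : C → Fin M, (hits χ (SS L a (comb K ω ρ)) v P : ℝ) := by
  induction P with
  | nil =>
    simp [hits]
  | cons l P ih =>
    have ih' := ih (fun l' hl' => hne l' (List.mem_cons_of_mem _ hl'))
      (fun x hx => hK x (by rw [List.flatten_cons, List.mem_append]; exact Or.inr hx))
    simp_rw [t23_hits_cons]
    rw [Finset.sum_add_distrib]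
    obtain ⟨x, l', rfl⟩ : ∃ x l', l = x :: l' := by
      cases l with
      | nil => exact absurd rfl (hne [] (List.mem_cons_self))
      | cons x l' => exact ⟨x, l', rfl⟩
    have h1 := t23_one χ L hM a haM K v x l' (hK x (by simp)) ω
    rw [List.length_cons]
    push_cast
    calc _ = ((a : ℝ) / M) * (Fintype.card (C → Fin M) : ℝ) +
          ((a : ℝ) / M) * (P.length : ℝ) * (Fintype.card (C → Fin M) : ℝ) := by ring
      _ ≤ _ := add_le_add h1 ih'

/-- expected gain: `hits_sum`, `hits ≤ P.length`, `hits ≤ 1 + (m - 1) 1[2 ≤ hits]`, `pot_step` with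
`P = #{ρ | 2 ≤ hits} / #(C → Fin M)` -/
theorem gain_sum (χ : V → V → C) (L : Finset C) {M : ℕ} (hM : 0 < M) (a : ℕ) (haM : 2 * a ≤ M)
    (N : ℕ) (hN : 1 ≤ N)
    (K : Finset C) (v : V) (P : List (List V)) (hne : ∀ l ∈ P, l ≠ []) (hlen : P.length ≤ 2 * N + 2)
    (hK : ∀ x ∈ P.flatten, χ v x ∈ L ∨ χ v x ∉ K) (ω : C → Fin M) :
    (2 * ((a : ℝ) / M) - 3 / N) * (Fintype.card (C → Fin M) : ℝ) ≤
      ∑ ρ : C → Fin M, (if 2 ≤ hits χ (SS L a (comb K ω ρ)) v P
          then 1 + gg N (P.length - 1) - gg N P.length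
          else if P.length < 2 * N + 2 then 1 + gg N (P.length + 1) - gg N P.length else 0) := by
  have hMR : (0 : ℝ) < M := by exact_mod_cast hM
  have : Nonempty (Fin M) := ⟨⟨0, hM⟩⟩
  have hΩ : (0 : ℝ) < (Fintype.card (C → Fin M) : ℝ) := by
    have : 0 < Fintype.card (C → Fin M) := Fintype.card_pos
    exact_mod_cast this
  set Ω : ℝ := (Fintype.card (C → Fin M) : ℝ) with hΩdef
  set A : Finset (C → Fin M) := univ.filter (fun ρ => 2 ≤ hits χ (SS L a (comb K ω ρ)) v P) with hA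
  set Q : ℝ := (A.card : ℝ) / Ω with hQ
  have hAle : (A.card : ℝ) ≤ Ω := by
    have h1 : A.card ≤ Fintype.card (C → Fin M) := Finset.card_le_univ _
    rw [hΩdef]
    exact_mod_cast h1
  have hs := hits_sum χ L hM a (by omega) K v P hne hK ω
  have hb : ∀ ρ : C → Fin M, (hits χ (SS L a (comb K ω ρ)) v P : ℝ) ≤
      1 + ((P.length : ℝ) - 1) * (if 2 ≤ hits χ (SS L a (comb K ω ρ)) v P then 1 else 0) := by
    intro ρ
    have h1 : hits χ (SS L a (comb K ω ρ)) v P ≤ P.length := by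
      unfold hits
      exact List.length_filter_le _ _
    by_cases h2 : 2 ≤ hits χ (SS L a (comb K ω ρ)) v P
    · rw [if_pos h2]
      have : (hits χ (SS L a (comb K ω ρ)) v P : ℝ) ≤ P.length := by exact_mod_cast h1
      linarith
    · rw [if_neg h2]
      have : (hits χ (SS L a (comb K ω ρ)) v P : ℝ) ≤ 1 := by
        have : hits χ (SS L a (comb K ω ρ)) v P ≤ 1 := by omega
        exact_mod_cast this
      linarith
  have hsum2 : ∑ ρ : C → Fin M, (hits χ (SS L a (comb K ω ρ)) v P : ℝ) ≤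
      Ω + ((P.length : ℝ) - 1) * (A.card : ℝ) := by
    calc _ ≤ ∑ ρ : C → Fin M, (1 + ((P.length : ℝ) - 1) *
          (if 2 ≤ hits χ (SS L a (comb K ω ρ)) v P then (1 : ℝ) else 0)) :=
          Finset.sum_le_sum fun ρ _ => hb ρ
      _ = _ := by
          rw [Finset.sum_add_distrib, ← Finset.mul_sum, Finset.sum_boole, Finset.sum_const,
            Finset.card_univ, nsmul_eq_mul, mul_one]
  have hcond : ((a : ℝ) / M) * (P.length : ℝ) ≤ 1 + ((P.length : ℝ) - 1) * Q := by
    have h1 : ((a : ℝ) / M) * (P.length : ℝ) * Ω ≤ Ω + ((P.length : ℝ) - 1) * (A.card : ℝ) :=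
      le_trans hs hsum2
    have h2 : (1 + ((P.length : ℝ) - 1) * Q) * Ω = Ω + ((P.length : ℝ) - 1) * (A.card : ℝ) := by
      rw [hQ]
      field_simp
    rw [← h2] at h1
    exact le_of_mul_le_mul_right h1 hΩ
  have hp : (a : ℝ) / M ≤ 1 / 2 := by
    rw [div_le_iff₀ hMR]
    have : (2 * a : ℝ) ≤ M := by exact_mod_cast haM
    linarith
  have hpot := pot_step N hN ((a : ℝ) / M) Q (by positivity) hp (by rw [hQ]; positivity)
    (by rw [hQ, div_le_one hΩ]; exact hAle) P.length hlen hcond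
  -- the sum
  set G1 : ℝ := 1 + gg N (P.length - 1) - gg N P.length with hG1
  set G2 : ℝ := (if P.length < 2 * N + 2 then 1 + gg N (P.length + 1) - gg N P.length else 0)
    with hG2
  have hsum : ∑ ρ : C → Fin M, (if 2 ≤ hits χ (SS L a (comb K ω ρ)) v P then G1 else G2) =
      (A.card : ℝ) * G1 + (Ω - A.card) * G2 := by
    rw [Finset.sum_ite, Finset.sum_const, Finset.sum_const, nsmul_eq_mul, nsmul_eq_mul]
    congr 2
    have h1 : A.card + (univ.filter
        (fun ρ : C → Fin M => ¬ (2 ≤ hits χ (SS L a (comb K ω ρ)) v P))).card =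
        Fintype.card (C → Fin M) := by
      rw [hA, Finset.card_filter_add_card_filter_not, Finset.card_univ]
    have h2 : (A.card : ℝ) + ((univ.filter
        (fun ρ : C → Fin M => ¬ (2 ≤ hits χ (SS L a (comb K ω ρ)) v P))).card : ℝ) = Ω := by
      rw [hΩdef]
      exact_mod_cast h1
    linarith
  rw [hsum]
  have h3 : (Q * G1 + (1 - Q) * G2) * Ω = (A.card : ℝ) * G1 + (Ω - A.card) * G2 := by
    rw [hQ]
    field_simp
  rw [← h3]
  exact mul_le_mul_of_nonneg_right hpot hΩ.le

end PF61
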