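import Pool.Agent.LibPF61.T20
import Pool.Agent.LibPF61.T22
import Pool.Agent.LibPF61.T23

namespace PF61
open Finset
open scoped Classical

variable {V C : Type} [Fintype V] [Fintype C]

theorem t24_chain (χ : V → V → C) (S S' : Finset C) (b : List V)
    (h : ∀ x ∈ b, ∀ y ∈ b, x ≠ y → χ x y ∈ S → χ x y ∈ S') :
    ∀ l : List V, l.Nodup → (∀ x ∈ l, x ∈ b) → l.IsChain (fun u v => χ u v ∈ S) →
      l.IsChain (fun u v => χ u v ∈ S') := by
  intro l
  induction l with
  | nil => intro _ _ _; exact List.IsChain.nil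
  | cons x l ih =>
    intro hnd hb hc
    cases l with
    | nil => exact List.IsChain.singleton x
    | cons y l =>
      rw [List.isChain_cons_cons] at hc ⊢
      refine ⟨?_, ih (List.nodup_cons.1 hnd).2 (fun z hz => hb z (List.mem_cons_of_mem _ hz)) hc.2⟩
      refine h x (hb x (by simp)) y (hb y (by simp)) ?_ hc.1
      rintro rfl
      exact (List.nodup_cons.1 hnd).1 (by simp)

/-- path systems only see the colours of the pairs of `b` -/
theorem ps_congr (χ : V → V → C) (S S' : Finset C) (b : List V) (P : List (List V))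
    (hP : PS χ S b.toFinset P)
    (h : ∀ x ∈ b, ∀ y ∈ b, x ≠ y → χ x y ∈ S → χ x y ∈ S') : PS χ S' b.toFinset P := by
  refine ⟨hP.ne, ?_, hP.nodup, hP.sub⟩
  intro l hl
  refine t24_chain χ S S' b h l ?_ ?_ (hP.chain l hl)
  · exact (List.nodup_flatten.1 hP.nodup).1 l hl
  · intro x hx
    have := hP.sub x (List.mem_flatten.2 ⟨l, hl, hx⟩)
    simpa using this

/-- one vertex more: from a choice of path systems for `b` to one for `v :: b`.
With `K = {χ y z | y ≠ z ∈ b}`: for a pair `(ω', ρ)` the system `P ω'` is a path system for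
`SS L a (comb K ω' ρ)` (`ps_congr`); extend it by `ext_step` to `P' ω' ρ`.  By `sum_comb` and
`comb_comb` choose for each `ω` the best `ρ` for `P' (comb K ω ρ) (comb K ρ ω)`
(the maximum is at least the average), and use `gain_sum`. -/
theorem block_step (χ : V → V → C) (hχ : ∀ u v, χ u v = χ v u) (L : Finset C) {M : ℕ} (hM : 0 < M)
    (a : ℕ) (haM : 2 * a ≤ M) (N : ℕ) (hN : 1 ≤ N) (v : V) (b : List V) (hb : Good χ L (v :: b))
    (P : (C → Fin M) → List (List V))
    (hP : ∀ ω, PS χ (SS L a ω) b.toFinset (P ω) ∧ (P ω).length ≤ 2 * N + 2) :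
    ∃ P' : (C → Fin M) → List (List V),
      (∀ ω, PS χ (SS L a ω) (v :: b).toFinset (P' ω) ∧ (P' ω).length ≤ 2 * N + 2) ∧
      (∑ ω, (((P ω).flatten.length : ℝ) + gg N (P ω).length)) +
        (2 * ((a : ℝ) / M) - 3 / N) * (Fintype.card (C → Fin M) : ℝ) ≤
      ∑ ω, (((P' ω).flatten.length : ℝ) + gg N (P' ω).length) := by
  obtain ⟨hvb, hgood, -⟩ := hb
  set K : Finset C := univ.filter (fun c => ∃ y ∈ b, ∃ z ∈ b, y ≠ z ∧ χ y z = c) with hKdef
  have hKx : ∀ x ∈ b, χ v x ∈ L ∨ χ v x ∉ K := by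
    intro x hx
    by_contra hcon
    push Not at hcon
    obtain ⟨h1, h2⟩ := hcon
    rw [hKdef, mem_filter] at h2
    obtain ⟨-, y, hy, z, hz, hyz, he⟩ := h2
    exact hgood x hx y hy z hz hyz h1 he.symm
  have hne : Nonempty (C → Fin M) := ⟨fun _ => ⟨0, hM⟩⟩
  -- transfer
  have htr : ∀ ω ρ : C → Fin M, PS χ (SS L a (comb K ω ρ)) b.toFinset (P ω) := by
    intro ω ρ
    refine ps_congr χ (SS L a ω) _ b (P ω) (hP ω).1 ?_
    intro x hx y hy hxy hS
    have hc : χ x y ∈ K := by
      rw [hKdef, mem_filter]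
      exact ⟨mem_univ _, x, hx, y, hy, hxy, rfl⟩
    unfold SS at hS ⊢
    rw [mem_filter] at hS ⊢
    refine ⟨mem_univ _, ?_⟩
    unfold comb
    rw [if_pos hc]
    exact hS.2
  have hvA : v ∉ b.toFinset := by simpa using hvb
  have hext := fun ω ρ => ext_step χ hχ N (SS L a (comb K ω ρ)) b.toFinset v hvA (P ω) (htr ω ρ)
    (hP ω).2
  choose E hE using hext
  -- the best choice
  have hmax : ∀ ω : C → Fin M, ∃ ρ₀ : C → Fin M, ∀ ρ : C → Fin M,
      ((E (comb K ω ρ) (comb K ρ ω)).flatten.length : ℝ) +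
        gg N (E (comb K ω ρ) (comb K ρ ω)).length ≤
      ((E (comb K ω ρ₀) (comb K ρ₀ ω)).flatten.length : ℝ) +
        gg N (E (comb K ω ρ₀) (comb K ρ₀ ω)).length := by
    intro ω
    obtain ⟨ρ₀, -, h⟩ := Finset.exists_max_image (univ : Finset (C → Fin M))
      (fun ρ => ((E (comb K ω ρ) (comb K ρ ω)).flatten.length : ℝ) +
        gg N (E (comb K ω ρ) (comb K ρ ω)).length) univ_nonempty
    exact ⟨ρ₀, fun ρ => h ρ (mem_univ _)⟩
  choose r hr using hmax
  refine ⟨fun ω => E (comb K ω (r ω)) (comb K (r ω) ω), ?_, ?_⟩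
  · intro ω
    obtain ⟨h1, h2, -⟩ := hE (comb K ω (r ω)) (comb K (r ω) ω)
    rw [comb_comb] at h1
    refine ⟨?_, h2⟩
    rw [List.toFinset_cons]
    exact h1
  · set c : ℝ := (Fintype.card (C → Fin M) : ℝ) with hc
    have hcpos : 0 < c := by
      rw [hc]
      exact_mod_cast Fintype.card_pos
    -- average
    have h1 : ∑ ω : C → Fin M, ∑ ρ : C → Fin M,
        (((E (comb K ω ρ) (comb K ρ ω)).flatten.length : ℝ) +
          gg N (E (comb K ω ρ) (comb K ρ ω)).length) ≤
        c * ∑ ω : C → Fin M, (((E (comb K ω (r ω)) (comb K (r ω) ω)).flatten.length : ℝ) +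
          gg N (E (comb K ω (r ω)) (comb K (r ω) ω)).length) := by
      rw [mul_sum]
      refine sum_le_sum fun ω _ => ?_
      refine (sum_le_card_nsmul univ _ _ (fun ρ _ => hr ω ρ)).trans ?_
      rw [nsmul_eq_mul, card_univ]
    have h2 := sum_comb K (fun ω ρ => ((E ω ρ).flatten.length : ℝ) + gg N (E ω ρ).length)
    have h3 : ∑ ω : C → Fin M, (c * (((P ω).flatten.length : ℝ) + gg N (P ω).length) +
        (2 * ((a : ℝ) / M) - 3 / N) * c) ≤
        ∑ ω : C → Fin M, ∑ ρ : C → Fin M, (((E ω ρ).flatten.length : ℝ) + gg N (E ω ρ).length) := by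
      refine sum_le_sum fun ω _ => ?_
      have hg := gain_sum χ L hM a haM N hN K v (P ω) (hP ω).1.ne (hP ω).2
        (fun x hx => hKx x (by simpa using (hP ω).1.sub x hx)) ω
      have h4 : ∑ ρ : C → Fin M, ((((P ω).flatten.length : ℝ) + gg N (P ω).length) +
          (if 2 ≤ hits χ (SS L a (comb K ω ρ)) v (P ω)
            then 1 + gg N ((P ω).length - 1) - gg N (P ω).length
            else if (P ω).length < 2 * N + 2 then 1 + gg N ((P ω).length + 1) - gg N (P ω).length
            else 0)) ≤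
          ∑ ρ : C → Fin M, (((E ω ρ).flatten.length : ℝ) + gg N (E ω ρ).length) :=
        sum_le_sum fun ρ _ => (hE ω ρ).2.2
      rw [sum_add_distrib, sum_const, card_univ, nsmul_eq_mul] at h4
      linarith
    rw [sum_add_distrib, ← mul_sum, sum_const, card_univ, nsmul_eq_mul] at h3
    have h5 : c * ((∑ ω, (((P ω).flatten.length : ℝ) + gg N (P ω).length)) +
        (2 * ((a : ℝ) / M) - 3 / N) * c) ≤
        c * ∑ ω : C → Fin M, (((E (comb K ω (r ω)) (comb K (r ω) ω)).flatten.length : ℝ) +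
          gg N (E (comb K ω (r ω)) (comb K (r ω) ω)).length) := by
      refine le_trans (le_of_eq (by ring)) (h3.trans ?_)
      rw [h2]
      exact h1
    exact le_of_mul_le_mul_left h5 hcpos

/-- induction over the block -/
theorem block (χ : V → V → C) (hχ : ∀ u v, χ u v = χ v u) (L : Finset C) {M : ℕ} (hM : 0 < M)
    (a : ℕ) (haM : 2 * a ≤ M) (N : ℕ) (hN : 1 ≤ N) (b : List V) (hb : Good χ L b) :
    ∃ P : (C → Fin M) → List (List V),
      (∀ ω, PS χ (SS L a ω) b.toFinset (P ω) ∧ (P ω).length ≤ 2 * N + 2) ∧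
      (2 * ((a : ℝ) / M) - 3 / N) * (b.length : ℝ) * (Fintype.card (C → Fin M) : ℝ) ≤
      ∑ ω, ((P ω).flatten.length : ℝ) := by
  have key : ∀ b : List V, Good χ L b → ∃ P : (C → Fin M) → List (List V),
      (∀ ω, PS χ (SS L a ω) b.toFinset (P ω) ∧ (P ω).length ≤ 2 * N + 2) ∧
      gg N 0 * (Fintype.card (C → Fin M) : ℝ) +
        (2 * ((a : ℝ) / M) - 3 / N) * (b.length : ℝ) * (Fintype.card (C → Fin M) : ℝ) ≤
      ∑ ω, (((P ω).flatten.length : ℝ) + gg N (P ω).length) := by
    intro b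
    induction b with
    | nil =>
      intro _
      refine ⟨fun _ => [], fun ω => ⟨⟨by simp, by simp, by simp, by simp⟩, by simp⟩, ?_⟩
      simp [mul_comm]
    | cons v b ih =>
      intro hb
      obtain ⟨P, hP, hs⟩ := ih hb.2.2
      obtain ⟨P', hP', hs'⟩ := block_step χ hχ L hM a haM N hN v b hb P hP
      refine ⟨P', hP', le_trans ?_ hs'⟩
      rw [List.length_cons]
      push_cast
      linarith
  obtain ⟨P, hP, hs⟩ := key b hb
  refine ⟨P, hP, ?_⟩
  have h1 : ∑ ω : C → Fin M, gg N (P ω).length ≤ gg N 0 * (Fintype.card (C → Fin M) : ℝ) := by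
    refine (sum_le_card_nsmul univ _ _ (fun ω _ => gg_le_zero N (P ω).length)).trans ?_
    rw [nsmul_eq_mul, card_univ, mul_comm]
  rw [sum_add_distrib] at hs
  linarith

end PF61
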